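import Pool.Agent.NH71.DC.Stm

/-!
# Project DC: general lemmas

Walks, distances, the diameter, monotonicity of `pD`.
-/

set_option autoImplicit false

open MeasureTheory ProbabilityTheory Filter Topology
open scoped ENNReal

namespace Pool.Agent.NH71.DC

namespace Base

lemma walk_append {V : Type} {R : V → V → Prop} {a b : ℕ} {u v w : V} (h1 : Walk R a u v)
    (h2 : Walk R b v w) : Walk R (a + b) u w := by
  induction h1 with
  | nil v => simpa using h2
  | cons h _ ih =>
    rw [Nat.add_right_comm]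
    exact Walk.cons h (ih h2)

lemma walk_split {V : Type} {R : V → V → Prop} : ∀ (i j : ℕ) {u w : V}, Walk R (i + j) u w →
    ∃ v, Walk R i u v ∧ Walk R j v w
  | 0, j, u, w, h => ⟨u, Walk.nil u, by simpa using h⟩
  | i + 1, j, u, w, h => by
    rw [Nat.add_right_comm] at h
    cases h with
    | cons h1 h2 =>
      obtain ⟨v, hv1, hv2⟩ := walk_split i j h2
      exact ⟨v, Walk.cons h1 hv1, hv2⟩

/-- initial pieces of shortest walks -/
lemma dist_prefix {V : Type} {R : V → V → Prop} {m i : ℕ} {u v : V} (h : DistEq R m u v)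
    (hi : i ≤ m) : ∃ w, DistEq R i u w := by
  obtain ⟨j, rfl⟩ := Nat.exists_eq_add_of_le hi
  obtain ⟨w, h1, h2⟩ := walk_split i j h.1
  refine ⟨w, h1, fun m' hm' h3 => ?_⟩
  exact h.2 (m' + j) (by omega) (walk_append h3 h2)

lemma dist_unique {V : Type} {R : V → V → Prop} {a b : ℕ} {u v : V} (h1 : DistEq R a u v)
    (h2 : DistEq R b u v) : a = b := by
  rcases lt_trichotomy a b with h | h | h
  · exact absurd h1.1 (h2.2 a h)
  · exact h
  · exact absurd h2.1 (h1.2 b h)

lemma dist_lt_card {V : Type} [Fintype V] {R : V → V → Prop} {m : ℕ} {u v : V}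
    (h : DistEq R m u v) : m < Fintype.card V := by
  classical
  choose f hf using fun i : Fin (m + 1) => dist_prefix h (Nat.lt_succ_iff.1 i.2)
  have hinj : Function.Injective f := by
    intro i j hij
    apply Fin.ext
    have h1 := hf i
    rw [hij] at h1
    exact dist_unique h1 (hf j)
  have := Fintype.card_le_of_injective f hinj
  simpa using this

lemma diam_bdd {V : Type} [Fintype V] (R : V → V → Prop) :
    BddAbove {m | ∃ u v, DistEq R m u v} :=
  ⟨Fintype.card V, fun _ ⟨_, _, h⟩ => (dist_lt_card h).le⟩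

lemma le_diam {V : Type} [Fintype V] {R : V → V → Prop} {m : ℕ} {u v : V}
    (h : DistEq R m u v) : m ≤ diam R :=
  le_csSup (diam_bdd R) ⟨u, v, h⟩

lemma diam_le {V : Type} [Fintype V] (R : V → V → Prop) : diam R ≤ Fintype.card V := by
  rcases Set.eq_empty_or_nonempty {m | ∃ u v, DistEq R m u v} with h | h
  · unfold diam; rw [h]; simp
  · obtain ⟨u, v, h1⟩ := Nat.sSup_mem h (diam_bdd R)
    exact (dist_lt_card h1).le

/-- if the diameter is `> x ≥ 0`, it is a distance -/
lemma exists_of_lt_diam {V : Type} [Fintype V] {R : V → V → Prop} {x : ℝ} (hx : 0 ≤ x)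
    (h : x < diam R) : ∃ m : ℕ, x < m ∧ ∃ u v, DistEq R m u v := by
  rcases Set.eq_empty_or_nonempty {m | ∃ u v, DistEq R m u v} with h1 | h1
  · exfalso
    unfold diam at h
    rw [h1] at h
    simp at h
    linarith
  · obtain ⟨u, v, h2⟩ := Nat.sSup_mem h1 (diam_bdd R)
    exact ⟨_, h, u, v, h2⟩

lemma pD_le_one {n : ℕ} (d : DS n) (x : ℝ) : pD d x ≤ 1 := by
  classical
  unfold pD
  refine ENNReal.div_le_of_le_mul ?_
  rw [one_mul]
  refine Nat.cast_le.2 (Finset.card_le_card ?_)
  intro A hA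
  rw [Finset.mem_filter] at hA ⊢
  exact ⟨hA.1, hA.2.1⟩

lemma pD_anti {n : ℕ} (d : DS n) {x y : ℝ} (h : x ≤ y) : pD d y ≤ pD d x := by
  classical
  unfold pD
  refine ENNReal.div_le_div_right ?_ _
  refine Nat.cast_le.2 (Finset.card_le_card ?_)
  intro A hA
  rw [Finset.mem_filter] at hA ⊢
  exact ⟨hA.1, hA.2.1, h.trans_lt hA.2.2⟩

lemma pD_eq_zero {n : ℕ} (d : DS n) {x : ℝ} (h : (n : ℝ) ≤ x) : pD d x = 0 := by
  classical
  unfold pD
  have : (Finset.univ.filter fun A : SD n => HasDeg A d ∧ x < diam A.arc) = ∅ := by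
    rw [Finset.filter_eq_empty_iff]
    rintro A _ ⟨_, h2⟩
    have h3 := diam_le A.arc
    rw [Fintype.card_fin] at h3
    have : (diam A.arc : ℝ) ≤ n := by exact_mod_cast h3
    linarith
  rw [this]
  simp

instance instDisc (n : ℕ) : DiscreteMeasurableSpace (DS n) := inferInstance

lemma measurable_pD {n : ℕ} (x : ℝ) : Measurable fun d : DS n => pD d x := measurable_of_countable _

lemma meas_set {n : ℕ} (s : Set (DS n)) : MeasurableSet s := MeasurableSet.of_discrete

end Base

end Pool.Agent.NH71.DC
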