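import Pool.Agent.NH71.DC.Stm

set_option autoImplicit false

open MeasureTheory ProbabilityTheory Filter Topology
open scoped ENNReal

namespace Pool.Agent.NH71.DC

namespace Chf

/-- the difference of the coordinates -/
noncomputable def Y (x : ℕ × ℕ) : ℝ := (x.1 : ℝ) - x.2

variable {ν : Measure (ℕ × ℕ)}

lemma intY (h : Hyp ν) : Integrable Y ν := by
  have h1 := h.mom 1 0 (Or.inl (by norm_num))
  have h2 := h.mom 0 1 (Or.inl (by norm_num))
  simp only [pow_one, pow_zero, mul_one, one_mul] at h1 h2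
  exact h1.sub h2

lemma meanY (h : Hyp ν) : ∫ x, Y x ∂ν = 0 := by
  have h1 := h.mom 1 0 (Or.inl (by norm_num))
  have h2 := h.mom 0 1 (Or.inl (by norm_num))
  simp only [pow_one, pow_zero, mul_one, one_mul] at h1 h2
  unfold Y
  rw [integral_sub h1 h2, h.mean, sub_self]

lemma intY2 (h : Hyp ν) : Integrable (fun x => Y x ^ 2) ν := by
  have h1 := h.mom 2 0 (Or.inl (by norm_num))
  have h2 := h.mom 0 2 (Or.inl (by norm_num))
  have h3 := h.mom 1 1 (Or.inl (by norm_num))
  simp only [pow_one, pow_zero, mul_one, one_mul] at h1 h2 h3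
  have := (h1.add h2).sub (h3.const_mul 2)
  refine this.congr (Eventually.of_forall fun x => ?_)
  simp only [Pi.add_apply, Pi.sub_apply, Y]
  ring

lemma sig_pos (h : Hyp ν) : 0 < ∫ x, Y x ^ 2 ∂ν := by
  have h0 : 0 ≤ ∫ x, Y x ^ 2 ∂ν := integral_nonneg fun x => sq_nonneg _
  rcases h0.lt_or_eq with h1 | h1
  · exact h1
  exfalso
  have h2 := (integral_eq_zero_iff_of_nonneg (fun x => sq_nonneg _) (intY2 h)).1 h1.symm
  apply h.aper 2 (by norm_num) 0
  filter_upwards [h2] with x hx
  refine ⟨0, ?_⟩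
  have h3 : Y x = 0 := by simpa using hx
  unfold Y at h3
  simp [h3]

lemma ph_eq (t s : ℝ) (hs : s ≠ 0) :
    ph ν t = charFun (ν.map (fun x => Y x / s)) (s * t) := by
  rw [charFun_apply_real, integral_map Measurable.of_discrete.aemeasurable
    (by fun_prop)]
  unfold ph
  congr 1
  ext x
  congr 1
  unfold Y
  have hs' : (s : ℂ) ≠ 0 := by exact_mod_cast hs
  push_cast
  field_simp

lemma norm_lt (h : Hyp ν) {t : ℝ} (ht0 : t ≠ 0) (ht : |t| ≤ Real.pi) : ‖ph ν t‖ < 1 := by
  have := h.prob
  have hexp : ∀ x : ℕ × ℕ, Complex.I * t * ((x.1 : ℂ) - x.2) = ((t * Y x : ℝ) : ℂ) * Complex.I := by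
    intro x
    unfold Y
    push_cast
    ring
  have hle : ∀ᵐ x ∂ν, ‖Complex.exp (Complex.I * t * ((x.1 : ℂ) - x.2))‖ ≤ 1 := by
    refine Eventually.of_forall fun x => ?_
    rw [hexp, Complex.norm_exp_ofReal_mul_I]
  rcases ae_eq_const_or_norm_integral_lt_of_norm_le_const hle with h1 | h1
  · exfalso
    obtain ⟨x0, hx0⟩ := h1.exists
    simp only [Function.const_apply] at hx0
    let H : AddSubgroup ℤ :=
      { carrier := {k | ∃ m : ℤ, t * k = 2 * Real.pi * m}
        add_mem' := by
          rintro a b ⟨m, hm⟩ ⟨m', hm'⟩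
          refine ⟨m + m', ?_⟩
          push_cast
          rw [mul_add, hm, hm']
          ring
        zero_mem' := ⟨0, by simp⟩
        neg_mem' := by
          rintro a ⟨m, hm⟩
          refine ⟨-m, ?_⟩
          push_cast
          rw [mul_neg, hm]
          ring }
    have hmem : ∀ᵐ x ∂ν, ((x.1 : ℤ) - x.2) - ((x0.1 : ℤ) - x0.2) ∈ H := by
      filter_upwards [h1] with x hx
      simp only [Function.const_apply] at hx
      rw [← hx0, hexp, hexp, Complex.exp_eq_exp_iff_exists_int] at hx
      obtain ⟨n, hn⟩ := hx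
      refine ⟨n, ?_⟩
      have hn2 : ((t * Y x : ℝ) : ℂ) = ((t * Y x0 + n * (2 * Real.pi) : ℝ) : ℂ) := by
        have hI := Complex.I_ne_zero
        apply mul_right_cancel₀ hI
        rw [hn]
        push_cast
        ring
      have hn3 : t * Y x = t * Y x0 + n * (2 * Real.pi) := by exact_mod_cast hn2
      unfold Y at hn3
      push_cast
      linarith
    have h1H : (1 : ℤ) ∉ H := by
      rintro ⟨m, hm⟩
      have hm1 : t = 2 * Real.pi * m := by simpa using hm
      have hpi := Real.pi_pos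
      by_cases hm0 : m = 0
      · apply ht0
        rw [hm1, hm0]
        simp
      · have h2 : (1 : ℝ) ≤ |(m : ℝ)| := by
          have := Int.one_le_abs hm0
          exact_mod_cast this
        rw [hm1, abs_mul, abs_of_pos (by positivity : 0 < 2 * Real.pi)] at ht
        nlinarith
    obtain ⟨a, ha⟩ := Int.subgroup_cyclic H
    have hdv : ∀ k ∈ H, a ∣ k := by
      intro k hk
      rw [ha, AddSubgroup.mem_closure_singleton] at hk
      obtain ⟨n, hn⟩ := hk
      exact ⟨n, by rw [← hn, smul_eq_mul, mul_comm]⟩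
    have haH : a ∈ H := by
      rw [ha]
      exact AddSubgroup.subset_closure (Set.mem_singleton a)
    have ha1 : a.natAbs ≠ 1 := by
      intro h2
      rcases Int.natAbs_eq a with h3 | h3
      · rw [h2] at h3
        exact h1H (by simpa [h3] using haH)
      · rw [h2] at h3
        apply h1H
        have := H.neg_mem haH
        simpa [h3] using this
    obtain ⟨p, hp1, hp⟩ : ∃ p : ℕ, 1 < p ∧ ∀ k ∈ H, (p : ℤ) ∣ k := by
      by_cases h0 : a = 0
      · refine ⟨2, by norm_num, fun k hk => ?_⟩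
        have := hdv k hk
        rw [h0, zero_dvd_iff] at this
        rw [this]
        exact dvd_zero _
      · refine ⟨a.natAbs, ?_, fun k hk => ?_⟩
        · have : a.natAbs ≠ 0 := by simpa using h0
          omega
        · rw [Int.natAbs_dvd]
          exact hdv k hk
    apply h.aper p hp1 ((x0.1 : ℝ) - x0.2)
    filter_upwards [hmem] with x hx
    obtain ⟨k, hk⟩ := hp _ hx
    refine ⟨k, ?_⟩
    have hk' : (((x.1 : ℤ) - x.2 - ((x0.1 : ℤ) - x0.2) : ℤ) : ℝ) = ((p * k : ℤ) : ℝ) := by
      rw [hk]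
    push_cast at hk'
    linarith
  · simpa [ph] using h1

end Chf

open Chf in
theorem s_chf : S_CHF := by
  intro ν h
  have hpr := h.prob
  set σ2 : ℝ := ∫ x, Y x ^ 2 ∂ν with hσ
  have hσ0 : 0 < σ2 := sig_pos h
  set s : ℝ := Real.sqrt σ2 with hs
  have hs0 : 0 < s := Real.sqrt_pos.2 hσ0
  have hs2 : s ^ 2 = σ2 := Real.sq_sqrt hσ0.le
  set X : ℕ × ℕ → ℝ := fun x => Y x / s with hX
  have hXm : AEMeasurable X ν := Measurable.of_discrete.aemeasurable
  have hX0 : ν[X] = 0 := by
    rw [hX, integral_div, meanY h, zero_div]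
  have hX1 : ν[X ^ 2] = 1 := by
    have : (X ^ 2) = fun x => Y x ^ 2 / s ^ 2 := by
      ext x
      simp [hX, div_pow]
    rw [this, integral_div, ← hσ, hs2, div_self hσ0.ne']
  have hph : ∀ t, ph ν t = charFun (ν.map X) (s * t) := fun t => ph_eq t s hs0.ne'
  have : IsProbabilityMeasure (ν.map X) := Measure.isProbabilityMeasure_map hXm
  have hcont : Continuous (fun t => ‖ph ν t‖) := by
    simp only [hph]
    have := continuous_charFun (μ := ν.map X)
    fun_prop
  constructor
  · have hT := taylor_charFun_two hXm hX0 hX1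
    have hT2 := hT.def (show (0 : ℝ) < 1 / 4 by norm_num)
    obtain ⟨δ0, hδ0, hδ⟩ := Metric.eventually_nhds_iff.1 hT2
    set δ := min δ0 1 with hδdef
    have hδpos : 0 < δ := lt_min hδ0 one_pos
    have hnear : ∀ t : ℝ, |t| < δ / s → ‖ph ν t‖ ≤ Real.exp (-(σ2 / 4) * t ^ 2) := by
      intro t ht
      have h1 : |s * t| < δ := by
        rw [abs_mul, abs_of_pos hs0]
        rw [lt_div_iff₀ hs0] at ht
        linarith
      have h2 := hδ (show dist (s * t) 0 < δ0 by
        rw [Real.dist_eq, sub_zero]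
        exact h1.trans_le (min_le_left _ _))
      rw [hph]
      have h3 : |s * t| < 1 := h1.trans_le (min_le_right _ _)
      have h4 : (s * t) ^ 2 < 1 := by
        rw [← sq_abs]
        nlinarith [abs_nonneg (s * t)]
      have h5 : ‖charFun (ν.map X) (s * t)‖ ≤
          ‖((1 - (s * t) ^ 2 / 2 : ℝ) : ℂ)‖ + 1 / 4 * (s * t) ^ 2 := by
        have h6 : charFun (ν.map X) (s * t) = ((1 - (s * t) ^ 2 / 2 : ℝ) : ℂ) +
            (charFun (ν.map X) (s * t) - (1 - ((s * t : ℝ) : ℂ) ^ 2 / 2)) := by
          push_cast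
          ring
        rw [h6]
        refine (norm_add_le _ _).trans ?_
        have h7 : ‖(s * t) ^ 2‖ = (s * t) ^ 2 := by
          rw [Real.norm_eq_abs, abs_of_nonneg (sq_nonneg _)]
        rw [h7] at h2
        linarith
      rw [Complex.norm_real, Real.norm_eq_abs, abs_of_nonneg (by nlinarith)] at h5
      have h8 := Real.add_one_le_exp (-(σ2 / 4) * t ^ 2)
      have h9 : (s * t) ^ 2 = σ2 * t ^ 2 := by rw [mul_pow, hs2]
      rw [h9] at h5
      linarith
    set K : Set ℝ := Set.Icc (-Real.pi) Real.pi ∩ {t | δ / s ≤ |t|} with hK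
    have hKc : IsCompact K := isCompact_Icc.inter_right
      (isClosed_le continuous_const continuous_abs)
    obtain ⟨M, hM0, hM1, hM⟩ : ∃ M : ℝ, 0 < M ∧ M < 1 ∧ ∀ t ∈ K, ‖ph ν t‖ ≤ M := by
      by_cases hne : K.Nonempty
      · obtain ⟨t0, ht0, hmax⟩ := hKc.exists_isMaxOn hne hcont.continuousOn
        have h1 : ‖ph ν t0‖ < 1 := by
          apply norm_lt h
          · intro h0
            have := ht0.2
            simp only [Set.mem_ofPred_eq, h0, abs_zero] at this
            have : 0 < δ / s := by positivity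
            linarith
          · exact abs_le.2 ⟨ht0.1.1, ht0.1.2⟩
        refine ⟨max ‖ph ν t0‖ (1 / 2), lt_max_of_lt_right (by norm_num),
          max_lt h1 (by norm_num), fun t ht => ?_⟩
        exact (hmax ht).trans (le_max_left _ _)
      · refine ⟨1 / 2, by norm_num, by norm_num, fun t ht => ?_⟩
        exact absurd ⟨t, ht⟩ hne
    have hlog : Real.log M < 0 := Real.log_neg hM0 hM1
    have hpi := Real.pi_pos
    refine ⟨min (σ2 / 4) (-Real.log M / Real.pi ^ 2), lt_min (by positivity)
      (div_pos (by linarith) (by positivity)), fun t ht => ?_⟩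
    by_cases hlt : |t| < δ / s
    · refine (hnear t hlt).trans (Real.exp_le_exp.2 ?_)
      have := min_le_left (σ2 / 4) (-Real.log M / Real.pi ^ 2)
      have h2 := mul_le_mul_of_nonneg_right this (sq_nonneg t)
      linarith
    · have htK : t ∈ K := ⟨abs_le.1 ht, not_lt.1 hlt⟩
      refine (hM t htK).trans ?_
      rw [← Real.exp_log hM0]
      apply Real.exp_le_exp.2
      rw [Real.exp_log hM0]
      have h1 := min_le_right (σ2 / 4) (-Real.log M / Real.pi ^ 2)
      have h2 : t ^ 2 ≤ Real.pi ^ 2 := by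
        rw [← sq_abs]
        nlinarith [abs_nonneg t]
      have h3 : min (σ2 / 4) (-Real.log M / Real.pi ^ 2) * t ^ 2 ≤
          (-Real.log M / Real.pi ^ 2) * Real.pi ^ 2 := by
        apply mul_le_mul h1 h2 (sq_nonneg t)
        exact (div_pos (by linarith) (by positivity)).le
      rw [div_mul_cancel₀ _ (by positivity)] at h3
      linarith
  · refine ⟨σ2, hσ0, fun u => ?_⟩
    have h1 := tendsto_charFun_inv_sqrt_mul_pow hXm hX0 hX1 (s * u)
    have h2 : (fun n : ℕ => (ph ν (u / Real.sqrt n)) ^ n) =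
        fun n : ℕ => (charFun (ν.map X) ((Real.sqrt n)⁻¹ * (s * u))) ^ n := by
      ext n
      rw [hph]
      congr 2
      ring
    rw [h2]
    have h3 : ((Real.exp (-σ2 * u ^ 2 / 2) : ℝ) : ℂ) =
        Complex.exp (-((s * u : ℝ) : ℂ) ^ 2 / 2) := by
      rw [Complex.ofReal_exp]
      congr 1
      rw [← hs2]
      push_cast
      ring
    rw [h3]
    exact h1

end Pool.Agent.NH71.DC
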