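import Pool.Agent.NH71.DC.Stm

/-!
# Project DC, part B1: simple digraphs and simple configurations
-/

set_option autoImplicit false

open Finset

namespace Pool.Agent.NH71.DC

namespace Cnt

variable {n : ℕ} {d : DS n}

/-- out-neighbours -/
abbrev No (A : SD n) (i : Fin n) : Type := {j : Fin n // A.1 i j = true}
/-- in-neighbours -/
abbrev Ni (A : SD n) (j : Fin n) : Type := {i : Fin n // A.1 i j = true}

/-- the arcs, seen from both ends -/
def swp (A : SD n) : (Σ i, No A i) ≃ (Σ j, Ni A j) where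
  toFun x := ⟨x.2.1, ⟨x.1, x.2.2⟩⟩
  invFun x := ⟨x.2.1, ⟨x.1, x.2.2⟩⟩
  left_inv _ := rfl
  right_inv _ := rfl

/-- the configuration of two labellings -/
def Phi (A : SD n) (f : ∀ i, Fin (d i).2 ≃ No A i) (g : ∀ j, Fin (d j).1 ≃ Ni A j) : Cf d :=
  (Equiv.sigmaCongrRight f).trans ((swp A).trans (Equiv.sigmaCongrRight g).symm)

theorem Phi_fst (A : SD n) (f : ∀ i, Fin (d i).2 ≃ No A i) (g : ∀ j, Fin (d j).1 ≃ Ni A j)
    (x : HO d) : (Phi A f g x).1 = (f x.1 x.2).1 := rfl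

theorem Phi_symm_fst (A : SD n) (f : ∀ i, Fin (d i).2 ≃ No A i) (g : ∀ j, Fin (d j).1 ≃ Ni A j)
    (y : HI d) : ((Phi A f g).symm y).1 = (g y.1 y.2).1 := rfl

theorem Phi_apply (A : SD n) (f : ∀ i, Fin (d i).2 ≃ No A i) (g : ∀ j, Fin (d j).1 ≃ Ni A j)
    (x : HO d) : Phi A f g x =
      ⟨(f x.1 x.2).1, (g (f x.1 x.2).1).symm ⟨x.1, (f x.1 x.2).2⟩⟩ := rfl

theorem Phi_simp (A : SD n) (f : ∀ i, Fin (d i).2 ≃ No A i) (g : ∀ j, Fin (d j).1 ≃ Ni A j) :
    Simp (Phi A f g) := by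
  constructor
  · intro x h
    rw [Phi_fst] at h
    have h1 := (f x.1 x.2).2
    rw [h, A.2] at h1
    exact absurd h1 (by decide)
  · rintro ⟨i, a⟩ ⟨i', a'⟩ hne h h2
    have h' : i = i' := h
    subst h'
    rw [Phi_fst, Phi_fst] at h2
    have h3 : f i a = f i a' := Subtype.ext h2
    exact hne (by rw [(f i).injective h3])

theorem Phi_arc (A : SD n) (f : ∀ i, Fin (d i).2 ≃ No A i) (g : ∀ j, Fin (d j).1 ≃ Ni A j)
    (i j : Fin n) : Arc (Phi A f g) i j ↔ A.1 i j = true := by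
  constructor
  · rintro ⟨⟨i', a⟩, h1, h2⟩
    have h1' : i' = i := h1
    subst h1'
    rw [Phi_fst] at h2
    have h3 := (f i' a).2
    rw [← h2]
    exact h3
  · intro h
    refine ⟨⟨i, (f i).symm ⟨j, h⟩⟩, rfl, ?_⟩
    rw [Phi_fst]
    show (f i ((f i).symm ⟨j, h⟩)).1 = j
    rw [Equiv.apply_symm_apply]

theorem Phi_inj (A : SD n) : Function.Injective
    (fun p : (∀ i, Fin (d i).2 ≃ No A i) × (∀ j, Fin (d j).1 ≃ Ni A j) => Phi (d := d) A p.1 p.2) := by
  rintro ⟨f, g⟩ ⟨f', g'⟩ h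
  have h0 : Phi A f g = Phi A f' g' := h
  have hf : f = f' := by
    funext i
    ext1 a
    apply Subtype.ext
    have h1 := congrArg (fun π : Cf d => (π ⟨i, a⟩).1) h0
    exact h1
  have hg : g = g' := by
    funext j
    ext1 b
    apply Subtype.ext
    have h1 := congrArg (fun π : Cf d => (π.symm ⟨j, b⟩).1) h0
    exact h1
  rw [hf, hg]

theorem exists_fg {π : Cf d} (hs : Simp π) {A : SD n} (hA : ∀ i j, Arc π i j ↔ A.1 i j = true) :
    ∃ (f : ∀ i, Fin (d i).2 ≃ No A i) (g : ∀ j, Fin (d j).1 ≃ Ni A j), Phi A f g = π := by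
  have hf : ∀ i, Function.Bijective (fun a : Fin (d i).2 =>
      (⟨(π ⟨i, a⟩).1, (hA _ _).1 ⟨⟨i, a⟩, rfl, rfl⟩⟩ : No A i)) := by
    intro i
    constructor
    · intro a a' h
      have h1 : (π ⟨i, a⟩).1 = (π ⟨i, a'⟩).1 := congrArg Subtype.val h
      by_contra hne
      exact hs.2 ⟨i, a⟩ ⟨i, a'⟩ (fun h2 => hne (Sigma.mk.inj_iff.1 h2).2.eq) rfl h1
    · rintro ⟨j, h⟩
      obtain ⟨⟨i', a⟩, h1, h2⟩ := (hA i j).2 h
      have h1' : i' = i := h1
      subst h1'
      exact ⟨a, Subtype.ext h2⟩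
  have hg : ∀ j, Function.Bijective (fun b : Fin (d j).1 =>
      (⟨(π.symm ⟨j, b⟩).1, (hA _ _).1 ⟨π.symm ⟨j, b⟩, rfl, by rw [Equiv.apply_symm_apply]⟩⟩ :
        Ni A j)) := by
    intro j
    constructor
    · intro b b' h
      have h1 : (π.symm ⟨j, b⟩).1 = (π.symm ⟨j, b'⟩).1 := congrArg Subtype.val h
      by_contra hne
      refine hs.2 (π.symm ⟨j, b⟩) (π.symm ⟨j, b'⟩) (fun h2 => ?_) h1 ?_
      · exact hne (Sigma.mk.inj_iff.1 (π.symm.injective h2)).2.eq
      · rw [Equiv.apply_symm_apply, Equiv.apply_symm_apply]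
    · rintro ⟨i, h⟩
      obtain ⟨x, h1, h2⟩ := (hA i j).2 h
      obtain ⟨y, hy⟩ : ∃ y, π x = y := ⟨_, rfl⟩
      rw [hy] at h2
      obtain ⟨j', b⟩ := y
      have h2' : j' = j := h2
      subst h2'
      refine ⟨b, Subtype.ext ?_⟩
      show (π.symm ⟨j', b⟩).1 = i
      rw [← hy, Equiv.symm_apply_apply]
      exact h1
  refine ⟨fun i => Equiv.ofBijective _ (hf i), fun j => Equiv.ofBijective _ (hg j), ?_⟩
  ext1 x
  rw [Phi_apply]
  have h3 : (Equiv.ofBijective _ (hg (π x).1)).symm ⟨x.1, (hA _ _).1 ⟨x, rfl, rfl⟩⟩ = (π x).2 := by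
    rw [Equiv.symm_apply_eq]
    apply Subtype.ext
    show x.1 = (π.symm ⟨(π x).1, (π x).2⟩).1
    rw [Sigma.eta, Equiv.symm_apply_apply]
  show (⟨(π x).1, (Equiv.ofBijective _ (hg (π x).1)).symm ⟨x.1, _⟩⟩ : HI d) = π x
  rw [h3]

/-- the graph of a configuration -/
noncomputable def gr (π : Cf d) : SD n := by
  classical
  exact ⟨fun i j => decide (i ≠ j ∧ Arc π i j), fun i => by simp⟩

theorem gr_iff {π : Cf d} (hs : Simp π) (i j : Fin n) : Arc π i j ↔ (gr π).1 i j = true := by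
  unfold gr
  simp only [decide_eq_true_eq]
  constructor
  · intro h
    refine ⟨?_, h⟩
    rintro rfl
    obtain ⟨x, h1, h2⟩ := h
    exact hs.1 x (h2.trans h1.symm)
  · exact fun h => h.2

theorem hasDeg_of {A : SD n} (f : ∀ i, Fin (d i).2 ≃ No A i) (g : ∀ j, Fin (d j).1 ≃ Ni A j) :
    HasDeg A d := by
  intro i
  constructor
  · rw [← Fintype.card_subtype, ← Fintype.card_congr (g i), Fintype.card_fin]
  · rw [← Fintype.card_subtype, ← Fintype.card_congr (f i), Fintype.card_fin]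

theorem card_No {A : SD n} (h : HasDeg A d) (i : Fin n) : Fintype.card (No A i) = (d i).2 := by
  rw [Fintype.card_subtype]
  exact (h i).2

theorem card_Ni {A : SD n} (h : HasDeg A d) (i : Fin n) : Fintype.card (Ni A i) = (d i).1 := by
  rw [Fintype.card_subtype]
  exact (h i).1

open Classical in
theorem card_fibre {A : SD n} (h : HasDeg A d) :
    (univ.filter fun π : Cf d => Simp π ∧ ∀ i j, Arc π i j ↔ A.1 i j = true).card =
      ∏ i, ((d i).1.factorial * (d i).2.factorial) := by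
  have h1 : (univ.filter fun π : Cf d => Simp π ∧ ∀ i j, Arc π i j ↔ A.1 i j = true) =
      univ.image (fun p : (∀ i, Fin (d i).2 ≃ No A i) × (∀ j, Fin (d j).1 ≃ Ni A j) =>
        Phi (d := d) A p.1 p.2) := by
    ext π
    simp only [mem_filter, mem_univ, true_and, mem_image, Prod.exists]
    constructor
    · rintro ⟨h1, h2⟩
      exact exists_fg h1 h2
    · rintro ⟨f, g, rfl⟩
      exact ⟨Phi_simp A f g, Phi_arc A f g⟩
  have e1 : ∀ i, Fintype.card (Fin (d i).2 ≃ No A i) = (d i).2.factorial := fun i => by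
    rw [Fintype.card_equiv (Fintype.equivOfCardEq (by rw [Fintype.card_fin, card_No h])),
      Fintype.card_fin]
  have e2 : ∀ i, Fintype.card (Fin (d i).1 ≃ Ni A i) = (d i).1.factorial := fun i => by
    rw [Fintype.card_equiv (Fintype.equivOfCardEq (by rw [Fintype.card_fin, card_Ni h])),
      Fintype.card_fin]
  rw [h1, Finset.card_image_of_injective _ (Phi_inj A), Finset.card_univ, Fintype.card_prod,
    Fintype.card_pi, Fintype.card_pi, Finset.prod_mul_distrib, mul_comm]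
  congr 1
  · exact Finset.prod_congr rfl fun i _ => e2 i
  · exact Finset.prod_congr rfl fun i _ => e1 i

end Cnt

open Cnt in
/-- **B1** -/
theorem s_cnt : S_CNT := by
  intro n d Q
  classical
  have hmaps : ∀ π ∈ (Finset.univ.filter fun π : Cf d => Simp π ∧ Q (Arc π)),
      gr π ∈ (Finset.univ.filter fun A : SD n => HasDeg A d ∧ Q A.arc) := by
    intro π hπ
    obtain ⟨hs, hQ⟩ := (Finset.mem_filter.1 hπ).2
    obtain ⟨f, g, -⟩ := exists_fg hs (gr_iff hs)
    refine Finset.mem_filter.2 ⟨Finset.mem_univ _, hasDeg_of f g, ?_⟩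
    have h1 : (gr π).arc = Arc π := by
      funext i j
      exact propext (gr_iff hs i j).symm
    rw [h1]
    exact hQ
  rw [Finset.card_eq_sum_card_fiberwise hmaps]
  have hfib : ∀ A ∈ (Finset.univ.filter fun A : SD n => HasDeg A d ∧ Q A.arc),
      ((Finset.univ.filter fun π : Cf d => Simp π ∧ Q (Arc π)).filter fun π => gr π = A).card =
        ∏ i, ((d i).1.factorial * (d i).2.factorial) := by
    intro A hA
    obtain ⟨hd, hQ⟩ := (Finset.mem_filter.1 hA).2
    rw [← card_fibre hd]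
    refine congrArg Finset.card (Finset.ext fun π => ?_)
    simp only [Finset.mem_filter, Finset.mem_univ, true_and]
    constructor
    · rintro ⟨⟨hs, -⟩, rfl⟩
      exact ⟨hs, gr_iff hs⟩
    · rintro ⟨hs, hiff⟩
      have h2 : gr π = A := by
        apply Subtype.ext
        funext i j
        rw [Bool.eq_iff_iff]
        exact (gr_iff hs i j).symm.trans (hiff i j)
      refine ⟨⟨hs, ?_⟩, h2⟩
      have h1 : Arc π = A.arc := by
        funext i j
        exact propext (hiff i j)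
      rw [h1]
      exact hQ
  rw [Finset.sum_congr rfl hfib, Finset.sum_const, smul_eq_mul, mul_comm]

end Pool.Agent.NH71.DC
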