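import Pool.Agent.NH71.DC.Stm

/-!
# Project DC, part C4: both explorations
-/

set_option autoImplicit false

open Finset

namespace Pool.Agent.NH71.DC

namespace Two

theorem card_own {n : ℕ} (b : Fin n → ℕ) (v : Fin n)
    [DecidablePred fun x : (Σ i : Fin n, Fin (b i)) => x.1 = v] :
    (univ.filter fun x : (Σ i : Fin n, Fin (b i)) => x.1 = v).card = b v := by
  have h : (univ.filter fun x : (Σ i : Fin n, Fin (b i)) => x.1 = v) =
      (univ : Finset (Fin (b v))).map ⟨Sigma.mk v, sigma_mk_injective⟩ := by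
    ext ⟨i, j⟩
    simp only [mem_filter, mem_univ, true_and, mem_map, Function.Embedding.coeFn_mk]
    constructor
    · intro h
      subst h
      exact ⟨j, rfl⟩
    · rintro ⟨j', h⟩
      exact (congrArg Sigma.fst h).symm
  rw [h, card_map, card_univ, Fintype.card_fin]

theorem sum_own {n : ℕ} (a : Fin n → ℕ) (g : Fin n → ℝ) :
    ∑ y : (Σ i : Fin n, Fin (a i)), g y.1 = ∑ v, (a v : ℝ) * g v := by
  rw [Fintype.sum_sigma]
  refine Finset.sum_congr rfl fun v _ => ?_
  simp

theorem card_sig {n : ℕ} (a : Fin n → ℕ) :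
    Fintype.card (Σ i : Fin n, Fin (a i)) = ∑ v, a v := by
  rw [Fintype.card_sigma]
  simp

section
open Classical

/-- the exploration with rates -/
theorem one (h3 : S_RUN3) {n : ℕ} (a b : Fin n → ℕ) (k T : ℕ) (B D : ℝ) (hT : 1 ≤ T)
    (hab : ∑ v, a v = ∑ v, b v) (hD : 0 < D)
    (F : Finset (Σ i : Fin n, Fin (b i))) (m : (Σ i : Fin n, Fin (b i)) → (Σ i : Fin n, Fin (a i)))
    (hF : (F.card : ℝ) ≤ T) (hDL : D ≤ ((∑ v, b v : ℕ) : ℝ) - 2 * T) (hm : Set.InjOn m F)
    (hr : Rates a b D k T B) (u : Fin n) :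
    ((univ.filter fun π : (Σ i : Fin n, Fin (b i)) ≃ (Σ i : Fin n, Fin (a i)) =>
      (∀ x ∈ F, π x = m x) ∧ (expl (fun x => x.1) (fun y => y.1) π k T u F).1 = false).card : ℝ) ≤
    ((b u : ℝ) * B) * (univ.filter fun π : (Σ i : Fin n, Fin (b i)) ≃ (Σ i : Fin n, Fin (a i)) =>
      ∀ x ∈ F, π x = m x).card := by
  obtain ⟨p, G, hp0, hp, hG, h1, h2, hB⟩ := hr
  have hB0 : 0 ≤ B := le_trans (add_nonneg (hp k).1 (div_nonneg (hG k) (Nat.cast_nonneg _))) hB
  have h4 := h3 (Σ i : Fin n, Fin (b i)) (Σ i : Fin n, Fin (a i)) (Fin n) (fun x => x.1)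
    (fun y => y.1) p G T D F m hT hD (by rw [card_sig]; linarith)
    (by rw [card_sig, card_sig, hab]) hm hp0 hp hG
    (fun r => by
      refine le_trans (le_of_eq ?_) (h1 r)
      rw [← sum_own a (fun v => 1 - (1 - p r) ^ (b v))]
      refine Finset.sum_congr rfl fun y _ => ?_
      rw [card_own])
    (fun r => by
      refine le_trans (le_of_eq ?_) (h2 r)
      rw [← sum_own a (fun v => (b v : ℝ))]
      congr 2
      refine Finset.sum_congr rfl fun y _ => ?_
      rw [card_own]) u k
  refine le_trans (le_of_eq ?_) (h4.trans ?_)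
  · refine congrArg (fun s : Finset _ => (s.card : ℝ)) (Finset.ext fun π => ?_)
    simp only [mem_filter, mem_univ, true_and]
  · rw [card_own]
    refine mul_le_mul (mul_le_mul_of_nonneg_left hB (Nat.cast_nonneg _)) (le_of_eq ?_)
      (Nat.cast_nonneg _) (mul_nonneg (Nat.cast_nonneg _) hB0)
    refine congrArg (fun s : Finset _ => (s.card : ℝ)) (Finset.ext fun π => ?_)
    simp only [mem_filter, mem_univ, true_and]

end

end Two

open Two in
/-- **C4** -/
theorem s_two : S_TWO := by
  intro h2 h3 n d k T B B' D hT hbal hD hDL hr hr' u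
  classical
  have hbal' : ∑ v, (d v).1 = ∑ v, (d v).2 := hbal
  have hcI : ((∑ v, (d v).1 : ℕ) : ℝ) = ∑ i, ((d i).1 : ℝ) := by push_cast; rfl
  have hcO : ((∑ v, (d v).2 : ℕ) : ℝ) = ∑ i, ((d i).1 : ℝ) := by rw [← hbal', hcI]
  have hTr : (0:ℝ) ≤ T := Nat.cast_nonneg _
  have hr0 := hr
  have hr0' := hr'
  obtain ⟨p, G, hp0, hp, hG, -, -, hB⟩ := hr0
  obtain ⟨p', G', hp0', hp', hG', -, -, hB'⟩ := hr0'
  have hB0 : 0 ≤ B := le_trans (add_nonneg (hp k).1 (div_nonneg (hG k) hTr)) hB
  have hB0' : 0 ≤ B' := le_trans (add_nonneg (hp' k).1 (div_nonneg (hG' k) hTr)) hB'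
  -- the first exploration
  set A : Finset (Cf d) := Finset.univ.filter fun π : Cf d => (oE k T π u).1 = false with hA
  have hAc : (A.card : ℝ) ≤ ((d u).2 * B) * Fintype.card (Cf d) := by
    by_cases hne : Nonempty (Cf d)
    · obtain ⟨π0⟩ := hne
      have h4 := one h3 (fun i => (d i).1) (fun i => (d i).2) k T B D hT hbal' hD ∅ (fun x => π0 x)
        (by simp) (by rw [hcO]; exact hDL) (by simp) hr u
      have h5 : (Finset.univ.filter fun π : Cf d => (∀ x ∈ (∅ : Finset (HO d)), π x = π0 x) ∧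
          (expl (fun x : HO d => x.1) (fun y : HI d => y.1) π k T u ∅).1 = false) = A := by
        rw [hA]
        refine Finset.filter_congr fun π _ => ?_
        constructor
        · exact fun h => h.2
        · exact fun h => ⟨fun x hx => absurd hx (Finset.notMem_empty _), h⟩
      have h6 : (Finset.univ.filter fun π : Cf d => (∀ x ∈ (∅ : Finset (HO d)), π x = π0 x)) =
          Finset.univ := by
        refine Finset.filter_true_of_mem fun π _ x hx => absurd hx (Finset.notMem_empty _)
      rw [h5, h6] at h4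
      exact h4
    · have h5 : A.card = 0 := by
        rw [Finset.card_eq_zero, Finset.eq_empty_iff_forall_notMem]
        exact fun π _ => hne ⟨π⟩
      rw [h5, Nat.cast_zero]
      positivity
  -- classes
  let P : Cf d → Finset (HO d × HI d) := fun π => (oE k T π u).2.image fun x => (x, π x)
  have hPagree : ∀ π π0 : Cf d, P π = P π0 → ∀ x ∈ (oE k T π0 u).2, π x = π0 x := by
    intro π π0 h x hx
    have h4 : (x, π0 x) ∈ P π := by
      rw [h]
      exact Finset.mem_image_of_mem _ hx
    obtain ⟨x', -, h5⟩ := Finset.mem_image.1 h4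
    have h6 : x' = x := congrArg Prod.fst h5
    have h7 : π x' = π0 x := congrArg Prod.snd h5
    rw [← h7, h6]
  have hagreeP : ∀ π π0 : Cf d, (∀ x ∈ (oE k T π0 u).2, π x = π0 x) →
      oE k T π u = oE k T π0 u ∧ P π = P π0 := by
    intro π π0 h
    have h4 : oE k T π u = oE k T π0 u :=
      (h2 (HO d) (HI d) (Fin n) (fun x => x.1) (fun y => y.1) π0 k T u ∅).2.2 π h
    refine ⟨h4, ?_⟩
    show (oE k T π u).2.image (fun x => (x, π x)) = (oE k T π0 u).2.image fun x => (x, π0 x)
    rw [h4]
    exact Finset.image_congr fun x hx => by rw [h x hx]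
  set E : Finset (Cf d) := Finset.univ.filter fun π : Cf d => (oE k T π u).1 = false ∧
    (iE k T π u).1 = false with hE
  have hEA : E ⊆ A := fun π hπ => Finset.mem_filter.2 ⟨Finset.mem_univ _, (Finset.mem_filter.1 hπ).2.1⟩
  have hEc : (E.card : ℝ) ≤ ((d u).1 * B') * A.card := by
    rw [Finset.card_eq_sum_card_fiberwise (f := P) (s := E) (t := A.image P)
      (fun π hπ => Finset.mem_coe.2 (Finset.mem_image_of_mem _ (hEA hπ))),
      Finset.card_eq_sum_card_fiberwise (f := P) (s := A) (t := A.image P)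
      (fun π hπ => Finset.mem_coe.2 (Finset.mem_image_of_mem _ hπ))]
    push_cast
    rw [Finset.mul_sum]
    refine Finset.sum_le_sum fun Q hQ => ?_
    obtain ⟨π0, hπ0, rfl⟩ := Finset.mem_image.1 hQ
    have hπ0A : (oE k T π0 u).1 = false := (Finset.mem_filter.1 hπ0).2
    set R0 := (oE k T π0 u).2 with hR0
    set F0 : Finset (HI d) := R0.map π0.toEmbedding with hF0
    have hF0c : (F0.card : ℝ) ≤ T := by
      rw [hF0, Finset.card_map]
      exact_mod_cast (h2 (HO d) (HI d) (Fin n) (fun x => x.1) (fun y => y.1) π0 k T u ∅).1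
    have h4 := one h3 (fun i => (d i).2) (fun i => (d i).1) k T B' D hT hbal'.symm hD F0
      (fun y => π0.symm y) hF0c (by rw [hcI]; exact hDL) (fun y _ y' _ h => π0.symm.injective h)
      hr' u
    have hmapF : ∀ π : Cf d, (∀ x ∈ R0, π x = π0 x) → R0.map π.toEmbedding = F0 := by
      intro π h
      rw [hF0]
      ext y
      simp only [Finset.mem_map, Equiv.coe_toEmbedding]
      constructor
      · rintro ⟨x, hx, rfl⟩
        exact ⟨x, hx, (h x hx).symm⟩
      · rintro ⟨x, hx, rfl⟩
        exact ⟨x, hx, h x hx⟩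
    have h5 : (E.filter fun π => P π = P π0).card ≤
        (Finset.univ.filter fun σ : HI d ≃ HO d => (∀ y ∈ F0, σ y = π0.symm y) ∧
          (expl (fun y : HI d => y.1) (fun x : HO d => x.1) σ k T u F0).1 = false).card := by
      refine Finset.card_le_card_of_injOn (fun π => π.symm) ?_ ?_
      · intro π hπ
        have h6 := Finset.mem_filter.1 hπ
        have h7 := (Finset.mem_filter.1 h6.1).2
        have h8 := hPagree π π0 h6.2
        obtain ⟨h9, -⟩ := hagreeP π π0 h8
        refine Finset.mem_coe.2 (Finset.mem_filter.2 ⟨Finset.mem_univ _, ?_, ?_⟩)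
        · intro y hy
          obtain ⟨x, hx, rfl⟩ := Finset.mem_map.1 hy
          show π.symm (π0 x) = π0.symm (π0 x)
          rw [Equiv.symm_apply_apply, ← h8 x hx, Equiv.symm_apply_apply]
        · have h10 := h7.2
          unfold iE at h10
          rw [h9, ← hR0, hmapF π h8] at h10
          exact h10
      · intro π _ π' _ h
        have h6 : π.symm = π'.symm := h
        have h7 := congrArg Equiv.symm h6
        simpa using h7
    have h6 : (Finset.univ.filter fun σ : HI d ≃ HO d => ∀ y ∈ F0, σ y = π0.symm y).card ≤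
        (A.filter fun π => P π = P π0).card := by
      refine Finset.card_le_card_of_injOn (fun σ => σ.symm) ?_ ?_
      · intro σ hσ
        have h7 := (Finset.mem_filter.1 hσ).2
        have h8 : ∀ x ∈ R0, σ.symm x = π0 x := by
          intro x hx
          have h9 := h7 (π0 x) (Finset.mem_map_of_mem _ hx)
          rw [Equiv.symm_apply_apply] at h9
          rw [Equiv.symm_apply_eq, h9]
        obtain ⟨h9, h10⟩ := hagreeP σ.symm π0 h8
        refine Finset.mem_coe.2 (Finset.mem_filter.2 ⟨Finset.mem_filter.2 ⟨Finset.mem_univ _, ?_⟩, h10⟩)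
        rw [h9]
        exact hπ0A
      · intro σ _ σ' _ h
        have h6 : σ.symm = σ'.symm := h
        have h7 := congrArg Equiv.symm h6
        simpa using h7
    have h5' : ((E.filter fun π => P π = P π0).card : ℝ) ≤ _ := (Nat.cast_le.2 h5).trans h4
    refine h5'.trans ?_
    refine mul_le_mul_of_nonneg_left (Nat.cast_le.2 h6) (mul_nonneg (Nat.cast_nonneg _) hB0')
  calc (E.card : ℝ) ≤ ((d u).1 * B') * A.card := hEc
    _ ≤ ((d u).1 * B') * (((d u).2 * B) * Fintype.card (Cf d)) :=
        mul_le_mul_of_nonneg_left hAc (mul_nonneg (Nat.cast_nonneg _) hB0')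
    _ = ((d u).2 * B) * ((d u).1 * B') * Fintype.card (Cf d) := by ring

end Pool.Agent.NH71.DC
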