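import Pool.Agent.NH71.DC.Lop
import Pool.Agent.NH71.DC.Two

/-!
# Project DC, part D1: expected number of vertices on short cycles
-/

set_option autoImplicit false

open Finset

namespace Pool.Agent.NH71.DC

namespace CycP

section
open Classical

theorem pow_sum {α : Type} [Fintype α] (f : α → ℝ) (l : ℕ) :
    ∑ x : Fin l → α, ∏ i, f (x i) = (∑ a, f a) ^ l := by
  have h := Finset.prod_univ_sum (fun _ : Fin l => (Finset.univ : Finset α)) (fun _ a => f a)
  rw [Finset.prod_const, Finset.card_univ, Fintype.card_fin] at h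
  rw [h, Fintype.piFinset_univ]

/-- the number of bijections with `l` prescribed values -/
theorem card_presc {X Y : Type} [Fintype X] [Fintype Y] (hXY : Fintype.card X = Fintype.card Y)
    {l : ℕ} (x : Fin l → X) (y : Fin l → Y) (hx : Function.Injective x) :
    ((univ.filter fun π : X ≃ Y => ∀ i, π (x i) = y i).card : ℝ) ≤
      (Fintype.card X - l).factorial := by
  by_cases hy : Function.Injective y
  · have hM : PM (univ.image fun i => (x i, y i)) := by
      intro a ha b hb
      obtain ⟨i, -, rfl⟩ := mem_image.1 ha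
      obtain ⟨j, -, rfl⟩ := mem_image.1 hb
      simp only
      rw [hx.eq_iff, hy.eq_iff]
    have hcM : (univ.image fun i => (x i, y i)).card = l := by
      rw [card_image_of_injective, card_univ, Fintype.card_fin]
      intro i j h
      exact hx (congrArg Prod.fst h)
    have h := s_lop X Y (univ.image fun i => (x i, y i)) ∅ hXY hM (by simp)
    rw [hcM] at h
    have h1 : (univ.filter fun π : X ≃ Y => ∀ N ∈ (∅ : Finset (Finset (X × Y))), ¬ Ev N π) =
        univ := filter_true_of_mem fun π _ N hN => absurd hN (notMem_empty _)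
    have h2 : (univ.filter fun π : X ≃ Y => Ev (univ.image fun i => (x i, y i)) π ∧
        ∀ N ∈ (∅ : Finset (Finset (X × Y))), ¬ Ev N π) =
        univ.filter fun π : X ≃ Y => ∀ i, π (x i) = y i := by
      ext π
      simp only [mem_filter, mem_univ, true_and]
      constructor
      · intro h i
        exact h.1 (x i, y i) (mem_image_of_mem _ (mem_univ i))
      · intro h
        refine ⟨?_, fun N hN => absurd hN (notMem_empty _)⟩
        intro a ha
        obtain ⟨i, -, rfl⟩ := mem_image.1 ha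
        exact h i
    rw [h1, h2, card_univ, Fintype.card_equiv (Fintype.equivOfCardEq hXY)] at h
    have h3 : (0:ℝ) < (Fintype.card X).factorial := by exact_mod_cast Nat.factorial_pos _
    exact le_of_mul_le_mul_right h h3
  · have h1 : (univ.filter fun π : X ≃ Y => ∀ i, π (x i) = y i) = ∅ := by
      rw [filter_eq_empty_iff]
      intro π _ h
      refine hy fun i j hij => ?_
      rw [← h i, ← h j] at hij
      exact hx (π.injective hij)
    rw [h1, card_empty, Nat.cast_zero]
    positivity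

/-- cycles of length `l + 1` through given half-edges -/
theorem card_cyc {n : ℕ} {d : DS n} (hb : Bal d) {l : ℕ} (x : Fin (l + 1) → HO d)
    (hx : Function.Injective x) :
    ((univ.filter fun π : Cf d => ∀ i, (π (x i)).1 = (x (i + 1)).1).card : ℝ) ≤
      (∏ i, ((d (x i).1).1 : ℝ)) * (Fintype.card (HO d) - (l + 1)).factorial := by
  have hXY : Fintype.card (HO d) = Fintype.card (HI d) := by
    rw [Two.card_sig, Two.card_sig]
    exact hb.symm
  set S : Finset (Fin (l + 1) → HI d) :=
    Fintype.piFinset fun i => univ.filter fun y : HI d => y.1 = (x (i + 1)).1 with hS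
  have h1 : (univ.filter fun π : Cf d => ∀ i, (π (x i)).1 = (x (i + 1)).1) ⊆
      S.biUnion fun y => univ.filter fun π : Cf d => ∀ i, π (x i) = y i := by
    intro π hπ
    refine mem_biUnion.2 ⟨fun i => π (x i), ?_, mem_filter.2 ⟨mem_univ _, fun i => rfl⟩⟩
    rw [hS, Fintype.mem_piFinset]
    exact fun i => mem_filter.2 ⟨mem_univ _, (mem_filter.1 hπ).2 i⟩
  have h2 := (card_le_card h1).trans card_biUnion_le
  have h3 : ((univ.filter fun π : Cf d => ∀ i, (π (x i)).1 = (x (i + 1)).1).card : ℝ) ≤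
      ∑ y ∈ S, ((univ.filter fun π : Cf d => ∀ i, π (x i) = y i).card : ℝ) := by
    exact_mod_cast h2
  refine h3.trans ?_
  have h4 : ∀ y ∈ S, ((univ.filter fun π : Cf d => ∀ i, π (x i) = y i).card : ℝ) ≤
      ((Fintype.card (HO d) - (l + 1)).factorial : ℝ) := by
    intro y _
    refine le_trans (le_of_eq ?_) (card_presc hXY x y hx)
    refine congrArg (fun s : Finset _ => (s.card : ℝ)) (Finset.ext fun π => ?_)
    simp only [mem_filter, mem_univ, true_and]
  refine (sum_le_sum h4).trans (le_of_eq ?_)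
  rw [sum_const, nsmul_eq_mul]
  congr 1
  rw [hS, Fintype.card_piFinset]
  push_cast
  have h5 : ∀ i, ((univ.filter fun y : HI d => y.1 = (x (i + 1)).1).card : ℝ) =
      ((d (x (i + 1)).1).1 : ℝ) := by
    intro i
    rw [Two.card_own]
  rw [prod_congr rfl fun i _ => h5 i]
  exact Equiv.prod_comp (Equiv.addRight (1 : Fin (l + 1))) fun i => ((d (x i).1).1 : ℝ)

/-- the expected number of vertices on cycles of length `l + 1` -/
theorem sum_cyc {n : ℕ} {d : DS n} (hb : Bal d) (l : ℕ) :
    ∑ u, ((univ.filter fun π : Cf d => ∃ x : Fin (l + 1) → HO d, Function.Injective x ∧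
      (x 0).1 = u ∧ ∀ i, (π (x i)).1 = (x (i + 1)).1).card : ℝ) ≤
      (∑ v, ((d v).1 : ℝ) * (d v).2) ^ (l + 1) * (Fintype.card (HO d) - (l + 1)).factorial := by
  set c : (Fin (l + 1) → HO d) → ℝ := fun x =>
    (∏ i, ((d (x i).1).1 : ℝ)) * (Fintype.card (HO d) - (l + 1)).factorial with hc
  have hc0 : ∀ x, 0 ≤ c x := fun x => mul_nonneg (prod_nonneg fun i _ => Nat.cast_nonneg _)
    (Nat.cast_nonneg _)
  have h1 : ∀ u, ((univ.filter fun π : Cf d => ∃ x : Fin (l + 1) → HO d, Function.Injective x ∧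
      (x 0).1 = u ∧ ∀ i, (π (x i)).1 = (x (i + 1)).1).card : ℝ) ≤
      ∑ x ∈ univ.filter (fun x : Fin (l + 1) → HO d => (x 0).1 = u), c x := by
    intro u
    have h2 : (univ.filter fun π : Cf d => ∃ x : Fin (l + 1) → HO d, Function.Injective x ∧
        (x 0).1 = u ∧ ∀ i, (π (x i)).1 = (x (i + 1)).1) ⊆
        (univ.filter (fun x : Fin (l + 1) → HO d => (x 0).1 = u)).biUnion fun x =>
          if Function.Injective x then
            univ.filter (fun π : Cf d => ∀ i, (π (x i)).1 = (x (i + 1)).1) else ∅ := by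
      intro π hπ
      obtain ⟨x, h3, h4, h5⟩ := (mem_filter.1 hπ).2
      refine mem_biUnion.2 ⟨x, mem_filter.2 ⟨mem_univ _, h4⟩, ?_⟩
      rw [if_pos h3]
      exact mem_filter.2 ⟨mem_univ _, h5⟩
    have h3 := (card_le_card h2).trans card_biUnion_le
    have h4 : ((univ.filter fun π : Cf d => ∃ x : Fin (l + 1) → HO d, Function.Injective x ∧
        (x 0).1 = u ∧ ∀ i, (π (x i)).1 = (x (i + 1)).1).card : ℝ) ≤
        ∑ x ∈ univ.filter (fun x : Fin (l + 1) → HO d => (x 0).1 = u),
          (((if Function.Injective x then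
            univ.filter (fun π : Cf d => ∀ i, (π (x i)).1 = (x (i + 1)).1) else ∅ :
            Finset (Cf d))).card : ℝ) := by
      exact_mod_cast h3
    refine h4.trans (sum_le_sum fun x _ => ?_)
    by_cases h5 : Function.Injective x
    · rw [if_pos h5]
      exact card_cyc hb x h5
    · rw [if_neg h5, card_empty, Nat.cast_zero]
      exact hc0 x
  refine (sum_le_sum fun u _ => h1 u).trans (le_of_eq ?_)
  have h2 : ∑ u, ∑ x ∈ univ.filter (fun x : Fin (l + 1) → HO d => (x 0).1 = u), c x = ∑ x, c x :=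
    Finset.sum_fiberwise univ (fun x : Fin (l + 1) → HO d => (x 0).1) c
  rw [h2, hc, ← sum_mul]
  congr 1
  rw [pow_sum (fun h : HO d => ((d h.1).1 : ℝ)) (l + 1),
    Two.sum_own (fun i => (d i).2) (fun v => ((d v).1 : ℝ))]
  congr 1
  exact sum_congr rfl fun v _ => mul_comm _ _

/-- the real inequality -/
theorem real_bd {L l : ℕ} {S A c n : ℝ} (hn : 0 < n) (hc : 0 < c) (hA : 0 < A) (hS0 : 0 ≤ S)
    (hS : S ≤ L + A * Real.sqrt n) (hL : c * n ≤ L) (hl : (l : ℝ) ≤ 3 * Real.sqrt n)
    (hl2 : (l : ℝ) ≤ c * n / 2) :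
    S ^ l * (L - l).factorial ≤ Real.exp ((6 * A + 18) / c) * L.factorial := by
  have hLl : l ≤ L := by
    have h1 : (l : ℝ) ≤ L := by
      have : 0 < c * n := mul_pos hc hn
      linarith
    exact_mod_cast h1
  set D : ℝ := (L : ℝ) + 1 - l with hD
  have hcn : 0 < c * n := mul_pos hc hn
  have hD1 : c * n / 2 ≤ D := by rw [hD]; linarith
  have hD0 : 0 < D := by linarith
  have hdf : D ^ l * (L - l).factorial ≤ L.factorial := by
    have h1 := Nat.pow_sub_le_descFactorial L l
    have h2 := Nat.factorial_mul_descFactorial hLl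
    have h3 : (L + 1 - l) ^ l * (L - l).factorial ≤ L.factorial := by
      rw [← h2, mul_comm]
      exact Nat.mul_le_mul_left _ h1
    have h4 : ((L + 1 - l : ℕ) : ℝ) = D := by
      rw [hD, Nat.cast_sub (by omega)]
      push_cast
      ring
    rw [← h4]
    exact_mod_cast h3
  have hs : 0 ≤ Real.sqrt n := Real.sqrt_nonneg _
  have hss : Real.sqrt n * Real.sqrt n = n := Real.mul_self_sqrt hn.le
  have hSD : S ≤ D * Real.exp ((A * Real.sqrt n + l) / D) := by
    have h1 := Real.add_one_le_exp ((A * Real.sqrt n + l) / D)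
    have h2 : D * ((A * Real.sqrt n + l) / D + 1) = A * Real.sqrt n + l + D := by
      field_simp
    have h3 := mul_le_mul_of_nonneg_left h1 hD0.le
    rw [h2] at h3
    have h4 : S ≤ A * Real.sqrt n + l + D := by rw [hD]; linarith
    linarith
  have hpow : S ^ l ≤ D ^ l * Real.exp ((6 * A + 18) / c) := by
    have h1 : S ^ l ≤ (D * Real.exp ((A * Real.sqrt n + l) / D)) ^ l := pow_le_pow_left₀ hS0 hSD l
    have h2 : (D * Real.exp ((A * Real.sqrt n + l) / D)) ^ l =
        D ^ l * Real.exp (l * ((A * Real.sqrt n + l) / D)) := by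
      rw [mul_pow, ← Real.exp_nat_mul]
    rw [h2] at h1
    refine h1.trans (mul_le_mul_of_nonneg_left (Real.exp_le_exp.2 ?_) (by positivity))
    have hl0 : (0:ℝ) ≤ l := Nat.cast_nonneg _
    have h3 : (l : ℝ) * (A * Real.sqrt n + l) ≤ (3 * A + 9) * n := by
      have h4 : (l : ℝ) * (A * Real.sqrt n + l) ≤ (3 * Real.sqrt n) * (A * Real.sqrt n +
          3 * Real.sqrt n) :=
        mul_le_mul hl (by linarith) (by positivity) (by positivity)
      calc _ ≤ _ := h4
        _ = (3 * A + 9) * (Real.sqrt n * Real.sqrt n) := by ring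
        _ = (3 * A + 9) * n := by rw [hss]
    rw [← mul_div_assoc, div_le_div_iff₀ hD0 hc]
    have h5 : (3 * A + 9) * n * c ≤ (6 * A + 18) * D := by
      have h6 : (6 * A + 18) * (c * n / 2) ≤ (6 * A + 18) * D :=
        mul_le_mul_of_nonneg_left hD1 (by positivity)
      have h7 : (6 * A + 18) * (c * n / 2) = (3 * A + 9) * n * c := by ring
      linarith
    have h8 := mul_le_mul_of_nonneg_right h3 hc.le
    linarith
  have hf0 : (0:ℝ) ≤ ((L - l).factorial : ℝ) := Nat.cast_nonneg _
  calc S ^ l * (L - l).factorial ≤ D ^ l * Real.exp ((6 * A + 18) / c) * (L - l).factorial :=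
        mul_le_mul_of_nonneg_right hpow hf0
    _ = Real.exp ((6 * A + 18) / c) * (D ^ l * (L - l).factorial) := by ring
    _ ≤ Real.exp ((6 * A + 18) / c) * L.factorial :=
        mul_le_mul_of_nonneg_left hdf (Real.exp_pos _).le

end

end CycP

open CycP in
/-- **D1** -/
theorem s_cyc : S_CYC := by
  intro A c hA hc
  classical
  set C0 : ℝ := Real.exp ((6 * A + 18) / c) with hC0
  have hC0p : 0 < C0 := Real.exp_pos _
  refine ⟨3 * C0, by positivity, ⌈(6 / c) ^ 2⌉₊ + 1, ?_⟩
  intro n hn k hk1 hk2 d hd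
  have hn1 : 1 ≤ n := by omega
  have hn0 : (0:ℝ) < n := by exact_mod_cast hn1
  have hnc : (6 / c) ^ 2 ≤ n := by
    have h1 := Nat.le_ceil ((6 / c) ^ 2)
    have h2 : ((⌈(6 / c) ^ 2⌉₊ : ℕ) : ℝ) ≤ n := by exact_mod_cast (by omega : ⌈(6 / c) ^ 2⌉₊ ≤ n)
    linarith
  have hk : 1 ≤ k := by
    rcases Nat.eq_zero_or_pos k with h | h
    · subst h
      simp at hk2
      omega
    · exact h
  have hk1' : (1:ℝ) ≤ k := by exact_mod_cast hk
  have hs0 : 0 ≤ Real.sqrt n := Real.sqrt_nonneg _
  have hss : Real.sqrt n * Real.sqrt n = n := Real.mul_self_sqrt hn0.le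
  have hks : (k : ℝ) ≤ Real.sqrt n := by
    refine Real.le_sqrt_of_sq_le ?_
    have h1 : k ^ 2 ≤ n := (Nat.pow_le_pow_right hk (by norm_num)).trans hk1
    exact_mod_cast h1
  have hsc : 6 / c ≤ Real.sqrt n := by
    refine Real.le_sqrt_of_sq_le hnc
  have hXY : Fintype.card (HO d) = Fintype.card (HI d) := by
    rw [Two.card_sig, Two.card_sig]
    exact hd.bal.symm
  have hL : c * n ≤ Fintype.card (HO d) := by
    rw [hXY, Two.card_sig]
    push_cast
    exact hd.low
  have hcf : (Fintype.card (Cf d) : ℝ) = (Fintype.card (HO d)).factorial := by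
    rw [Fintype.card_equiv (Fintype.equivOfCardEq hXY)]
  have hS : ∑ v, ((d v).1 : ℝ) * (d v).2 ≤ (Fintype.card (HO d) : ℝ) + A * Real.sqrt n := by
    rw [hXY, Two.card_sig]
    push_cast
    exact hd.crit
  have hS0 : 0 ≤ ∑ v, ((d v).1 : ℝ) * (d v).2 := Finset.sum_nonneg fun v _ => by positivity
  -- each length
  have hlen : ∀ l ∈ Finset.range (2 * k + 1), ∑ u, ((Finset.univ.filter fun π : Cf d =>
      ∃ x : Fin (l + 1) → HO d, Function.Injective x ∧ (x 0).1 = u ∧
        ∀ i, (π (x i)).1 = (x (i + 1)).1).card : ℝ) ≤ C0 * Fintype.card (Cf d) := by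
    intro l hl
    refine (sum_cyc hd.bal l).trans ?_
    rw [hcf]
    have hl1 : ((l + 1 : ℕ) : ℝ) ≤ 3 * Real.sqrt n := by
      have h1 : l + 1 ≤ 2 * k + 1 := by
        have := Finset.mem_range.1 hl
        omega
      have h2 : ((l + 1 : ℕ) : ℝ) ≤ 2 * k + 1 := by exact_mod_cast h1
      linarith
    refine real_bd hn0 hc hA hS0 hS hL hl1 ?_
    have h3 : 3 * Real.sqrt n ≤ c * n / 2 := by
      have h4 : 6 ≤ c * Real.sqrt n := by
        rw [div_le_iff₀ hc] at hsc
        linarith
      have h5 := mul_le_mul_of_nonneg_right h4 hs0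
      have h6 : c * Real.sqrt n * Real.sqrt n = c * n := by rw [mul_assoc, hss]
      linarith
    linarith
  have hsub : ∀ u, ((Finset.univ.filter fun π : Cf d => Cyc π u (2 * k + 1)).card : ℝ) ≤
      ∑ l ∈ Finset.range (2 * k + 1), ((Finset.univ.filter fun π : Cf d =>
      ∃ x : Fin (l + 1) → HO d, Function.Injective x ∧ (x 0).1 = u ∧
        ∀ i, (π (x i)).1 = (x (i + 1)).1).card : ℝ) := by
    intro u
    have h1 : (Finset.univ.filter fun π : Cf d => Cyc π u (2 * k + 1)) ⊆
        (Finset.range (2 * k + 1)).biUnion fun l => Finset.univ.filter fun π : Cf d =>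
      ∃ x : Fin (l + 1) → HO d, Function.Injective x ∧ (x 0).1 = u ∧
        ∀ i, (π (x i)).1 = (x (i + 1)).1 := by
      intro π hπ
      obtain ⟨l, hl1, hl2, x, hx1, hx2, hx3⟩ := (Finset.mem_filter.1 hπ).2
      obtain ⟨l, rfl⟩ : ∃ l', l = l' + 1 := ⟨l - 1, by omega⟩
      refine Finset.mem_biUnion.2 ⟨l, Finset.mem_range.2 (by omega),
        Finset.mem_filter.2 ⟨Finset.mem_univ _, fun i => x i.val, ?_, ?_, ?_⟩⟩
      · intro i j h
        exact Fin.ext (hx1 (Set.mem_Iio.2 i.2) (Set.mem_Iio.2 j.2) h)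
      · exact hx2
      · intro i
        have h4 := hx3 i.val i.2
        have h5 : (i + 1 : Fin (l + 1)).val = (i.val + 1) % (l + 1) := by
          rw [Fin.val_add, Fin.val_one', Nat.add_mod_mod]
        show (π (x i.val)).1 = (x (i + 1 : Fin (l + 1)).val).1
        rw [h5]
        exact h4
    exact_mod_cast (Finset.card_le_card h1).trans Finset.card_biUnion_le
  calc ∑ u, ((Finset.univ.filter fun π : Cf d => Cyc π u (2 * k + 1)).card : ℝ)
      ≤ ∑ u, ∑ l ∈ Finset.range (2 * k + 1), ((Finset.univ.filter fun π : Cf d =>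
      ∃ x : Fin (l + 1) → HO d, Function.Injective x ∧ (x 0).1 = u ∧
        ∀ i, (π (x i)).1 = (x (i + 1)).1).card : ℝ) := Finset.sum_le_sum fun u _ => hsub u
    _ = ∑ l ∈ Finset.range (2 * k + 1), ∑ u, ((Finset.univ.filter fun π : Cf d =>
      ∃ x : Fin (l + 1) → HO d, Function.Injective x ∧ (x 0).1 = u ∧
        ∀ i, (π (x i)).1 = (x (i + 1)).1).card : ℝ) := Finset.sum_comm
    _ ≤ ∑ _l ∈ Finset.range (2 * k + 1), C0 * Fintype.card (Cf d) := Finset.sum_le_sum hlen
    _ = (2 * k + 1) * (C0 * Fintype.card (Cf d)) := by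
        rw [Finset.sum_const, Finset.card_range, nsmul_eq_mul]
        push_cast
        ring
    _ ≤ (3 * k) * (C0 * Fintype.card (Cf d)) :=
        mul_le_mul_of_nonneg_right (by linarith) (by positivity)
    _ = 3 * C0 * k * Fintype.card (Cf d) := by ring

end Pool.Agent.NH71.DC
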