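import Pool.Agent.NH71.DC.NotT

/-!
# Project DC: an example of a nondegenerate law

Mass `1/5` at `(2, 2)`, mass `2/5` at `(1, 0)` and at `(0, 1)`.
-/

set_option autoImplicit false

open MeasureTheory ProbabilityTheory Filter Topology
open scoped ENNReal

namespace Pool.Agent.NH71.DC

/-- a nondegenerate law -/
theorem exn : ∃ ν : Measure (ℕ × ℕ), Hyp ν ∧ Nondeg ν := by
  classical
  set ν : Measure (ℕ × ℕ) := (5 : ℝ≥0∞)⁻¹ • (Measure.dirac ((2, 2) : ℕ × ℕ) +
    (Measure.dirac ((1, 0) : ℕ × ℕ) + Measure.dirac ((1, 0) : ℕ × ℕ)) +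
    (Measure.dirac ((0, 1) : ℕ × ℕ) + Measure.dirac ((0, 1) : ℕ × ℕ))) with hν
  have h3 : (5 : ℝ≥0∞)⁻¹ ≠ ⊤ := by simp
  have hd : ∀ (f : ℕ × ℕ → ℝ) (a : ℕ × ℕ), Integrable f (Measure.dirac a) :=
    fun f a => integrable_dirac (by simp)
  have hint : ∀ f : ℕ × ℕ → ℝ, Integrable f ν := by
    intro f
    exact (((hd f _).add_measure ((hd f _).add_measure (hd f _))).add_measure
      ((hd f _).add_measure (hd f _))).smul_measure h3
  have hI : ∀ f : ℕ × ℕ → ℝ, ∫ x, f x ∂ν = (f (2, 2) + 2 * f (1, 0) + 2 * f (0, 1)) / 5 := by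
    intro f
    rw [hν, integral_smul_measure,
      integral_add_measure ((hd f _).add_measure ((hd f _).add_measure (hd f _)))
        ((hd f _).add_measure (hd f _)),
      integral_add_measure (hd f _) ((hd f _).add_measure (hd f _)),
      integral_add_measure (hd f _) (hd f _), integral_add_measure (hd f _) (hd f _),
      integral_dirac, integral_dirac, integral_dirac]
    simp only [ENNReal.toReal_inv, ENNReal.toReal_ofNat, smul_eq_mul]
    ring
  have hS : ∀ S : Set (ℕ × ℕ), ν S = 0 → (2, 2) ∉ S ∧ (1, 0) ∉ S ∧ (0, 1) ∉ S := by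
    intro S h1
    rw [hν, Measure.smul_apply, smul_eq_mul, mul_eq_zero] at h1
    have h2 := h1.resolve_left (by simp)
    simp only [Measure.coe_add, Pi.add_apply, add_eq_zero] at h2
    obtain ⟨⟨ha, hb, -⟩, hc, -⟩ := h2
    have hm : MeasurableSet S := MeasurableSet.of_discrete
    rw [Measure.dirac_apply' _ hm] at ha hb hc
    refine ⟨?_, ?_, ?_⟩
    · intro h
      rw [Set.indicator_of_mem h] at ha
      simp at ha
    · intro h
      rw [Set.indicator_of_mem h] at hb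
      simp at hb
    · intro h
      rw [Set.indicator_of_mem h] at hc
      simp at hc
  have hae : ∀ p : ℕ × ℕ → Prop, (∀ᵐ x ∂ν, p x) → p (2, 2) ∧ p (1, 0) ∧ p (0, 1) := by
    intro p hp
    obtain ⟨h1, h2, h3⟩ := hS {x | ¬ p x} hp
    exact ⟨not_not.1 h1, not_not.1 h2, not_not.1 h3⟩
  refine ⟨ν, ⟨?_, fun i j _ => hint _, ?_, ?_, ?_⟩, ?_, ?_⟩
  · constructor
    rw [hν, Measure.smul_apply]
    simp only [Measure.coe_add, Pi.add_apply, measure_univ, smul_eq_mul]
    rw [show (1 : ℝ≥0∞) + (1 + 1) + (1 + 1) = 5 by norm_num]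
    exact ENNReal.inv_mul_cancel (by simp) (by simp)
  · rw [hI, hI]; norm_num
  · intro p hp c h
    obtain ⟨⟨k1, h1⟩, ⟨k2, h2⟩, -⟩ := hae _ h
    have h4 : (p : ℝ) * ((k2 - k1 : ℤ) : ℝ) = 1 := by
      push_cast
      norm_num at h1 h2
      linarith
    have h5 : (p : ℤ) * (k2 - k1) = 1 := by exact_mod_cast h4
    have h6 : (p : ℤ) ∣ 1 := ⟨_, h5.symm⟩
    have h7 : p ∣ 1 := by exact_mod_cast h6
    have := Nat.dvd_one.1 h7
    omega
  · rw [hI, hI]; norm_num
  · intro h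
    exact (hS _ h).1 (by simp)
  · intro h
    exact (hS _ h).1 (by simp)

end Pool.Agent.NH71.DC
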