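import Pool.Agent.NH71.DC.Base

/-!
# Project DC, part E1: first moment bound
-/

set_option autoImplicit false

open Finset

namespace Pool.Agent.NH71.DC

/-- **E1** -/
theorem s_first : S_FIRST := by
  rintro ⟨hR1, hR2, hR3, hTW, hNUM, hCYC, hCYW, hGEO, hSP⟩ A c hA hc
  classical
  obtain ⟨C1, hC1, N1, hN1⟩ := hNUM A c hA hc
  obtain ⟨C2, hC2, N2, hN2⟩ := hCYC A c hA hc
  refine ⟨8 * A * C1 ^ 2 + C2, by positivity, max (max N1 N2) 1, ?_⟩
  intro n hn k hk1 hk2 d hd m hm
  have hnN1 : N1 ≤ n := (le_max_left _ _).trans ((le_max_left _ _).trans hn)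
  have hnN2 : N2 ≤ n := (le_max_right _ _).trans ((le_max_left _ _).trans hn)
  have hn1 : 1 ≤ n := (le_max_right _ _).trans hn
  have hk : 1 ≤ k := by
    rcases Nat.eq_zero_or_pos k with h | h
    · subst h
      simp at hk2
      omega
    · exact h
  have hk0 : (0:ℝ) < k := by exact_mod_cast hk
  have hk1' : (1:ℝ) ≤ k := by exact_mod_cast hk
  obtain ⟨hD, hr, hr'⟩ := hN1 n hnN1 k hk1 hk2 d hd
  have hcyc := hN2 n hnN2 k hk1 hk2 d hd
  set M : ℝ := (Fintype.card (Cf d) : ℝ) with hM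
  have hM0 : 0 ≤ M := Nat.cast_nonneg _
  -- both explorations
  have htwo : ∀ u : Fin n, ((Finset.univ.filter fun π : Cf d => (oE k (k ^ 2) π u).1 = false ∧
      (iE k (k ^ 2) π u).1 = false).card : ℝ) ≤
      ((d u).2 * (C1 / k)) * ((d u).1 * (C1 / k)) * M := by
    intro u
    refine hTW hR2 hR3 n d k (k ^ 2) (C1 / k) (C1 / k) _ (Nat.one_le_pow _ _ hk) hd.bal hD ?_
      hr hr' u
    push_cast
    exact le_rfl
  have hsq : ∑ u, ((d u).2 : ℝ) * (d u).1 ≤ A * n := by
    refine le_trans (Finset.sum_le_sum fun u _ => ?_) hd.sq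
    nlinarith [sq_nonneg (((d u).1 : ℝ) - (d u).2), sq_nonneg ((d u).1 : ℝ), sq_nonneg ((d u).2 : ℝ)]
  have hnk : (n : ℝ) ≤ 8 * (k : ℝ) ^ 3 := by
    have h1 : (n : ℝ) ≤ ((k : ℝ) + 1) ^ 3 := by exact_mod_cast hk2.le
    have h2 : ((k : ℝ) + 1) ^ 3 ≤ (2 * (k : ℝ)) ^ 3 := pow_le_pow_left₀ (by positivity) (by linarith) 3
    calc (n : ℝ) ≤ ((k : ℝ) + 1) ^ 3 := h1
      _ ≤ (2 * (k : ℝ)) ^ 3 := h2
      _ = 8 * (k : ℝ) ^ 3 := by ring
  have hsum1 : ∑ u, ((Finset.univ.filter fun π : Cf d => (oE k (k ^ 2) π u).1 = false ∧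
      (iE k (k ^ 2) π u).1 = false).card : ℝ) ≤ 8 * A * C1 ^ 2 * k * M := by
    calc _ ≤ ∑ u, ((d u).2 * (C1 / k)) * ((d u).1 * (C1 / k)) * M :=
          Finset.sum_le_sum fun u _ => htwo u
      _ = (∑ u, ((d u).2 : ℝ) * (d u).1) * ((C1 / k) ^ 2 * M) := by
          rw [Finset.sum_mul]
          exact Finset.sum_congr rfl fun u _ => by ring
      _ ≤ (A * n) * ((C1 / k) ^ 2 * M) := mul_le_mul_of_nonneg_right hsq (by positivity)
      _ ≤ (A * (8 * (k : ℝ) ^ 3)) * ((C1 / k) ^ 2 * M) :=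
          mul_le_mul_of_nonneg_right (mul_le_mul_of_nonneg_left hnk hA.le) (by positivity)
      _ = 8 * A * C1 ^ 2 * k * M := by
          field_simp
  -- double counting
  have hdc : ∀ P : Cf d → Fin n → Prop, ∑ π, ((Finset.univ.filter fun u => P π u).card : ℝ) =
      ∑ u, ((Finset.univ.filter fun π => P π u).card : ℝ) := by
    intro P
    have h1 : ∀ π : Cf d, ((Finset.univ.filter fun u => P π u).card : ℝ) =
        ∑ u, (if P π u then (1:ℝ) else 0) := by
      intro π
      rw [Finset.card_filter]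
      push_cast
      rfl
    have h2 : ∀ u : Fin n, ((Finset.univ.filter fun π => P π u).card : ℝ) =
        ∑ π, (if P π u then (1:ℝ) else 0) := by
      intro u
      rw [Finset.card_filter]
      push_cast
      rfl
    rw [Finset.sum_congr rfl fun π _ => h1 π, Finset.sum_congr rfl fun u _ => h2 u]
    exact Finset.sum_comm
  obtain ⟨P, hP⟩ : ∃ P : Cf d → Fin n → Prop, ∀ π u, P π u ↔
      ((∃ v', DistEq (Arc π) (k + 1) v' u) ∧ ∃ w', DistEq (Arc π) (k + 1) u w') :=
    ⟨_, fun _ _ => Iff.rfl⟩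
  have hPle : ∀ u : Fin n, ((Finset.univ.filter fun π : Cf d => P π u).card : ℝ) ≤
      ((Finset.univ.filter fun π : Cf d => (oE k (k ^ 2) π u).1 = false ∧
      (iE k (k ^ 2) π u).1 = false).card : ℝ) +
      ((Finset.univ.filter fun π : Cf d => Cyc π u (2 * k + 1)).card : ℝ) := by
    intro u
    have h1 : (Finset.univ.filter fun π : Cf d => P π u) ⊆
        (Finset.univ.filter fun π : Cf d => (oE k (k ^ 2) π u).1 = false ∧
          (iE k (k ^ 2) π u).1 = false) ∪
        (Finset.univ.filter fun π : Cf d => Cyc π u (2 * k + 1)) := by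
      intro π hπ
      have h2 := (hP π u).1 (Finset.mem_filter.1 hπ).2
      rcases hSP hR1 hR2 hCYW n d π k (k ^ 2) u h2.1 h2.2 with h3 | h3
      · exact Finset.mem_union_left _ (Finset.mem_filter.2 ⟨Finset.mem_univ _, h3⟩)
      · exact Finset.mem_union_right _ (Finset.mem_filter.2 ⟨Finset.mem_univ _, h3⟩)
    have h2 := (Finset.card_le_card h1).trans (Finset.card_union_le _ _)
    exact_mod_cast h2
  have htot : ∑ π, ((Finset.univ.filter fun u => P π u).card : ℝ) ≤
      (8 * A * C1 ^ 2 + C2) * k * M := by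
    rw [hdc P]
    refine (Finset.sum_le_sum fun u _ => hPle u).trans ?_
    rw [Finset.sum_add_distrib]
    calc _ ≤ 8 * A * C1 ^ 2 * k * M + C2 * k * M := add_le_add hsum1 hcyc
      _ = _ := by ring
  refine le_trans ?_ htot
  set Lg : Finset (Cf d) := Finset.univ.filter fun π : Cf d =>
    ∃ m' ≥ m, ∃ v w, DistEq (Arc π) m' v w with hLg
  calc (Lg.card : ℝ) * ((m : ℝ) + 1 - 2 * (k + 1)) = ∑ π ∈ Lg, ((m : ℝ) + 1 - 2 * (k + 1)) := by
        rw [Finset.sum_const, nsmul_eq_mul]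
    _ ≤ ∑ π ∈ Lg, ((Finset.univ.filter fun u => P π u).card : ℝ) := by
        refine Finset.sum_le_sum fun π hπ => ?_
        obtain ⟨m', hm', v, w, hvw⟩ := (Finset.mem_filter.1 hπ).2
        have h1 := hGEO (Fin n) (Arc π) m' (k + 1) v w hvw (by omega)
        have h2 : m + 1 ≤ 2 * (k + 1) + (Finset.univ.filter fun u => P π u).card := by
          refine le_trans (by omega) (h1.trans (le_of_eq ?_))
          refine congrArg (fun s : Finset (Fin n) => 2 * (k + 1) + s.card) (Finset.ext fun u => ?_)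
          simp only [Finset.mem_filter, Finset.mem_univ, true_and]
          exact (hP π u).symm
        have h3 : (m : ℝ) + 1 ≤ 2 * ((k : ℝ) + 1) + (Finset.univ.filter fun u => P π u).card := by
          exact_mod_cast h2
        linarith
    _ ≤ ∑ π, ((Finset.univ.filter fun u => P π u).card : ℝ) :=
        Finset.sum_le_sum_of_subset_of_nonneg (Finset.subset_univ _) fun π _ _ => Nat.cast_nonneg _

end Pool.Agent.NH71.DC
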