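import Pool.Agent.NH71.DC.Stm

/-!
# Project DC: a closed walk gives a cycle; the middle part of a geodesic
-/

set_option autoImplicit false

namespace Pool.Agent.NH71.DC

namespace Geo

variable {V : Type} {R : V → V → Prop}

lemma app {a b : ℕ} {u v w : V} (h1 : Walk R a u v) (h2 : Walk R b v w) :
    Walk R (a + b) u w := by
  induction h1 with
  | nil v => simpa using h2
  | cons h _ ih =>
    rw [Nat.add_right_comm]
    exact Walk.cons h (ih h2)

/-- the vertices of a walk -/
lemma walk_fun {m : ℕ} {u v : V} (h : Walk R m u v) :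
    ∃ f : ℕ → V, f 0 = u ∧ f m = v ∧ ∀ i < m, R (f i) (f (i + 1)) := by
  induction h with
  | nil v => exact ⟨fun _ => v, rfl, rfl, fun i hi => absurd hi (by omega)⟩
  | @cons m u v w h _ ih =>
    obtain ⟨f, h0, hm, hf⟩ := ih
    refine ⟨fun i => Nat.casesOn i u f, rfl, hm, ?_⟩
    intro i hi
    cases i with
    | zero =>
      change R u (f 0)
      rw [h0]
      exact h
    | succ i => exact hf i (by omega)

/-- a piece of a sequence of vertices is a walk -/
lemma fun_walk (f : ℕ → V) {m : ℕ} (hf : ∀ i < m, R (f i) (f (i + 1))) :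
    ∀ j i : ℕ, i + j ≤ m → Walk R j (f i) (f (i + j)) := by
  intro j
  induction j with
  | zero => exact fun i _ => Walk.nil _
  | succ j ih =>
    intro i hi
    have h1 := ih (i + 1) (by omega)
    have h2 : i + 1 + j = i + (j + 1) := by omega
    rw [h2] at h1
    exact Walk.cons (hf i (by omega)) h1

/-- a piece of a geodesic is a geodesic -/
lemma piece {m : ℕ} {f : ℕ → V} (hf : ∀ i < m, R (f i) (f (i + 1)))
    (hd : ∀ m' < m, ¬ Walk R m' (f 0) (f m)) {i j : ℕ} (hij : i + j ≤ m) :
    DistEq R j (f i) (f (i + j)) := by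
  refine ⟨fun_walk f hf j i hij, fun m' hm' h => ?_⟩
  have h1 : Walk R i (f 0) (f i) := by
    have := fun_walk f hf i 0 (by omega)
    rwa [Nat.zero_add] at this
  have h2 : Walk R (m - (i + j)) (f (i + j)) (f m) := by
    have := fun_walk f hf (m - (i + j)) (i + j) (by omega)
    rwa [Nat.add_sub_cancel' hij] at this
  exact hd (i + m' + (m - (i + j))) (by omega) (app (app h1 h) h2)

end Geo

open Geo

theorem s_cyw : S_CYW := by
  classical
  intro n d π u w a b hab h1 h2
  have h3 : ∃ l : ℕ, 1 ≤ l ∧ Walk (Arc π) l u u := ⟨a + b, hab, app h1 h2⟩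
  obtain ⟨hl, hw⟩ := Nat.find_spec h3
  have hmin : ∀ m < Nat.find h3, ¬ (1 ≤ m ∧ Walk (Arc π) m u u) := fun m hm => Nat.find_min h3 hm
  have hle : Nat.find h3 ≤ a + b := Nat.find_min' h3 ⟨hab, app h1 h2⟩
  generalize Nat.find h3 = l at hl hw hmin hle
  obtain ⟨f, hf0, hfl, hf⟩ := walk_fun hw
  have hx : ∀ i, ∃ x : HO d, i < l → x.1 = f i ∧ (π x).1 = f (i + 1) := by
    intro i
    by_cases hi : i < l
    · obtain ⟨x, hx1, hx2⟩ := hf i hi
      exact ⟨x, fun _ => ⟨hx1, hx2⟩⟩
    · obtain ⟨x, hx1, hx2⟩ := hf 0 hl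
      exact ⟨x, fun h => absurd h hi⟩
  choose x hx using hx
  refine ⟨l, hl, hle, x, ?_, ?_, ?_⟩
  · intro i hi j hj hij
    rw [Set.mem_Iio] at hi hj
    have hfij : f i = f j := by rw [← (hx i hi).1, ← (hx j hj).1, hij]
    by_contra hne
    have key : ∀ i j : ℕ, i < j → j < l → f i = f j → False := by
      intro i j hij hj he
      have h4 : Walk (Arc π) i (f 0) (f i) := by
        have := fun_walk f hf i 0 (by omega)
        rwa [Nat.zero_add] at this
      have h5 : Walk (Arc π) (l - j) (f j) (f l) := by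
        have := fun_walk f hf (l - j) j (by omega)
        rwa [Nat.add_sub_cancel' hj.le] at this
      rw [hf0, he] at h4
      rw [hfl] at h5
      exact hmin (i + (l - j)) (by omega) ⟨by omega, app h4 h5⟩
    rcases lt_or_gt_of_ne hne with h | h
    · exact key i j h hj hfij
    · exact key j i h hi hfij.symm
  · rw [(hx 0 hl).1, hf0]
  · intro i hi
    rw [(hx i hi).2]
    have h4 : (i + 1) % l < l := Nat.mod_lt _ (by omega)
    rw [(hx _ h4).1]
    rcases Nat.lt_or_ge (i + 1) l with h | h
    · rw [Nat.mod_eq_of_lt h]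
    · have h5 : i + 1 = l := by omega
      rw [h5, Nat.mod_self, hf0, hfl]

theorem s_geo : S_GEO := by
  classical
  intro V _ R m K v w hd hK
  obtain ⟨f, hf0, hfm, hf⟩ := walk_fun hd.1
  have hdd : ∀ m' < m, ¬ Walk R m' (f 0) (f m) := by
    rw [hf0, hfm]
    exact hd.2
  have hinj : Set.InjOn f (Finset.Icc K (m - K) : Finset ℕ) := by
    intro i hi j hj hij
    rw [Finset.mem_coe, Finset.mem_Icc] at hi hj
    have h1 := piece hf hdd (i := 0) (j := i) (by omega)
    have h2 := piece hf hdd (i := 0) (j := j) (by omega)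
    rw [Nat.zero_add] at h1 h2
    rw [hij] at h1
    rcases lt_trichotomy i j with h | h | h
    · exact absurd h1.1 (h2.2 i h)
    · exact h
    · exact absurd h2.1 (h1.2 j h)
  have hcard : (Finset.Icc K (m - K)).card ≤ (Finset.univ.filter fun u : V =>
      (∃ v', DistEq R K v' u) ∧ ∃ w', DistEq R K u w').card := by
    refine Finset.card_le_card_of_injOn f ?_ hinj
    intro i hi
    rw [Finset.mem_coe, Finset.mem_Icc] at hi
    rw [Finset.mem_coe, Finset.mem_filter]
    refine ⟨Finset.mem_univ _, ⟨f (i - K), ?_⟩, ⟨f (i + K), piece hf hdd (by omega)⟩⟩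
    have := piece hf hdd (i := i - K) (j := K) (by omega)
    rwa [Nat.sub_add_cancel hi.1] at this
  rw [Nat.card_Icc] at hcard
  convert (show m + 1 ≤ 2 * K + (Finset.univ.filter fun u : V =>
      (∃ v', DistEq R K v' u) ∧ ∃ w', DistEq R K u w').card by omega)

end Pool.Agent.NH71.DC
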