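import Pool.Agent.NH71.DC.Stm

/-!
# Project DC, part A3: conditioning on `Bal` costs a constant factor

Proof of `Pool.Agent.NH71.DC.S_HALF` (helper45).
-/

set_option autoImplicit false

open MeasureTheory ProbabilityTheory Filter Topology
open scoped ENNReal

namespace Pool.Agent.NH71.DC

namespace HalfP

/-- the sum of the differences over a finite index type has the law of the sum over `Fin m` -/
theorem pi_eq (ν : Measure (ℕ × ℕ)) [IsProbabilityMeasure ν] (ι : Type) [Fintype ι] (m : ℕ)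
    (hm : Fintype.card ι = m) (x : ℤ) :
    (Measure.pi fun _ : ι => ν) {b | ∑ i, (((b i).1 : ℤ) - (b i).2) = x} =
      PP ν m {d | ∑ i, (((d i).1 : ℤ) - (d i).2) = x} := by
  let e : ι ≃ Fin m := Fintype.equivFinOfCardEq hm
  have hmp := measurePreserving_piCongrLeft (fun _ : Fin m => ν) e
  have hms : MeasurableSet {d : DS m | ∑ i, (((d i).1 : ℤ) - (d i).2) = x} :=
    (Set.to_countable _).measurableSet
  rw [PP, ← hmp.measure_preimage hms.nullMeasurableSet]
  congr 1
  ext b
  simp only [Set.mem_ofPred_eq, Set.mem_preimage]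
  have : ∑ j, ((((MeasurableEquiv.piCongrLeft (fun _ : Fin m => ℕ × ℕ) e b) j).1 : ℤ) -
      ((MeasurableEquiv.piCongrLeft (fun _ : Fin m => ℕ × ℕ) e b) j).2) =
      ∑ i, (((b i).1 : ℤ) - (b i).2) := by
    rw [← e.sum_comp]
    apply Finset.sum_congr rfl
    intro i _
    have h : (MeasurableEquiv.piCongrLeft (fun _ : Fin m => ℕ × ℕ) e b) (e i) = b i :=
      Equiv.piCongrLeft_apply_apply (fun _ : Fin m => ℕ × ℕ) e b i
    rw [h]
  rw [this]

/-- the joint probability -/
theorem joint (ν : Measure (ℕ × ℕ)) [IsProbabilityMeasure ν] (n m : ℕ) (H : Finset (Fin n))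
    (hm : Hᶜ.card = m) (E : Set (DS n))
    (hE : ∀ d d' : DS n, (∀ i ∈ H, d i = d' i) → (d ∈ E ↔ d' ∈ E)) (κ : ℝ≥0∞)
    (hκ : ∀ x : ℤ, PP ν m {d | ∑ i, (((d i).1 : ℤ) - (d i).2) = x} ≤ κ) :
    PP ν n ({d | Bal d} ∩ E) ≤ κ * PP ν n E := by
  classical
  obtain ⟨p, hp⟩ : ∃ p : Fin n → Prop, ∀ i, p i ↔ i ∈ H := ⟨fun i => i ∈ H, fun _ => Iff.rfl⟩
  let Φ := MeasurableEquiv.piEquivPiSubtypeProd (fun _ : Fin n => ℕ × ℕ) p
  let μ₁ : Measure ({i // p i} → ℕ × ℕ) := Measure.pi fun _ => ν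
  let μ₂ : Measure ({i // ¬ p i} → ℕ × ℕ) := Measure.pi fun _ => ν
  have hmp : MeasurePreserving Φ (PP ν n) (μ₁.prod μ₂) :=
    measurePreserving_piEquivPiSubtypeProd (fun _ : Fin n => ν) p
  have hcard : Fintype.card {i // ¬ p i} = m := by
    rw [← hm, Fintype.card_subtype]
    congr 1
    ext i
    simp [hp]
  let E' : Set ({i // p i} → ℕ × ℕ) := {a | Φ.symm (a, fun _ => (0, 0)) ∈ E}
  have hmem : ∀ d : DS n, d ∈ E ↔ (Φ d).1 ∈ E' := by
    intro d
    apply hE
    intro i hi
    have : (Φ.symm ((Φ d).1, fun _ => (0, 0))) i = d i := by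
      show (Equiv.piEquivPiSubtypeProd p (fun _ : Fin n => ℕ × ℕ)).symm
        ((Equiv.piEquivPiSubtypeProd p (fun _ : Fin n => ℕ × ℕ) d).1, fun _ => (0, 0)) i = d i
      rw [Equiv.piEquivPiSubtypeProd_symm_apply]
      have hpi : p i := (hp i).2 hi
      simp [hpi]
    exact this.symm
  have hEm : MeasurableSet E' := (Set.to_countable _).measurableSet
  have hPE : PP ν n E = μ₁ E' := by
    have h1 : E = Φ ⁻¹' (E' ×ˢ Set.univ) := by
      ext d
      simp only [Set.mem_preimage, Set.mem_prod, Set.mem_univ, and_true]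
      exact hmem d
    rw [h1, hmp.measure_preimage (hEm.prod MeasurableSet.univ).nullMeasurableSet,
      Measure.prod_prod, measure_univ, mul_one]
  let A : Set (({i // p i} → ℕ × ℕ) × ({i // ¬ p i} → ℕ × ℕ)) :=
    {ab | ab.1 ∈ E' ∧ ∑ i, (((ab.2 i).1 : ℤ) - (ab.2 i).2) =
      -∑ i, (((ab.1 i).1 : ℤ) - (ab.1 i).2)}
  have hAm : MeasurableSet A := (Set.to_countable _).measurableSet
  have hPA : PP ν n ({d | Bal d} ∩ E) = (μ₁.prod μ₂) A := by
    rw [← hmp.measure_preimage hAm.nullMeasurableSet]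
    congr 1
    ext d
    simp only [Set.mem_inter_iff, Set.mem_ofPred_eq, Set.mem_preimage, A]
    rw [← hmem d, and_comm]
    apply and_congr_right
    intro _
    have hs : ∑ i, (((d i).1 : ℤ) - (d i).2) =
        ∑ i, ((((Φ d).1 i).1 : ℤ) - ((Φ d).1 i).2) + ∑ i, ((((Φ d).2 i).1 : ℤ) - ((Φ d).2 i).2) :=
      (Fintype.sum_subtype_add_sum_subtype p (fun i => (((d i).1 : ℤ) - (d i).2))).symm
    have hb : Bal d ↔ ∑ i, (((d i).1 : ℤ) - (d i).2) = 0 := by
      rw [Finset.sum_sub_distrib, sub_eq_zero, Bal]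
      constructor
      · intro h; exact_mod_cast h
      · intro h; exact_mod_cast h
    rw [hb, hs]
    constructor <;> intro h <;> linarith
  rw [hPA, hPE, Measure.prod_apply hAm]
  calc ∫⁻ a, μ₂ (Prod.mk a ⁻¹' A) ∂μ₁
      ≤ ∫⁻ a, E'.indicator (fun _ => κ) a ∂μ₁ := by
        apply lintegral_mono
        intro a
        by_cases ha : a ∈ E'
        · rw [Set.indicator_of_mem ha]
          refine le_trans (measure_mono ?_) (hκ (-∑ i, (((a i).1 : ℤ) - (a i).2)) |> le_trans
            (pi_eq ν {i // ¬ p i} m hcard _).le)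
          intro b hb
          exact hb.2
        · rw [Set.indicator_of_notMem ha]
          have : Prod.mk a ⁻¹' A = ∅ := by
            ext b
            simp only [Set.mem_preimage, Set.mem_empty_iff_false, iff_false]
            intro h
            exact ha h.1
          show μ₂ (Prod.mk a ⁻¹' A) ≤ 0
          rw [this, measure_empty]
    _ = κ * μ₁ E' := by
        rw [lintegral_indicator hEm, setLIntegral_const]

end HalfP

theorem s_half : S_HALF := by
  intro hchf hllt ν hν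
  have := hν.prob
  obtain ⟨⟨C, hC, hup⟩, c, hc, N, hlow⟩ := hllt hchf ν hν
  refine ⟨C * Real.sqrt 3 / c, by positivity, max N 1, fun n hn H E hH hE => ?_⟩
  have hn1 : 1 ≤ n := le_trans (le_max_right _ _) hn
  have hm1 : 1 ≤ Hᶜ.card := by omega
  have hj := HalfP.joint ν n Hᶜ.card H rfl E hE (ENNReal.ofReal (C / Real.sqrt Hᶜ.card))
    (fun x => hup _ hm1 x)
  have hl := hlow n (le_trans (le_max_left _ _) hn)
  have hms : MeasurableSet {d : DS n | Bal d} := (Set.to_countable _).measurableSet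
  rw [PB, cond_apply hms]
  have hnpos : (0 : ℝ) < n := by exact_mod_cast hn1
  have hmpos : (0 : ℝ) < Hᶜ.card := by exact_mod_cast hm1
  calc (PP ν n {d | Bal d})⁻¹ * PP ν n ({d | Bal d} ∩ E)
      ≤ (ENNReal.ofReal (c / Real.sqrt n))⁻¹ *
          (ENNReal.ofReal (C / Real.sqrt Hᶜ.card) * PP ν n E) := by
        gcongr
    _ = (ENNReal.ofReal (c / Real.sqrt n))⁻¹ * ENNReal.ofReal (C / Real.sqrt Hᶜ.card) *
          PP ν n E := by rw [mul_assoc]
    _ ≤ ENNReal.ofReal (C * Real.sqrt 3 / c) * PP ν n E := by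
        gcongr
        rw [← ENNReal.ofReal_inv_of_pos (by positivity), ← ENNReal.ofReal_mul (by positivity)]
        apply ENNReal.ofReal_le_ofReal
        have hs : Real.sqrt n ≤ Real.sqrt 3 * Real.sqrt Hᶜ.card := by
          rw [← Real.sqrt_mul (by norm_num)]
          apply Real.sqrt_le_sqrt
          exact_mod_cast hH
        have hsm : 0 < Real.sqrt (Hᶜ.card : ℝ) := Real.sqrt_pos.2 hmpos
        rw [inv_div, div_mul_div_comm, div_le_div_iff₀ (by positivity) hc]
        calc Real.sqrt n * C * c ≤ (Real.sqrt 3 * Real.sqrt Hᶜ.card) * C * c := by gcongr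
          _ = C * Real.sqrt 3 * (c * Real.sqrt Hᶜ.card) := by ring

end Pool.Agent.NH71.DC
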