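import Pool.Agent.NH71.DC.Stm

/-!
# Project DC, B2: the lopsided local lemma, counting form
-/

set_option autoImplicit false

namespace Pool.Agent.NH71.DC

namespace Lll

open Finset

section
variable {Ω ι : Type} [Fintype Ω] (E : ι → Ω → Prop)

open Classical in
/-- the number of the points which avoid `S` -/
noncomputable def av (S : Finset ι) : ℝ :=
  ((Finset.univ.filter fun ω => ∀ j ∈ S, ¬ E j ω).card : ℝ)

open Classical in
/-- the number of the points in `E i` which avoid `S` -/
noncomputable def bd (i : ι) (S : Finset ι) : ℝ :=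
  ((Finset.univ.filter fun ω => E i ω ∧ ∀ j ∈ S, ¬ E j ω).card : ℝ)

theorem av_nonneg (S : Finset ι) : 0 ≤ av E S := Nat.cast_nonneg _

theorem bd_mono (i : ι) {S S' : Finset ι} (h : S ⊆ S') : bd E i S' ≤ bd E i S := by
  classical
  unfold bd
  refine Nat.cast_le.2 (card_le_card fun ω hω => ?_)
  rw [mem_filter] at hω ⊢
  exact ⟨hω.1, hω.2.1, fun j hj => hω.2.2 j (h hj)⟩

open Classical in
theorem av_insert (i : ι) (S : Finset ι) : av E (insert i S) = av E S - bd E i S := by
  have h1 : (Finset.univ.filter fun ω => ∀ j ∈ S, ¬ E j ω).card =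
      (Finset.univ.filter fun ω => E i ω ∧ ∀ j ∈ S, ¬ E j ω).card +
        (Finset.univ.filter fun ω => ∀ j ∈ insert i S, ¬ E j ω).card := by
    rw [← card_union_of_disjoint]
    · congr 1
      ext ω
      simp only [mem_filter, mem_univ, true_and, mem_union, mem_insert, forall_eq_or_imp]
      tauto
    · rw [disjoint_left]
      intro ω h1 h2
      rw [mem_filter] at h1 h2
      exact h2.2 i (mem_insert_self i S) h1.2.1
  unfold av bd
  rw [h1]
  push_cast
  ring

open Classical in
theorem av_union (S T : Finset ι) : av E S - ∑ j ∈ T, bd E j S ≤ av E (S ∪ T) := by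
  induction T using Finset.induction_on with
  | empty => rw [sum_empty, sub_zero, union_empty]
  | insert j T hj ih =>
    rw [sum_insert hj, union_insert, av_insert]
    have := bd_mono E j (subset_union_left : S ⊆ S ∪ T)
    linarith

end

open Classical in
theorem key {Ω ι : Type} [Fintype Ω] (E : ι → Ω → Prop) (I : Finset ι)
    (nb : ι → ι → Prop) (q : ι → ℝ) (hq : ∀ i ∈ I, 0 ≤ q i ∧ q i ≤ 1 / 4)
    (hs : ∀ i ∈ I, ∑ j ∈ I.filter (nb i), q j ≤ 1 / 4)
    (hc : ∀ i ∈ I, ∀ S ⊆ I, i ∉ S → (∀ j ∈ S, ¬ nb i j) → bd E i S ≤ q i * av E S) :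
    ∀ (m : ℕ) (S : Finset ι), S.card = m → S ⊆ I → ∀ i ∈ I, i ∉ S →
      bd E i S ≤ 2 * q i * av E S := by
  intro m
  induction m using Nat.strong_induction_on with
  | _ m ih =>
    intro S hm hS i hi hiS
    set S1 := S.filter (nb i) with hS1
    set S2 := S.filter fun j => ¬ nb i j with hS2
    have hS2S : S2 ⊆ S := filter_subset _ _
    have hu : S2 ∪ S1 = S := by
      rw [union_comm]
      exact filter_union_filter_not_eq _ _
    have h1 : bd E i S ≤ q i * av E S2 := by
      refine (bd_mono E i hS2S).trans (hc i hi S2 (hS2S.trans hS) (fun h => hiS (hS2S h)) ?_)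
      intro j hj
      exact (mem_filter.1 hj).2
    have h2 : av E S2 ≤ 2 * av E S := by
      have h3 := av_union E S2 S1
      rw [hu] at h3
      have h4 : ∑ j ∈ S1, bd E j S2 ≤ ∑ j ∈ S1, 2 * q j * av E S2 := by
        refine sum_le_sum fun j hj => ?_
        have hjS : j ∈ S := (mem_filter.1 hj).1
        have hj2 : j ∉ S2 := fun h => (mem_filter.1 h).2 (mem_filter.1 hj).2
        have hlt : S2.card < m := by
          rw [← hm]
          exact card_lt_card ⟨hS2S, fun h => hj2 (h hjS)⟩
        exact ih _ hlt S2 _root_.rfl (hS2S.trans hS) j (hS hjS) hj2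
      have h5 : ∑ j ∈ S1, 2 * q j * av E S2 = (∑ j ∈ S1, q j) * (2 * av E S2) := by
        rw [sum_mul]
        refine sum_congr _root_.rfl fun j _ => ?_
        ring
      have h6 : ∑ j ∈ S1, q j ≤ 1 / 4 := by
        refine le_trans (sum_le_sum_of_subset_of_nonneg ?_ fun j hj _ => ?_) (hs i hi)
        · intro j hj
          exact mem_filter.2 ⟨hS (mem_filter.1 hj).1, (mem_filter.1 hj).2⟩
        · exact (hq j (mem_filter.1 hj).1).1
      have h7 : (∑ j ∈ S1, q j) * (2 * av E S2) ≤ 1 / 4 * (2 * av E S2) :=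
        mul_le_mul_of_nonneg_right h6 (by linarith [av_nonneg E S2])
      linarith
    have h8 := mul_le_mul_of_nonneg_left h2 (hq i hi).1
    linarith

theorem expo {x : ℝ} (h0 : 0 ≤ x) (h1 : x ≤ 1 / 4) : Real.exp (-4 * x) ≤ 1 - 2 * x := by
  have h2 : 1 + 4 * x ≤ Real.exp (4 * x) := by
    have := Real.add_one_le_exp (4 * x)
    linarith
  have h3 : Real.exp (-4 * x) = (Real.exp (4 * x))⁻¹ := by
    rw [← Real.exp_neg]
    congr 1
    ring
  rw [h3, inv_le_comm₀ (Real.exp_pos _) (by linarith)]
  refine le_trans ?_ h2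
  rw [inv_le_comm₀ (by linarith) (by linarith), inv_le_iff_one_le_mul₀ (by linarith)]
  nlinarith

end Lll

open Classical in
theorem s_lll : S_LLL := by
  intro Ω ι _ _ E I nb q hq hs hc
  have hk := Lll.key E I nb q hq hs (fun i hi S hS h1 h2 => hc i hi S hS h1 h2)
  have main : ∀ S : Finset ι, S ⊆ I →
      Real.exp (-4 * ∑ i ∈ S, q i) * Fintype.card Ω ≤ Lll.av E S := by
    intro S
    induction S using Finset.induction_on with
    | empty =>
      intro _
      rw [Finset.sum_empty, mul_zero, Real.exp_zero, one_mul]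
      unfold Lll.av
      rw [Finset.filter_true_of_mem (fun ω _ j hj => absurd hj (Finset.notMem_empty j)),
        Finset.card_univ]
    | insert i S hi ih =>
      intro hS
      have hiI : i ∈ I := hS (Finset.mem_insert_self i S)
      have hSI : S ⊆ I := fun j hj => hS (Finset.mem_insert_of_mem hj)
      have h1 := ih hSI
      have h2 := hk _ S _root_.rfl hSI i hiI hi
      have h3 := Lll.expo (hq i hiI).1 (hq i hiI).2
      rw [Finset.sum_insert hi, Lll.av_insert, mul_add, Real.exp_add]
      have h4 : Real.exp (-4 * q i) * (Real.exp (-4 * ∑ i ∈ S, q i) * Fintype.card Ω) ≤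
          (1 - 2 * q i) * Lll.av E S :=
        mul_le_mul h3 h1 (by positivity) (by linarith [(hq i hiI).2])
      linarith
  exact main I (Finset.Subset.refl I)

end Pool.Agent.NH71.DC
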