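import Pool.Agent.NH71.DC.Stm

/-!
# Project DC, part A2: local limit theorem bounds by Fourier inversion (helper69)
-/

set_option autoImplicit false

open MeasureTheory ProbabilityTheory Filter Topology
open scoped ENNReal

namespace Pool.Agent.NH71.DC

namespace LltP

/-- the sum of the differences -/
def SS {m : ℕ} (d : DS m) : ℤ := ∑ i, (((d i).1 : ℤ) - (d i).2)

theorem meas_SS {m : ℕ} (x : ℤ) : MeasurableSet {d : DS m | SS d = x} :=
  (Set.to_countable _).measurableSet

/-- the characteristic function of the sum -/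
theorem char_pow (ν : Measure (ℕ × ℕ)) [IsProbabilityMeasure ν] (m : ℕ) (t : ℝ) :
    ∫ d : DS m, Complex.exp (Complex.I * t * (SS d : ℂ)) ∂(PP ν m) = ph ν t ^ m := by
  have h := integral_fintype_prod_eq_pow (ι := Fin m) (μ := ν)
    (fun x : ℕ × ℕ => Complex.exp (Complex.I * t * ((x.1 : ℂ) - x.2)))
  rw [Fintype.card_fin] at h
  unfold ph PP
  rw [← h]
  congr 1
  ext d
  rw [← Complex.exp_sum]
  congr 1
  unfold SS
  push_cast
  rw [Finset.mul_sum]

theorem norm_ph_le (ν : Measure (ℕ × ℕ)) [IsProbabilityMeasure ν] (t : ℝ) : ‖ph ν t‖ ≤ 1 := by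
  unfold ph
  refine (norm_integral_le_integral_norm _).trans ?_
  have : ∀ x : ℕ × ℕ, ‖Complex.exp (Complex.I * t * ((x.1 : ℂ) - x.2))‖ = 1 := by
    intro x
    rw [Complex.norm_exp]
    simp
  simp [this]

theorem cont_ph (ν : Measure (ℕ × ℕ)) [IsProbabilityMeasure ν] : Continuous (ph ν) := by
  unfold ph
  refine continuous_of_dominated (bound := fun _ => 1) ?_ ?_ ?_ ?_
  · intro t
    exact (measurable_of_countable _).aestronglyMeasurable
  · intro t
    refine ae_of_all _ fun x => ?_
    rw [Complex.norm_exp]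
    simp
  · exact integrable_const _
  · refine ae_of_all _ fun x => ?_
    fun_prop

/-- orthogonality -/
theorem orth (k : ℤ) : ∫ t in (-Real.pi)..Real.pi, Complex.exp (Complex.I * t * (k : ℂ)) =
    if k = 0 then ((2 * Real.pi : ℝ) : ℂ) else 0 := by
  split_ifs with hk
  · subst hk
    simp
    ring
  · have hk' : (Complex.I * (k : ℂ)) ≠ 0 := by
      apply mul_ne_zero Complex.I_ne_zero
      exact_mod_cast hk
    have h : ∀ t : ℝ, Complex.exp (Complex.I * t * (k : ℂ)) =
        Complex.exp ((Complex.I * (k : ℂ)) * t) := by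
      intro t; congr 1; ring
    simp_rw [h]
    rw [integral_exp_mul_complex hk']
    rw [div_eq_zero_iff]
    left
    rw [sub_eq_zero]
    have : Complex.I * (k : ℂ) * ((Real.pi : ℝ) : ℂ) =
        Complex.I * (k : ℂ) * ((-Real.pi : ℝ) : ℂ) + k * (2 * Real.pi * Complex.I) := by
      push_cast; ring
    rw [this, Complex.exp_add, Complex.exp_int_mul_two_pi_mul_I, mul_one]

/-- Fourier inversion -/
theorem inversion (ν : Measure (ℕ × ℕ)) [IsProbabilityMeasure ν] (m : ℕ) (x : ℤ) :
    ∫ t in (-Real.pi)..Real.pi, Complex.exp (-(Complex.I * t * (x : ℂ))) * ph ν t ^ m =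
      ((2 * Real.pi * (PP ν m).real {d | SS d = x} : ℝ) : ℂ) := by
  have hprob : IsProbabilityMeasure (PP ν m) := by unfold PP; infer_instance
  have h1 : ∀ t : ℝ, Complex.exp (-(Complex.I * t * (x : ℂ))) * ph ν t ^ m =
      ∫ d : DS m, Complex.exp (Complex.I * t * ((SS d - x : ℤ) : ℂ)) ∂(PP ν m) := by
    intro t
    rw [← char_pow, ← integral_const_mul]
    congr 1
    ext d
    rw [← Complex.exp_add]
    congr 1
    push_cast
    ring
  simp_rw [h1]
  rw [intervalIntegral_integral_swap]
  · have h2 : ∀ d : DS m, (∫ t in (-Real.pi)..Real.pi,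
        Complex.exp (Complex.I * t * ((SS d - x : ℤ) : ℂ))) =
        Set.indicator {d : DS m | SS d = x} (fun _ => ((2 * Real.pi : ℝ) : ℂ)) d := by
      intro d
      rw [orth]
      by_cases h : SS d = x
      · rw [if_pos (by omega), Set.indicator_of_mem (by exact h)]
      · rw [if_neg (by omega), Set.indicator_of_notMem (by exact h)]
    simp_rw [h2]
    rw [integral_indicator (meas_SS x), integral_const]
    simp [Measure.real]
    ring
  · refine Integrable.mono' (g := fun _ => (1 : ℝ)) ?_ ?_ ?_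
    · have : IsFiniteMeasure ((volume : Measure ℝ).restrict (Set.uIoc (-Real.pi) Real.pi)) := by
        constructor
        rw [Measure.restrict_apply_univ, Set.uIoc_of_le (by linarith [Real.pi_pos])]
        exact measure_Ioc_lt_top
      exact integrable_const _
    · apply Measurable.aestronglyMeasurable
      apply measurable_from_prod_countable_left
      intro d
      fun_prop
    · refine ae_of_all _ fun p => ?_
      obtain ⟨t, d⟩ := p
      rw [Function.uncurry_apply_pair, Complex.norm_exp]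
      simp

theorem upper (ν : Measure (ℕ × ℕ)) [IsProbabilityMeasure ν] (c : ℝ) (hc0 : 0 < c)
    (hc : ∀ t : ℝ, |t| ≤ Real.pi → ‖ph ν t‖ ≤ Real.exp (-c * t ^ 2)) (m : ℕ) (hm : 1 ≤ m) (x : ℤ) :
    2 * Real.pi * (PP ν m).real {d | SS d = x} ≤ √(Real.pi / (c * m)) := by
  have hpi := Real.pi_pos
  have hm0 : (0 : ℝ) < m := by exact_mod_cast hm
  have h1 := inversion ν m x
  have h2 : 2 * Real.pi * (PP ν m).real {d | SS d = x} =
      ‖((2 * Real.pi * (PP ν m).real {d | SS d = x} : ℝ) : ℂ)‖ := by
    rw [Complex.norm_real, Real.norm_of_nonneg]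
    positivity
  rw [h2, ← h1]
  have hint : Integrable (fun t : ℝ => Real.exp (-(c * m) * t ^ 2)) :=
    integrable_exp_neg_mul_sq (by positivity)
  calc ‖∫ t in (-Real.pi)..Real.pi, Complex.exp (-(Complex.I * t * (x : ℂ))) * ph ν t ^ m‖
      ≤ ∫ t in (-Real.pi)..Real.pi, Real.exp (-(c * m) * t ^ 2) := by
        refine intervalIntegral.norm_integral_le_of_norm_le (by linarith) ?_ ?_
        · refine ae_of_all _ fun t ht => ?_
          rw [norm_mul, Complex.norm_exp, norm_pow]
          have : (-(Complex.I * t * (x : ℂ))).re = 0 := by simp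
          rw [this, Real.exp_zero, one_mul]
          calc ‖ph ν t‖ ^ m ≤ Real.exp (-c * t ^ 2) ^ m := by
                refine pow_le_pow_left₀ (norm_nonneg _) (hc t ?_) m
                rw [abs_le]
                exact ⟨ht.1.le, ht.2⟩
            _ = Real.exp (-(c * m) * t ^ 2) := by
                rw [← Real.exp_nat_mul]; congr 1; ring
        · exact hint.intervalIntegrable
    _ ≤ ∫ t : ℝ, Real.exp (-(c * m) * t ^ 2) := by
        rw [intervalIntegral.integral_of_le (by linarith)]
        exact setIntegral_le_integral hint (ae_of_all _ fun t => (Real.exp_pos _).le)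
    _ = √(Real.pi / (c * m)) := integral_gaussian _

theorem lower_lim (ν : Measure (ℕ × ℕ)) [IsProbabilityMeasure ν] (c : ℝ) (hc0 : 0 < c)
    (hc : ∀ t : ℝ, |t| ≤ Real.pi → ‖ph ν t‖ ≤ Real.exp (-c * t ^ 2)) (σ2 : ℝ)
    (hlim : ∀ u : ℝ, Tendsto (fun n : ℕ => (ph ν (u / Real.sqrt n)) ^ n) atTop
      (𝓝 ((Real.exp (-σ2 * u ^ 2 / 2) : ℝ) : ℂ))) :
    Tendsto (fun n : ℕ => ((Real.sqrt n * (2 * Real.pi * (PP ν n).real {d | SS d = 0}) : ℝ) : ℂ))
      atTop (𝓝 (∫ u : ℝ, ((Real.exp (-σ2 * u ^ 2 / 2) : ℝ) : ℂ))) := by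
  have hpi := Real.pi_pos
  let F : ℕ → ℝ → ℂ := fun n => Set.indicator (Set.Ioc (-(Real.pi * √(n : ℝ))) (Real.pi * √(n : ℝ)))
    (fun u => ph ν (u / √(n : ℝ)) ^ n)
  have hF : Tendsto (fun n => ∫ u, F n u) atTop
      (𝓝 (∫ u : ℝ, ((Real.exp (-σ2 * u ^ 2 / 2) : ℝ) : ℂ))) := by
    refine tendsto_integral_of_dominated_convergence (fun u => Real.exp (-c * u ^ 2)) ?_ ?_ ?_ ?_
    · intro n
      refine Measurable.aestronglyMeasurable ?_
      refine Measurable.indicator ?_ measurableSet_Ioc
      have := (cont_ph ν).measurable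
      fun_prop
    · exact integrable_exp_neg_mul_sq hc0
    · intro n
      refine ae_of_all _ fun u => ?_
      by_cases hu : u ∈ Set.Ioc (-(Real.pi * √(n : ℝ))) (Real.pi * √(n : ℝ))
      · simp only [F]
        rw [Set.indicator_of_mem hu, norm_pow]
        rcases Nat.eq_zero_or_pos n with hn | hn
        · subst hn
          simp at hu
        · have hn0 : (0 : ℝ) < n := by exact_mod_cast hn
          have hs : 0 < √(n : ℝ) := Real.sqrt_pos.2 hn0
          have h3 : |u / √(n : ℝ)| ≤ Real.pi := by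
            rw [abs_div, abs_of_pos hs, div_le_iff₀ hs, abs_le]
            exact ⟨hu.1.le, hu.2⟩
          calc ‖ph ν (u / √(n : ℝ))‖ ^ n ≤ Real.exp (-c * (u / √(n : ℝ)) ^ 2) ^ n :=
                pow_le_pow_left₀ (norm_nonneg _) (hc _ h3) n
            _ = Real.exp (-c * u ^ 2) := by
                rw [← Real.exp_nat_mul, div_pow, Real.sq_sqrt hn0.le]
                congr 1
                field_simp
      · simp only [F]
        rw [Set.indicator_of_notMem hu, norm_zero]
        positivity
    · refine ae_of_all _ fun u => ?_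
      refine (hlim u).congr' ?_
      have hev : ∀ᶠ n : ℕ in atTop, |u| < Real.pi * √(n : ℝ) := by
        have h4 : Tendsto (fun n : ℕ => Real.pi * √(n : ℝ)) atTop atTop :=
          Tendsto.const_mul_atTop hpi
            (Real.tendsto_sqrt_atTop.comp tendsto_natCast_atTop_atTop)
        exact h4.eventually_gt_atTop _
      filter_upwards [hev] with n hn
      simp only [F]
      rw [Set.indicator_of_mem]
      rw [abs_lt] at hn
      exact ⟨hn.1, hn.2.le⟩
  refine hF.congr' ?_
  filter_upwards [eventually_ge_atTop 1] with n hn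
  have hn0 : (0 : ℝ) < n := by exact_mod_cast hn
  have hs : 0 < √(n : ℝ) := Real.sqrt_pos.2 hn0
  have h1 := inversion ν n 0
  simp only [Int.cast_zero, mul_zero, neg_zero, Complex.exp_zero, one_mul] at h1
  simp only [F]
  rw [integral_indicator measurableSet_Ioc,
    ← intervalIntegral.integral_of_le (by have := mul_pos hpi hs; linarith)]
  have h5 := intervalIntegral.integral_comp_div (a := -(Real.pi * √(n : ℝ)))
    (b := Real.pi * √(n : ℝ)) (fun t => ph ν t ^ n) hs.ne'
  rw [h5]
  have h6 : -(Real.pi * √(n : ℝ)) / √(n : ℝ) = -Real.pi := by field_simp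
  have h7 : Real.pi * √(n : ℝ) / √(n : ℝ) = Real.pi := by field_simp
  rw [h6, h7, h1]
  push_cast
  rw [Complex.real_smul]

end LltP

theorem s_llt : S_LLT := by
  intro hchf ν hν
  have := hν.prob
  obtain ⟨⟨c, hc0, hc⟩, σ2, hσ, hlim⟩ := hchf ν hν
  have hpi := Real.pi_pos
  refine ⟨⟨√(Real.pi / c), by positivity, ?_⟩, ?_⟩
  · intro m hm x
    have hprob : IsProbabilityMeasure (PP ν m) := by unfold PP; infer_instance
    have hm0 : (0 : ℝ) < m := by exact_mod_cast hm
    have h := LltP.upper ν c hc0 hc m hm x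
    have h2 : (PP ν m).real {d | LltP.SS d = x} ≤ √(Real.pi / c) / √(m : ℝ) := by
      have h3 : √(Real.pi / (c * m)) = √(Real.pi / c) / √(m : ℝ) := by
        rw [← div_div, Real.sqrt_div (by positivity)]
      rw [← h3]
      have h4 : (1 : ℝ) ≤ 2 * Real.pi := by linarith [Real.pi_gt_three]
      have h5 : 0 ≤ (PP ν m).real {d | LltP.SS d = x} := measureReal_nonneg
      nlinarith
    have h6 : PP ν m {d | LltP.SS d = x} = ENNReal.ofReal ((PP ν m).real {d | LltP.SS d = x}) := by
      rw [Measure.real, ENNReal.ofReal_toReal (measure_ne_top _ _)]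
    change PP ν m {d | LltP.SS d = x} ≤ _
    rw [h6]
    exact ENNReal.ofReal_le_ofReal h2
  · have hL := LltP.lower_lim ν c hc0 hc σ2 hlim
    have hI : (∫ u : ℝ, ((Real.exp (-σ2 * u ^ 2 / 2) : ℝ) : ℂ)) =
        ((√(Real.pi / (σ2 / 2)) : ℝ) : ℂ) := by
      rw [integral_complex_ofReal, ← integral_gaussian]
      congr 2
      ext u
      congr 1
      ring
    rw [hI] at hL
    have hL' : Tendsto (fun n : ℕ => Real.sqrt n * (2 * Real.pi * (PP ν n).real {d | LltP.SS d = 0}))
        atTop (𝓝 (√(Real.pi / (σ2 / 2)))) := by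
      have h8 := (Complex.continuous_re.tendsto _).comp hL
      simpa [Function.comp_def] using h8
    set κ : ℝ := √(Real.pi / (σ2 / 2)) with hκ
    have hκ0 : 0 < κ := Real.sqrt_pos.2 (by positivity)
    have hev := hL'.eventually (eventually_ge_nhds (show κ / 2 < κ by linarith))
    obtain ⟨N, hN⟩ := eventually_atTop.1 hev
    refine ⟨κ / (4 * Real.pi), by positivity, max N 1, fun n hn => ?_⟩
    have hprob : IsProbabilityMeasure (PP ν n) := by unfold PP; infer_instance
    have hn1 : 1 ≤ n := le_trans (le_max_right _ _) hn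
    have hn0 : (0 : ℝ) < n := by exact_mod_cast hn1
    have hs : 0 < √(n : ℝ) := Real.sqrt_pos.2 hn0
    have h9 := hN n (le_trans (le_max_left _ _) hn)
    have hset : {d : DS n | Bal d} = {d | LltP.SS d = 0} := by
      ext d
      simp only [Set.mem_ofPred_eq, Bal, LltP.SS, Finset.sum_sub_distrib, sub_eq_zero]
      rw [← Nat.cast_sum, ← Nat.cast_sum, Nat.cast_inj]
    rw [hset]
    have h6 : PP ν n {d | LltP.SS d = 0} = ENNReal.ofReal ((PP ν n).real {d | LltP.SS d = 0}) := by
      rw [Measure.real, ENNReal.ofReal_toReal (measure_ne_top _ _)]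
    rw [h6]
    apply ENNReal.ofReal_le_ofReal
    rw [div_div, div_le_iff₀ (by positivity)]
    linarith

end Pool.Agent.NH71.DC
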