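import Pool.Agent.NH71.DC.Stm

/-!
# Project DC, B3: negative dependence for uniform bijections
-/

namespace Pool.Agent.NH71.DC

namespace Lop

theorem PM.mono {X Y : Type} {M N : Finset (X × Y)} (h : PM N) (hMN : M ⊆ N) : PM M :=
  fun a ha b hb => h a (hMN ha) b (hMN hb)

open Classical in
/-- One step: a pair is removed from the matching. -/
theorem step {X Y : Type} [Fintype X] [Fintype Y] (M : Finset (X × Y)) (p : X × Y)
    (S : Finset (Finset (X × Y))) (hp : p ∉ M) (hM : PM (insert p M))
    (hS : ∀ N ∈ S, PM (insert p M ∪ N)) :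
    (Finset.univ.filter fun π : X ≃ Y => Ev (insert p M) π ∧ ∀ N ∈ S, ¬ Ev N π).card *
        (Fintype.card Y - M.card) ≤
      (Finset.univ.filter fun π : X ≃ Y => Ev M π ∧ ∀ N ∈ S, ¬ Ev N π).card := by
  have hpM : p ∈ insert p M := Finset.mem_insert_self _ _
  have hc : (Finset.univ \ M.image Prod.snd).card = Fintype.card Y - M.card := by
    rw [Finset.card_sdiff_of_subset (Finset.subset_univ _), Finset.card_univ,
      Finset.card_image_of_injOn]
    intro a ha b hb hab
    have h1 := (hM a (Finset.mem_insert_of_mem ha) b (Finset.mem_insert_of_mem hb)).2 hab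
    exact Prod.ext h1 hab
  have hb : ∀ q ∈ M, q.2 ≠ p.2 := by
    intro q hq h1
    have h2 := (hM q (Finset.mem_insert_of_mem hq) p hpM).2 h1
    exact hp (by rw [← Prod.ext h2 h1]; exact hq)
  rw [← hc, ← Finset.card_product]
  refine Finset.card_le_card_of_injOn (fun q => q.1.trans (Equiv.swap p.2 q.2)) ?_ ?_
  · rintro ⟨π, y⟩ hq
    rw [Finset.mem_coe, Finset.mem_product, Finset.mem_filter, Finset.mem_sdiff,
      Finset.mem_image] at hq
    obtain ⟨⟨-, hE, hA⟩, -, hy⟩ := hq
    dsimp only at hE hA hy
    have hpp : π p.1 = p.2 := hE p hpM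
    rw [Finset.mem_coe, Finset.mem_filter]
    refine ⟨Finset.mem_univ _, ?_, ?_⟩
    · intro q hq
      have h1 : π q.1 = q.2 := hE q (Finset.mem_insert_of_mem hq)
      change Equiv.swap p.2 y (π q.1) = q.2
      rw [h1]
      exact Equiv.swap_apply_of_ne_of_ne (hb q hq) (fun h2 => hy ⟨q, hq, h2⟩)
    · intro N hN hEN
      by_cases hyp : y = p.2
      · refine hA N hN ?_
        intro q hq
        have h1 := hEN q hq
        rw [hyp] at h1
        change Equiv.swap p.2 p.2 (π q.1) = q.2 at h1
        rwa [Equiv.swap_self, Equiv.refl_apply] at h1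
      · refine hA N hN ?_
        intro q hq
        have h1 : Equiv.swap p.2 y (π q.1) = q.2 := hEN q hq
        have h2 := hS N hN q (Finset.mem_union_right _ hq) p (Finset.mem_union_left _ hpM)
        have h3 : π q.1 = Equiv.swap p.2 y q.2 := by
          rw [← h1, Equiv.swap_apply_self]
        have hq1 : q.1 ≠ p.1 := by
          intro h4
          have h5 := h2.1 h4
          rw [h5, Equiv.swap_apply_left, h4, hpp] at h3
          exact hyp h3.symm
        have hq2 : q.2 ≠ p.2 := fun h4 => hq1 (h2.2 h4)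
        have hq3 : q.2 ≠ y := by
          intro h4
          rw [h4, Equiv.swap_apply_right, ← hpp] at h3
          exact hq1 (π.injective h3)
        rw [h3]
        exact Equiv.swap_apply_of_ne_of_ne hq2 hq3
  · rintro ⟨π, y⟩ hq ⟨π', y'⟩ hq' h
    rw [Finset.mem_coe, Finset.mem_product, Finset.mem_filter] at hq hq'
    have h1 : π p.1 = p.2 := hq.1.2.1 p hpM
    have h1' : π' p.1 = p.2 := hq'.1.2.1 p hpM
    dsimp only at h
    have h2 := congrArg (fun f : X ≃ Y => f p.1) h
    change Equiv.swap p.2 y (π p.1) = Equiv.swap p.2 y' (π' p.1) at h2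
    rw [h1, h1', Equiv.swap_apply_left, Equiv.swap_apply_left] at h2
    subst h2
    have h3 : π = π' := by
      ext x
      have h4 := congrArg (fun f : X ≃ Y => f x) h
      change Equiv.swap p.2 y (π x) = Equiv.swap p.2 y (π' x) at h4
      exact (Equiv.swap p.2 y).injective h4
    rw [h3]

end Lop

open Classical in
/-- **B3.** -/
theorem s_lop : S_LOP := by
  intro X Y _ _ M S hXY hM hS
  induction M using Finset.induction_on with
  | empty =>
    rw [Finset.card_empty, Nat.sub_zero, mul_comm]
    refine mul_le_mul_of_nonneg_left ?_ (Nat.cast_nonneg _)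
    refine Nat.cast_le.2 (Finset.card_le_card fun π hπ => ?_)
    rw [Finset.mem_filter] at hπ ⊢
    exact ⟨hπ.1, hπ.2.2⟩
  | insert p M hp ih =>
    have h1 := ih (Lop.PM.mono hM (Finset.subset_insert _ _)) fun N hN =>
      Lop.PM.mono (hS N hN) (Finset.union_subset_union_left (Finset.subset_insert _ _))
    have h2 := Lop.step M p S hp hM hS
    have hcard : (insert p M).card ≤ Fintype.card X := by
      rw [← Finset.card_image_of_injOn (f := Prod.fst) (s := insert p M)]
      · exact Finset.card_le_univ _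
      · intro a ha b hb hab
        exact Prod.ext hab ((hM a ha b hb).1 hab)
    rw [Finset.card_insert_of_notMem hp] at hcard ⊢
    obtain ⟨k, hk⟩ : ∃ k, Fintype.card X - M.card = k + 1 := ⟨Fintype.card X - M.card - 1, by omega⟩
    have hk' : Fintype.card X - (M.card + 1) = k := by omega
    rw [hk']
    rw [hk, Nat.factorial_succ] at h1
    rw [← hXY, hk] at h2
    have h2' : ((Finset.univ.filter fun π : X ≃ Y => Ev (insert p M) π ∧ ∀ N ∈ S, ¬ Ev N π).card : ℝ) *
        ((k : ℝ) + 1) ≤
      ((Finset.univ.filter fun π : X ≃ Y => Ev M π ∧ ∀ N ∈ S, ¬ Ev N π).card : ℝ) := by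
      exact_mod_cast h2
    push_cast at h1
    have hk0 : (0 : ℝ) < (k : ℝ) + 1 := by positivity
    have hf : (0 : ℝ) ≤ ((Fintype.card X).factorial : ℝ) := Nat.cast_nonneg _
    have h3 := mul_le_mul_of_nonneg_right h2' hf
    refine le_of_mul_le_mul_left ?_ hk0
    nlinarith [h3, h1]

end Pool.Agent.NH71.DC
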