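import Pool.Agent.NH71.DC.Stm

/-!
# Project DC (MP_269591_pr), C5: existence of rates
-/

set_option autoImplicit false

namespace Pool.Agent.NH71.DC

namespace NumP

lemma one_sub_pow (x : ℝ) (h0 : 0 ≤ x) (h1 : x ≤ 1) (b : ℕ) :
    1 - (1 - x) ^ b ≤ b * x - (if 2 ≤ b then 1 else 0) * x ^ 2 := by
  rcases Nat.lt_or_ge b 2 with h | h
  · rw [if_neg (by omega)]
    interval_cases b <;> simp
  · rw [if_pos h]
    induction b, h using Nat.le_induction with
    | base => push_cast; ring_nf; rfl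
    | succ b hb ih =>
      have h2 : 0 ≤ 1 - (1 - x) ^ b := by
        have : (1 - x) ^ b ≤ 1 := pow_le_one₀ (by linarith) (by linarith)
        linarith
      have h3 : 1 - (1 - x) ^ (b + 1) = (1 - (1 - x) ^ b) - x * (1 - (1 - x) ^ b) + x := by ring
      rw [h3]
      push_cast
      nlinarith [mul_nonneg h0 h2]

/-- the rates in closed form -/
lemma core {n : ℕ} (a b : Fin n → ℕ) {D C2 c1 K : ℝ} {k : ℕ} (hD : 0 < D) (hC2 : 0 ≤ C2)
    (hc1 : 0 < c1) (hK : 0 < K) (hK1 : 4 * C2 ≤ c1 * K) (hK2 : 2 ≤ c1 * K) (hk : 1 ≤ k)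
    (hkK : K ≤ k) (h1 : ∑ v, (a v : ℝ) * b v ≤ D * (1 + C2 / k))
    (h2 : c1 * D ≤ ∑ v, (if 2 ≤ b v then (a v : ℝ) else 0)) :
    Rates a b D k (k ^ 2) ((K + Real.exp C2) / k) := by
  have hk0 : (0 : ℝ) < k := by exact_mod_cast hk
  have hq : 0 ≤ C2 / k := by positivity
  -- the recursion
  have hrec : ∀ x : ℝ, 0 ≤ x → x ≤ 1 → ∑ v, (a v : ℝ) * (1 - (1 - x) ^ (b v)) ≤
      D * (x * (1 + C2 / k - c1 * x)) := by
    intro x hx0 hx1
    have e1 : ∑ v, (a v : ℝ) * (1 - (1 - x) ^ (b v)) ≤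
        ∑ v, ((a v : ℝ) * b v * x - (if 2 ≤ b v then (a v : ℝ) else 0) * x ^ 2) := by
      refine Finset.sum_le_sum fun v _ => ?_
      have := mul_le_mul_of_nonneg_left (one_sub_pow x hx0 hx1 (b v)) (Nat.cast_nonneg (a v))
      refine this.trans (le_of_eq ?_)
      split_ifs <;> ring
    rw [Finset.sum_sub_distrib, ← Finset.sum_mul, ← Finset.sum_mul] at e1
    have e2 := mul_le_mul_of_nonneg_right h1 hx0
    have e3 := mul_le_mul_of_nonneg_right h2 (sq_nonneg x)
    nlinarith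
  refine ⟨fun r => K / (K + (min r k : ℕ)), fun r => r * (1 + C2 / k) ^ r, ?_, ?_, ?_, ?_, ?_, ?_⟩
  · simp [hK.ne']
  · intro r
    have : (0 : ℝ) ≤ (min r k : ℕ) := Nat.cast_nonneg _
    refine ⟨by positivity, ?_⟩
    rw [div_le_one (by positivity)]
    linarith
  · intro r
    have : 0 ≤ 1 + C2 / k := by linarith
    positivity
  · intro r
    have hr0 : (0 : ℝ) ≤ (min r k : ℕ) := Nat.cast_nonneg _
    have hx0 : 0 ≤ K / (K + (min r k : ℕ)) := by positivity
    have hx1 : K / (K + (min r k : ℕ)) ≤ 1 := by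
      rw [div_le_one (by positivity)]
      linarith
    refine (hrec _ hx0 hx1).trans (mul_le_mul_of_nonneg_left ?_ hD.le)
    dsimp only
    rcases Nat.lt_or_ge r k with hr | hr
    · rw [min_eq_left hr.le, min_eq_left (Nat.succ_le_of_lt hr)]
      rw [min_eq_left hr.le] at hx0 hx1 hr0
      have hrk : (r : ℝ) + 1 ≤ k := by exact_mod_cast hr
      have hA : 0 < K + r := by positivity
      have e1 : K / (K + ((r + 1 : ℕ) : ℝ)) = K / (K + r) * (1 - 1 / (K + r + 1)) := by
        push_cast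
        field_simp
        ring
      rw [e1]
      refine mul_le_mul_of_nonneg_left ?_ hx0
      have e2 : C2 / k ≤ c1 / 2 * (K / (K + r)) := by
        rw [div_le_iff₀ hk0]
        have e3 : K / (K + r) * k ≥ K / 2 := by
          rw [ge_iff_le, div_mul_eq_mul_div, le_div_iff₀ hA]
          nlinarith
        nlinarith
      have e4 : 1 / (K + r + 1) ≤ c1 / 2 * (K / (K + r)) := by
        rw [div_le_iff₀ (by linarith)]
        have e5 : 1 / 2 * (K / (K + r)) * (K + r + 1) ≥ K / 2 := by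
          have : K / (K + r) * (K + r + 1) = K + K / (K + r) := by field_simp
          nlinarith
        nlinarith
      nlinarith
    · rw [min_eq_right hr, min_eq_right (by omega)]
      rw [min_eq_right hr] at hx0 hx1 hr0
      have hA : 0 < K + k := by positivity
      have e2 : C2 / k ≤ c1 * (K / (K + k)) := by
        rw [div_le_iff₀ hk0]
        have e3 : K / (K + k) * k ≥ K / 2 := by
          rw [ge_iff_le, div_mul_eq_mul_div, le_div_iff₀ hA]
          nlinarith
        nlinarith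
      nlinarith
  · intro r
    have h3 : 1 ≤ 1 + C2 / k := by linarith
    have h4 : 1 ≤ (1 + C2 / k) ^ (r + 1) := one_le_pow₀ h3
    have h5 : 0 ≤ (r : ℝ) * (1 + C2 / k) ^ r := by positivity
    have h6 := mul_le_mul_of_nonneg_right h1 h5
    have e : D * (((r + 1 : ℕ) : ℝ) * (1 + C2 / k) ^ (r + 1)) =
        D * (1 + C2 / k) * (r * (1 + C2 / k) ^ r) + D * (1 + C2 / k) ^ (r + 1) := by
      push_cast
      ring
    rw [e]
    nlinarith
  · dsimp only
    rw [min_self]
    have e1 : K / (K + k) ≤ K / k := by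
      apply div_le_div_of_nonneg_left hK.le hk0
      linarith
    have e2 : (1 + C2 / k) ^ k ≤ Real.exp C2 := by
      have h3 : (1 + C2 / k) ≤ Real.exp (C2 / k) := by
        have := Real.add_one_le_exp (C2 / k)
        linarith
      have h4 : (1 + C2 / k) ^ k ≤ Real.exp (C2 / k) ^ k :=
        pow_le_pow_left₀ (by linarith) h3 k
      rw [← Real.exp_nat_mul, mul_div_cancel₀ _ hk0.ne'] at h4
      exact h4
    have e3 : (k : ℝ) * (1 + C2 / k) ^ k / ((k ^ 2 : ℕ) : ℝ) ≤ Real.exp C2 / k := by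
      push_cast
      rw [div_le_div_iff₀ (by positivity) hk0]
      nlinarith [mul_le_mul_of_nonneg_left e2 (sq_nonneg (k : ℝ))]
    rw [add_div]
    exact add_le_add e1 e3

end NumP

open NumP in
/-- C5. Existence of rates. -/
theorem s_num : S_NUM := by
  intro A c hA hc
  set C2 : ℝ := 2 * (A + 2) / c with hC2
  have hC2p : 0 < C2 := by positivity
  set c1 : ℝ := c / A with hc1
  have hc1p : 0 < c1 := by positivity
  set K : ℝ := (4 * C2 + 2) / c1 with hK
  have hKp : 0 < K := by positivity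
  have hcK : c1 * K = 4 * C2 + 2 := by rw [hK]; field_simp
  obtain ⟨k0, hk0⟩ := exists_nat_ge (max K (4 / c))
  refine ⟨K + Real.exp C2, by positivity, (k0 + 1) ^ 3, fun n hn k hk1 hk2 d hd => ?_⟩
  have hkk : k0 < k := by
    have := lt_of_pow_lt_pow_left₀ 3 (by omega) (hn.trans_lt hk2)
    omega
  have hk : 1 ≤ k := by omega
  have hkR : (0 : ℝ) < k := by exact_mod_cast hk
  have hkR1 : (1 : ℝ) ≤ k := by exact_mod_cast hk
  have hk0k : (k0 : ℝ) ≤ k := by exact_mod_cast hkk.le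
  have hkK : K ≤ k := (le_max_left _ _).trans (hk0.trans hk0k)
  have hkc : 4 / c ≤ k := (le_max_right _ _).trans (hk0.trans hk0k)
  have hkc' : 4 ≤ c * k := by
    rw [div_le_iff₀ hc] at hkc
    linarith
  have hn3 : (k : ℝ) ^ 3 ≤ n := by exact_mod_cast hk1
  have hnp : (0 : ℝ) < n := lt_of_lt_of_le (by positivity) hn3
  have hn2 : (k : ℝ) ^ 2 ≤ n / k := by
    rw [le_div_iff₀ hkR]
    nlinarith
  have hsq : Real.sqrt n ≤ n / k := by
    rw [le_div_iff₀ hkR]
    have h1 : (k : ℝ) ≤ Real.sqrt n := by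
      apply Real.le_sqrt_of_sq_le
      refine le_trans ?_ hn3
      nlinarith [sq_nonneg (k : ℝ)]
    have h2 := Real.mul_self_sqrt hnp.le
    nlinarith [Real.sqrt_nonneg (n : ℝ)]
  set L : ℝ := ∑ i, ((d i).1 : ℝ) with hL
  have hlow : c * n ≤ L := hd.low
  have hnk : n / (k : ℝ) ≤ c * n / 4 := by
    rw [div_le_iff₀ hkR]
    nlinarith
  have hD2 : c * n / 2 ≤ L - 2 * (k : ℝ) ^ 2 := by nlinarith
  have hDp : 0 < L - 2 * (k : ℝ) ^ 2 := lt_of_lt_of_le (by positivity) hD2
  have hLA : L ≤ A * n := by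
    refine le_trans (Finset.sum_le_sum fun i _ => ?_) hd.sq
    have h1 : ((d i).1 : ℝ) ≤ ((d i).1 : ℝ) ^ 2 := by
      have : (d i).1 ≤ (d i).1 ^ 2 := Nat.le_self_pow (by norm_num) _
      exact_mod_cast this
    nlinarith [sq_nonneg ((d i).2 : ℝ)]
  have hc1D : c1 * (L - 2 * (k : ℝ) ^ 2) ≤ c * n := by
    have h1 : c1 * (L - 2 * (k : ℝ) ^ 2) ≤ c1 * (A * n) :=
      mul_le_mul_of_nonneg_left (by nlinarith [sq_nonneg (k : ℝ)]) hc1p.le
    refine h1.trans (le_of_eq ?_)
    rw [hc1]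
    field_simp
  have hS : ∑ i, ((d i).1 : ℝ) * (d i).2 ≤ (L - 2 * (k : ℝ) ^ 2) * (1 + C2 / k) := by
    have h1 := hd.crit
    have h2 : A * Real.sqrt n ≤ A * (n / k) := mul_le_mul_of_nonneg_left hsq hA.le
    have h3 : (A + 2) * (n / k) = c * n / 2 * (C2 / k) := by
      rw [hC2]
      field_simp
    have h4 : c * n / 2 * (C2 / k) ≤ (L - 2 * (k : ℝ) ^ 2) * (C2 / k) :=
      mul_le_mul_of_nonneg_right hD2 (by positivity)
    have h5 : (L - 2 * (k : ℝ) ^ 2) * (1 + C2 / k) =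
      (L - 2 * (k : ℝ) ^ 2) + (L - 2 * (k : ℝ) ^ 2) * (C2 / k) := by ring
    rw [h5]
    linarith
  refine ⟨hDp, ?_, ?_⟩
  · exact core _ _ hDp hC2p.le hc1p hKp (by linarith) (by linarith) hk hkK hS
      (hc1D.trans hd.out2)
  · refine core _ _ hDp hC2p.le hc1p hKp (by linarith) (by linarith) hk hkK ?_
      (hc1D.trans hd.in2)
    refine le_trans (le_of_eq ?_) hS
    exact Finset.sum_congr rfl fun i _ => mul_comm _ _

end Pool.Agent.NH71.DC
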