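import Pool.Agent.NH71.DC.Base

/-!
# Project DC, parts C1 and C2: structure of the exploration
-/

set_option autoImplicit false

open Finset

namespace Pool.Agent.NH71.DC

namespace Run12

variable {X Y V : Type}

/-- the new active half-edges -/
theorem sub_run (ox : X → V) (oy : Y → V) (π : X ≃ Y) (f : ℕ) :
    ∀ (W : List (X × ℕ)) (Un R : Finset X), R ⊆ (run ox oy π f W Un R).2 := by
  classical
  induction f with
  | zero => intro W Un R; cases W <;> simp [run]
  | succ f ih =>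
    intro W Un R
    match W with
    | [] => simp [run]
    | (x, 0) :: W => simp [run]
    | (x, r + 1) :: W =>
      simp only [run]
      exact (Finset.subset_insert _ _).trans (ih _ _ _)

theorem card_run (ox : X → V) (oy : Y → V) (π : X ≃ Y) (f : ℕ) :
    ∀ (W : List (X × ℕ)) (Un R : Finset X), (run ox oy π f W Un R).2.card ≤ R.card + f := by
  classical
  induction f with
  | zero => intro W Un R; cases W <;> simp [run]
  | succ f ih =>
    intro W Un R
    match W with
    | [] => simp [run]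
    | (x, 0) :: W => simp [run]
    | (x, r + 1) :: W =>
      simp only [run]
      refine (ih _ _ _).trans ?_
      have := Finset.card_insert_le x R
      omega

theorem run_congr (ox : X → V) (oy : Y → V) (π π' : X ≃ Y) (f : ℕ) :
    ∀ (W : List (X × ℕ)) (Un R : Finset X), (∀ x ∈ (run ox oy π f W Un R).2, π' x = π x) →
      run ox oy π' f W Un R = run ox oy π f W Un R := by
  classical
  induction f with
  | zero => intro W Un R _; cases W <;> simp [run]
  | succ f ih =>
    intro W Un R h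
    match W with
    | [] => simp [run]
    | (x, 0) :: W => simp [run]
    | (x, r + 1) :: W =>
      simp only [run] at h ⊢
      have hx : π' x = π x := h x (sub_run ox oy π f _ _ _ (Finset.mem_insert_self _ _))
      rw [hx]
      exact ih _ _ _ h

/-- the invariant -/
structure Inv (ox : X → V) (oy : Y → V) (π : X ≃ Y) (k : ℕ) (u : V) (F : Finset X)
    (W : List (X × ℕ)) (Un R : Finset X) : Prop where
  act : ∀ a ∈ W, a.1 ∉ F ∧ ∃ m, m + a.2 = k ∧ Walk (ArcF ox oy π F) m u (ox a.1)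
  unf : ∀ x ∈ Un, x ∉ F
  cov : ∀ x, x ∉ F → x ∈ Un ∨ x ∈ R ∨ ∃ r, (x, r) ∈ W
  rev : ∀ x ∈ R, x ∉ F ∧ (∃ m ≤ k, Walk (ArcF ox oy π F) m u (ox x)) ∧
    ∃ m ≤ k, Walk (ArcF ox oy π F) m u (oy (π x))
  new : ∀ x ∈ Un, ox x ≠ u ∧ ∀ x' ∈ R, oy (π x') ≠ ox x

theorem Inv.step {ox : X → V} {oy : Y → V} {π : X ≃ Y} {k : ℕ} {u : V} {F : Finset X}
    {W : List (X × ℕ)} {Un R : Finset X} {x : X} {r : ℕ} [DecidableEq X] [DecidableEq V]
    (h : Inv ox oy π k u F ((x, r + 1) :: W) Un R) :
    Inv ox oy π k u F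
      ((Un.filter fun x' => ox x' = oy (π x)).toList.map (fun x' => (x', r)) ++ W)
      (Un.filter fun x' => ox x' ≠ oy (π x)) (insert x R) := by
  obtain ⟨hxF, m, hm, hw⟩ := h.act (x, r + 1) (by simp)
  have hw' : Walk (ArcF ox oy π F) (m + 1) u (oy (π x)) :=
    Base.walk_append hw (Walk.cons ⟨x, hxF, rfl, rfl⟩ (Walk.nil _))
  have hm' : m + (r + 1) = k := hm
  refine ⟨?_, ?_, ?_, ?_, ?_⟩
  · intro a ha
    rcases List.mem_append.1 ha with ha | ha
    · obtain ⟨x', hx', rfl⟩ := List.mem_map.1 ha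
      rw [Finset.mem_toList] at hx'
      have h1 := Finset.mem_filter.1 hx'
      refine ⟨h.unf _ h1.1, m + 1, by show m + 1 + r = k; omega, ?_⟩
      show Walk (ArcF ox oy π F) (m + 1) u (ox x')
      rw [h1.2]
      exact hw'
    · exact h.act a (by simp [ha])
  · intro x' hx'
    exact h.unf _ (Finset.mem_filter.1 hx').1
  · intro x' hx'
    rcases h.cov x' hx' with h1 | h1 | ⟨r', h1⟩
    · by_cases h2 : ox x' = oy (π x)
      · refine Or.inr (Or.inr ⟨r, ?_⟩)
        refine List.mem_append.2 (Or.inl (List.mem_map.2 ⟨x', ?_, rfl⟩))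
        rw [Finset.mem_toList]
        exact Finset.mem_filter.2 ⟨h1, h2⟩
      · exact Or.inl (Finset.mem_filter.2 ⟨h1, h2⟩)
    · exact Or.inr (Or.inl (Finset.mem_insert_of_mem h1))
    · rcases List.mem_cons.1 h1 with h1 | h1
      · have h2 : x' = x := congrArg Prod.fst h1
        rw [h2]
        exact Or.inr (Or.inl (Finset.mem_insert_self _ _))
      · exact Or.inr (Or.inr ⟨r', List.mem_append.2 (Or.inr h1)⟩)
  · intro x' hx'
    rcases Finset.mem_insert.1 hx' with rfl | hx'
    · exact ⟨hxF, ⟨m, by omega, hw⟩, ⟨m + 1, by omega, hw'⟩⟩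
    · exact h.rev x' hx'
  · intro x' hx'
    have h1 := Finset.mem_filter.1 hx'
    refine ⟨(h.new x' h1.1).1, fun x'' hx'' => ?_⟩
    rcases Finset.mem_insert.1 hx'' with rfl | hx''
    · exact fun h2 => h1.2 h2.symm
    · exact (h.new x' h1.1).2 x'' hx''

/-- the invariant at the end -/
theorem run_inv (ox : X → V) (oy : Y → V) (π : X ≃ Y) (k : ℕ) (u : V) (F : Finset X) (f : ℕ) :
    ∀ (W : List (X × ℕ)) (Un R : Finset X), Inv ox oy π k u F W Un R →
      (∀ x ∈ (run ox oy π f W Un R).2, x ∉ F ∧ ∃ m ≤ k, Walk (ArcF ox oy π F) m u (ox x)) ∧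
      ((run ox oy π f W Un R).1 = true →
        ∃ Un', Inv ox oy π k u F [] Un' (run ox oy π f W Un R).2) := by
  classical
  have hend : ∀ (W : List (X × ℕ)) (Un R : Finset X), Inv ox oy π k u F W Un R →
      ∀ x ∈ R, x ∉ F ∧ ∃ m ≤ k, Walk (ArcF ox oy π F) m u (ox x) :=
    fun W Un R h x hx => ⟨(h.rev x hx).1, (h.rev x hx).2.1⟩
  induction f with
  | zero =>
    intro W Un R h
    cases W with
    | nil =>
      simp only [run]
      exact ⟨hend _ _ _ h, fun _ => ⟨Un, h⟩⟩
    | cons a W =>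
      simp only [run]
      exact ⟨hend _ _ _ h, fun hf => by simp at hf⟩
  | succ f ih =>
    intro W Un R h
    match W, h with
    | [], h =>
      simp only [run]
      exact ⟨hend _ _ _ h, fun _ => ⟨Un, h⟩⟩
    | (x, 0) :: W, h =>
      simp only [run]
      exact ⟨hend _ _ _ h, fun hf => by simp at hf⟩
    | (x, r + 1) :: W, h =>
      simp only [run]
      exact ih _ _ _ h.step

theorem inv_start [Fintype X] [DecidableEq V] [DecidableEq X] (ox : X → V) (oy : Y → V) (π : X ≃ Y)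
    (k : ℕ) (u : V) (F : Finset X) :
    Inv ox oy π k u F ((Finset.univ.filter fun x => ox x = u ∧ x ∉ F).toList.map fun x => (x, k))
      (Finset.univ.filter fun x => ox x ≠ u ∧ x ∉ F) ∅ := by
  refine ⟨?_, ?_, ?_, ?_, ?_⟩
  · intro a ha
    obtain ⟨x', hx', rfl⟩ := List.mem_map.1 ha
    rw [Finset.mem_toList] at hx'
    have h1 := (Finset.mem_filter.1 hx').2
    refine ⟨h1.2, 0, by simp, ?_⟩
    show Walk (ArcF ox oy π F) 0 u (ox x')
    rw [h1.1]
    exact Walk.nil _
  · intro x' hx'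
    exact (Finset.mem_filter.1 hx').2.2
  · intro x' hx'
    by_cases h1 : ox x' = u
    · refine Or.inr (Or.inr ⟨k, List.mem_map.2 ⟨x', ?_, rfl⟩⟩)
      rw [Finset.mem_toList]
      exact Finset.mem_filter.2 ⟨Finset.mem_univ _, h1, hx'⟩
    · exact Or.inl (Finset.mem_filter.2 ⟨Finset.mem_univ _, h1, hx'⟩)
  · intro x' hx'
    exact absurd hx' (Finset.notMem_empty _)
  · intro x' hx'
    exact ⟨(Finset.mem_filter.1 hx').2.1, fun x'' hx'' => absurd hx'' (Finset.notMem_empty _)⟩

/-- the visited vertices -/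
theorem closed {ox : X → V} {oy : Y → V} {π : X ≃ Y} {k : ℕ} {u : V} {F : Finset X}
    {Un R : Finset X} (h : Inv ox oy π k u F [] Un R) {m : ℕ} {w v : V}
    (hw : Walk (ArcF ox oy π F) m w v) (h0 : w = u ∨ ∃ x ∈ R, oy (π x) = w) :
    v = u ∨ ∃ x ∈ R, oy (π x) = v := by
  induction hw with
  | nil v => exact h0
  | cons harc _ ih =>
    obtain ⟨x, hx, hx1, hx2⟩ := harc
    refine ih (Or.inr ⟨x, ?_, hx2⟩)
    rcases h.cov x hx with h1 | h1 | ⟨r, h1⟩
    · exfalso
      rcases h0 with h0 | ⟨x', hx', h0⟩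
      · exact (h.new x h1).1 (hx1.trans h0)
      · exact (h.new x h1).2 x' hx' (h0.trans hx1.symm)
    · exact h1
    · simp at h1

end Run12

open Run12 in
/-- **C1** -/
theorem s_run1 : S_RUN1 := by
  intro X Y V _ ox oy π k T u F ht m v hw
  classical
  have h1 := (run_inv ox oy π k u F T _ _ _ (inv_start ox oy π k u F)).2
  obtain ⟨Un', h2⟩ := h1 ht
  rcases closed h2 hw (Or.inl rfl) with h3 | ⟨x, hx, h3⟩
  · exact ⟨0, Nat.zero_le _, by rw [h3]; exact Walk.nil _⟩
  · obtain ⟨-, -, m', hm', hw'⟩ := h2.rev x hx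
    rw [h3] at hw'
    exact ⟨m', hm', hw'⟩

open Run12 in
/-- **C2** -/
theorem s_run2 : S_RUN2 := by
  intro X Y V _ ox oy π k T u F
  classical
  refine ⟨?_, ?_, ?_⟩
  · unfold expl
    refine (card_run ox oy π T _ _ _).trans ?_
    simp
  · unfold expl
    exact (run_inv ox oy π k u F T _ _ _ (inv_start ox oy π k u F)).1
  · intro π' hπ'
    unfold expl at hπ' ⊢
    exact run_congr ox oy π π' T _ _ _ hπ'

end Pool.Agent.NH71.DC
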