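import Pool.Agent.NH71.DC.Stm

/-!
# Project DC, part C3: the probability that the exploration survives
-/

set_option autoImplicit false

open Finset

namespace Pool.Agent.NH71.DC

namespace Run3

variable {X Y V : Type}

theorem run_fst (ox : X → V) (oy : Y → V) (π : X ≃ Y) (f : ℕ) :
    ∀ (W : List (X × ℕ)) (Un R R' : Finset X),
      (run ox oy π f W Un R).1 = (run ox oy π f W Un R').1 := by
  induction f with
  | zero => intro W Un R R'; cases W <;> simp [run]
  | succ f ih =>
    intro W Un R R'
    match W with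
    | [] => simp [run]
    | (x, 0) :: W => simp [run]
    | (x, r + 1) :: W =>
      simp only [run]
      exact ih _ _ _ _

/-- product of the `1 - p` -/
def Q (p : ℕ → ℝ) (W : List (X × ℕ)) : ℝ := (W.map fun a => 1 - p a.2).prod

/-- sum of the `G` -/
def g (G : ℕ → ℝ) (W : List (X × ℕ)) : ℝ := (W.map fun a => G a.2).sum

theorem Q_mem {p : ℕ → ℝ} (hp : ∀ r, 0 ≤ p r ∧ p r ≤ 1) (W : List (X × ℕ)) :
    0 ≤ Q p W ∧ Q p W ≤ 1 := by
  induction W with
  | nil => simp [Q]
  | cons a W ih =>
    have h1 : Q p (a :: W) = (1 - p a.2) * Q p W := by simp [Q]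
    rw [h1]
    have h2 := hp a.2
    constructor
    · exact mul_nonneg (by linarith) ih.1
    · nlinarith [ih.1, ih.2]

theorem g_nonneg {G : ℕ → ℝ} (hG : ∀ r, 0 ≤ G r) (W : List (X × ℕ)) : 0 ≤ g G W := by
  induction W with
  | nil => simp [g]
  | cons a W ih =>
    have h1 : g G (a :: W) = G a.2 + g G W := by simp [g]
    rw [h1]
    exact add_nonneg (hG _) ih

theorem Q_app (p : ℕ → ℝ) (s : Finset X) (r : ℕ) (W : List (X × ℕ)) :
    Q p (s.toList.map (fun x' => (x', r)) ++ W) = (1 - p r) ^ s.card * Q p W := by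
  unfold Q
  rw [List.map_append, List.prod_append, List.map_map]
  congr 1
  have : ((fun a : X × ℕ => 1 - p a.2) ∘ fun x' : X => (x', r)) = fun _ => 1 - p r := rfl
  rw [this, List.map_const', List.prod_replicate, Finset.length_toList]

theorem g_app (G : ℕ → ℝ) (s : Finset X) (r : ℕ) (W : List (X × ℕ)) :
    g G (s.toList.map (fun x' => (x', r)) ++ W) = s.card * G r + g G W := by
  unfold g
  rw [List.map_append, List.sum_append, List.map_map]
  congr 1
  have : ((fun a : X × ℕ => G a.2) ∘ fun x' : X => (x', r)) = fun _ => G r := rfl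
  rw [this, List.map_const', List.sum_replicate, Finset.length_toList, nsmul_eq_mul]

theorem upd_iff [DecidableEq X] {F : Finset X} {x : X} (hx : x ∉ F) (m : X → Y) (y : Y)
    (π : X ≃ Y) : (∀ z ∈ insert x F, π z = Function.update m x y z) ↔
      (∀ z ∈ F, π z = m z) ∧ π x = y := by
  constructor
  · intro h
    refine ⟨fun z hz => ?_, ?_⟩
    · have h1 := h z (mem_insert_of_mem hz)
      rwa [Function.update_of_ne (by rintro rfl; exact hx hz)] at h1
    · have h1 := h x (mem_insert_self _ _)
      rwa [Function.update_self] at h1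
  · rintro ⟨h1, h2⟩ z hz
    rcases mem_insert.1 hz with rfl | hz'
    · rw [Function.update_self, h2]
    · have hne : z ≠ x := fun h => hx (h ▸ hz')
      rw [Function.update_of_ne hne, h1 z hz']

theorem aux1 {D L S s' Gr G' : ℝ} (hD : 0 < D) (hL : D ≤ L) (hG : 0 ≤ Gr) (hs : s' ≤ S)
    (hS : 0 ≤ S) (h : D + S * Gr ≤ D * G') : s' * Gr ≤ L * (G' - 1) := by
  have h15 := mul_le_mul_of_nonneg_right hs hG
  have h17 : 0 ≤ S * Gr := mul_nonneg hS hG
  have h18 : 0 ≤ G' - 1 := by
    by_contra hc
    push Not at hc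
    nlinarith
  nlinarith [mul_le_mul_of_nonneg_right hL h18]

theorem aux2 {L Q q' G' g f T gr : ℝ} (hT : T ≠ 0) :
    L * ((1 - (1 - q') * Q) + (G' + g) / T + (T - (f + 1)) / T) = L * (1 - Q) +
      Q * (L * q') + L * (G' - 1) / T + L * (g / T + (T - f) / T) + 0 * gr := by
  field_simp
  ring

section
open Classical

theorem card_swap [Fintype X] [Fintype Y] (F : Finset X) (m : X → Y) (x : X) (y y' : Y)
    (hy : ∀ z ∈ F, m z ≠ y) (hy' : ∀ z ∈ F, m z ≠ y') :
    (univ.filter fun π : X ≃ Y => (∀ z ∈ F, π z = m z) ∧ π x = y).card ≤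
    (univ.filter fun π : X ≃ Y => (∀ z ∈ F, π z = m z) ∧ π x = y').card := by
  refine Finset.card_le_card_of_injOn (fun π => π.trans (Equiv.swap y y')) ?_ ?_
  · intro π hπ
    simp only [coe_filter, mem_univ, true_and, Set.mem_ofPred_eq] at hπ ⊢
    refine ⟨fun z hz => ?_, ?_⟩
    · rw [Equiv.trans_apply, hπ.1 z hz, Equiv.swap_apply_of_ne_of_ne (hy z hz) (hy' z hz)]
    · rw [Equiv.trans_apply, hπ.2, Equiv.swap_apply_left]
  · intro π _ π' _ h
    ext z
    have h1 := congrArg (fun e : X ≃ Y => (Equiv.swap y y') (e z)) h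
    simpa using h1

theorem card_fib [Fintype X] [Fintype Y] {F : Finset X} {m : X → Y} {x : X} (hx : x ∉ F)
    (P : (X ≃ Y) → Prop) [DecidablePred P] :
    (univ.filter fun π : X ≃ Y => (∀ z ∈ F, π z = m z) ∧ P π).card =
      ∑ y ∈ univ \ image m F,
        (univ.filter fun π : X ≃ Y => ((∀ z ∈ F, π z = m z) ∧ π x = y) ∧ P π).card := by
  rw [Finset.card_eq_sum_card_fiberwise (f := fun π : X ≃ Y => π x) (t := univ \ image m F)]
  · refine Finset.sum_congr rfl fun y _ => ?_
    congr 1
    ext π
    simp only [mem_filter, mem_univ, true_and]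
    tauto
  · intro π hπ
    simp only [coe_filter, mem_univ, true_and, Set.mem_ofPred_eq] at hπ
    simp only [coe_sdiff, coe_univ, coe_image, Set.mem_sdiff, Set.mem_univ, true_and, Set.mem_image,
      mem_coe, not_exists, not_and]
    intro z hz h
    rw [← hπ.1 z hz] at h
    exact hx (by rw [← π.injective h]; exact hz)

theorem card_y [Fintype X] [Fintype Y] {F : Finset X} {m : X → Y} {x : X} (hx : x ∉ F)
    {y : Y} (hy : y ∈ univ \ image m F) :
    ((univ.filter fun π : X ≃ Y => ∀ z ∈ F, π z = m z).card : ℝ) =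
      ((univ \ image m F).card : ℝ) *
        (univ.filter fun π : X ≃ Y => (∀ z ∈ F, π z = m z) ∧ π x = y).card := by
  have h0 := card_fib (m := m) hx (fun _ => True)
  simp only [and_true] at h0
  have hm : ∀ y ∈ univ \ image m F, ∀ z ∈ F, m z ≠ y := by
    intro y hy z hz h
    rw [mem_sdiff] at hy
    exact hy.2 (mem_image.2 ⟨z, hz, h⟩)
  have h1 : ∀ y' ∈ univ \ image m F,
      (univ.filter fun π : X ≃ Y => (∀ z ∈ F, π z = m z) ∧ π x = y').card =
      (univ.filter fun π : X ≃ Y => (∀ z ∈ F, π z = m z) ∧ π x = y).card := by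
    intro y' hy'
    exact le_antisymm (card_swap F m x y' y (hm y' hy') (hm y hy))
      (card_swap F m x y y' (hm y hy) (hm y' hy'))
  rw [h0, Finset.sum_congr rfl h1, Finset.sum_const, smul_eq_mul]
  push_cast
  rfl

theorem key [Fintype X] [Fintype Y] (ox : X → V) (oy : Y → V) (p G : ℕ → ℝ) (T : ℕ) (D : ℝ)
    (K : ℕ) (hT : 1 ≤ T) (hD : 0 < D) (hDL : D ≤ (Fintype.card X : ℝ) - K - T)
    (hXY : Fintype.card X = Fintype.card Y) (hp0 : p 0 = 1) (hp : ∀ r, 0 ≤ p r ∧ p r ≤ 1)
    (hG : ∀ r, 0 ≤ G r)
    (h1 : ∀ r, ∑ y : Y, (1 - (1 - p r) ^ (univ.filter fun x => ox x = oy y).card) ≤ D * p (r + 1))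
    (h2 : ∀ r, D + (∑ y : Y, ((univ.filter fun x => ox x = oy y).card : ℝ)) * G r ≤
      D * G (r + 1)) (f : ℕ) :
    ∀ (F : Finset X) (m : X → Y) (W : List (X × ℕ)) (Un : Finset X), F.card + f ≤ K + T → f ≤ T →
      Set.InjOn m F → (∀ a ∈ W, a.1 ∉ F ∧ a.1 ∉ Un) → (W.map Prod.fst).Nodup → Disjoint Un F →
      ((univ.filter fun π : X ≃ Y => (∀ x ∈ F, π x = m x) ∧
        (run ox oy π f W Un ∅).1 = false).card : ℝ)
        ≤ ((1 - Q p W) + g G W / T + ((T : ℝ) - f) / T) *
          (univ.filter fun π : X ≃ Y => ∀ x ∈ F, π x = m x).card := by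
  have hT0 : (0 : ℝ) < T := by exact_mod_cast hT
  have hle : ∀ (f : ℕ) (F : Finset X) (m : X → Y) (W : List (X × ℕ)) (Un : Finset X) (c : ℝ), 1 ≤ c →
      ((univ.filter fun π : X ≃ Y => (∀ x ∈ F, π x = m x) ∧
        (run ox oy π f W Un ∅).1 = false).card : ℝ) ≤
        c * (univ.filter fun π : X ≃ Y => ∀ x ∈ F, π x = m x).card := by
    intro f F m W Un c hc
    have h3 : ((univ.filter fun π : X ≃ Y => (∀ x ∈ F, π x = m x) ∧
        (run ox oy π f W Un ∅).1 = false).card : ℝ) ≤
        (univ.filter fun π : X ≃ Y => ∀ x ∈ F, π x = m x).card := by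
      have h3' : (univ.filter fun π : X ≃ Y => (∀ x ∈ F, π x = m x) ∧
          (run ox oy π f W Un ∅).1 = false) ⊆ univ.filter fun π : X ≃ Y => ∀ x ∈ F, π x = m x :=
        fun π hπ => mem_filter.2 ⟨mem_univ _, (mem_filter.1 hπ).2.1⟩
      exact_mod_cast Finset.card_le_card h3'
    have h4 : (0 : ℝ) ≤ (univ.filter fun π : X ≃ Y => ∀ x ∈ F, π x = m x).card := by positivity
    nlinarith
  have hnil : ∀ (f : ℕ) (F : Finset X) (m : X → Y) (Un : Finset X) (c : ℝ), 0 ≤ c →
      ((univ.filter fun π : X ≃ Y => (∀ x ∈ F, π x = m x) ∧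
        (run ox oy π f [] Un ∅).1 = false).card : ℝ) ≤
        c * (univ.filter fun π : X ≃ Y => ∀ x ∈ F, π x = m x).card := by
    intro f F m Un c hc
    have h3 : (univ.filter fun π : X ≃ Y => (∀ x ∈ F, π x = m x) ∧
        (run ox oy π f [] Un ∅).1 = false) = ∅ := by
      rw [Finset.filter_eq_empty_iff]
      intro π _ h
      cases f <;> simp [run] at h
    rw [h3]
    simp only [card_empty, Nat.cast_zero]
    positivity
  induction f with
  | zero =>
    intro F m W Un hF hf hm hW hnd hUn
    have hQ := Q_mem hp W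
    have hg := g_nonneg hG W
    match W with
    | [] =>
      refine hnil _ _ _ _ _ ?_
      have : (0:ℝ) ≤ ((T:ℝ) - ((0:ℕ):ℝ)) / T := by
        rw [Nat.cast_zero, sub_zero]
        positivity
      have : 0 ≤ g G ([] : List (X × ℕ)) / T := by positivity
      linarith
    | a :: W =>
      refine hle _ _ _ _ _ _ ?_
      have h5 : ((T:ℝ) - ((0:ℕ):ℝ)) / T = 1 := by
        rw [Nat.cast_zero, sub_zero, div_self hT0.ne']
      have : 0 ≤ g G (a :: W) / T := by positivity
      linarith
  | succ f ih =>
    intro F m W Un hF hf hm hW hnd hUn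
    have hQ := Q_mem hp W
    have hg := g_nonneg hG W
    have hf' : ((f + 1 : ℕ) : ℝ) ≤ T := by exact_mod_cast hf
    have hTf : (0:ℝ) ≤ ((T:ℝ) - ((f + 1 : ℕ) : ℝ)) / T := div_nonneg (by linarith) hT0.le
    match W, hW, hnd, hQ, hg with
    | [], _, _, hQ, hg =>
      refine hnil _ _ _ _ _ ?_
      have : 0 ≤ g G ([] : List (X × ℕ)) / T := by positivity
      linarith
    | (x, 0) :: W, _, _, hQ, hg =>
      refine hle _ _ _ _ _ _ ?_
      have h6 : Q p ((x, 0) :: W) = 0 := by simp [Q, hp0]
      have : 0 ≤ g G ((x, 0) :: W) / T := by positivity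
      linarith
    | (x, r + 1) :: W, hW, hnd, hQ, hg =>
      have hxF : x ∉ F := (hW (x, r + 1) (by simp)).1
      have hxU : x ∉ Un := (hW (x, r + 1) (by simp)).2
      have hW' : ∀ a ∈ W, a.1 ∉ F ∧ a.1 ∉ Un := fun a ha => hW a (by simp [ha])
      rw [List.map_cons, List.nodup_cons] at hnd
      have hQW := Q_mem hp W
      have hgW := g_nonneg hG W
      set Lf : Finset Y := univ \ image m F with hLf
      have hLc : (Lf.card : ℝ) = (Fintype.card X : ℝ) - F.card := by
        have h7 : Lf.card = Fintype.card Y - F.card := by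
          rw [hLf, ← Finset.card_image_of_injOn hm, Finset.card_sdiff_of_subset (subset_univ _),
            Finset.card_univ]
        have h8 : F.card ≤ Fintype.card X := Finset.card_le_univ F
        rw [h7, ← hXY, Nat.cast_sub h8]
      have hDLc : D ≤ Lf.card := by
        rw [hLc]
        have h9 : (F.card : ℝ) + (f + 1) ≤ K + T := by exact_mod_cast hF
        have h10 : (0:ℝ) ≤ f := by positivity
        linarith
      have hLc0 : (0:ℝ) < Lf.card := lt_of_lt_of_le hD hDLc
      set M : ℝ := ((univ.filter fun π : X ≃ Y => ∀ x ∈ F, π x = m x).card : ℝ) with hM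
      have hM0 : 0 ≤ M := by rw [hM]; positivity
      -- the state after the first step
      set By : Y → Finset X := fun y => Un.filter fun x' => ox x' = oy y with hBy
      have hstep : ∀ y ∈ Lf,
          ((univ.filter fun π : X ≃ Y => ((∀ z ∈ F, π z = m z) ∧ π x = y) ∧
            (run ox oy π (f + 1) ((x, r + 1) :: W) Un ∅).1 = false).card : ℝ) ≤
          ((1 - (1 - p r) ^ (By y).card * Q p W) + ((By y).card * G r + g G W) / T +
            ((T : ℝ) - f) / T) * (M / Lf.card) := by
        intro y hy
        have hMy : M / Lf.card = (univ.filter fun π : X ≃ Y =>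
            ∀ z ∈ insert x F, π z = Function.update m x y z).card := by
          rw [hM, card_y hxF hy, mul_div_cancel_left₀ _ hLc0.ne']
          congr 2
          ext π
          simp only [mem_filter, mem_univ, true_and]
          exact (upd_iff hxF m y π).symm
        have hset : (univ.filter fun π : X ≃ Y => ((∀ z ∈ F, π z = m z) ∧ π x = y) ∧
            (run ox oy π (f + 1) ((x, r + 1) :: W) Un ∅).1 = false) =
            (univ.filter fun π : X ≃ Y => (∀ z ∈ insert x F, π z = Function.update m x y z) ∧
            (run ox oy π f ((By y).toList.map (fun x' => (x', r)) ++ W)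
              (Un.filter fun x' => ox x' ≠ oy y) ∅).1 = false) := by
          ext π
          simp only [mem_filter, mem_univ, true_and]
          rw [upd_iff hxF m y π]
          refine and_congr_right fun h => ?_
          have h11 : (run ox oy π (f + 1) ((x, r + 1) :: W) Un ∅).1 =
              (run ox oy π f ((By y).toList.map (fun x' => (x', r)) ++ W)
              (Un.filter fun x' => ox x' ≠ oy y) ∅).1 := by
            simp only [run]
            rw [h.2]
            exact run_fst _ _ _ _ _ _ _ _
          rw [h11]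
        rw [hset, hMy, ← Q_app, ← g_app]
        refine ih (insert x F) (Function.update m x y) _ _ ?_ (by omega) ?_ ?_ ?_ ?_
        · rw [card_insert_of_notMem hxF]
          omega
        · intro a ha b hb hab
          rw [coe_insert] at ha hb
          have hy' : ∀ z ∈ F, m z ≠ y := by
            intro z hz h
            rw [hLf, mem_sdiff] at hy
            exact hy.2 (mem_image.2 ⟨z, hz, h⟩)
          have hne : ∀ z ∈ F, z ≠ x := fun z hz h => hxF (h ▸ hz)
          rcases Set.mem_insert_iff.1 ha with ha1 | ha1 <;>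
            rcases Set.mem_insert_iff.1 hb with hb1 | hb1
          · rw [ha1, hb1]
          · rw [ha1, Function.update_self, Function.update_of_ne (hne b hb1)] at hab
            exact absurd hab.symm (hy' b hb1)
          · rw [hb1, Function.update_self, Function.update_of_ne (hne a ha1)] at hab
            exact absurd hab (hy' a ha1)
          · rw [Function.update_of_ne (hne a ha1), Function.update_of_ne (hne b hb1)] at hab
            exact hm ha1 hb1 hab
        · intro a ha
          rw [List.mem_append] at ha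
          rcases ha with ha | ha
          · obtain ⟨x', hx', rfl⟩ := List.mem_map.1 ha
            rw [Finset.mem_toList] at hx'
            have h12 := mem_filter.1 hx'
            refine ⟨?_, ?_⟩
            · rw [mem_insert]
              rintro (h | h)
              · exact hxU (h ▸ h12.1)
              · exact (Finset.disjoint_left.1 hUn) h12.1 h
            · intro h
              exact (mem_filter.1 h).2 h12.2
          · refine ⟨?_, ?_⟩
            · rw [mem_insert]
              rintro (h | h)
              · exact hnd.1 (List.mem_map.2 ⟨a, ha, h⟩)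
              · exact (hW' a ha).1 h
            · intro h
              exact (hW' a ha).2 (mem_filter.1 h).1
        · rw [List.map_append, List.map_map]
          have h13 : (Prod.fst ∘ fun x' : X => (x', r)) = id := rfl
          rw [h13, List.map_id]
          refine List.Nodup.append (Finset.nodup_toList _) hnd.2 ?_
          intro z hz hz'
          rw [Finset.mem_toList] at hz
          obtain ⟨a, ha, rfl⟩ := List.mem_map.1 hz'
          exact (hW' a ha).2 (mem_filter.1 hz).1
        · rw [Finset.disjoint_left]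
          intro z hz h
          rcases mem_insert.1 h with rfl | h
          · exact hxU (mem_filter.1 hz).1
          · exact (Finset.disjoint_left.1 hUn) (mem_filter.1 hz).1 h
      have hcf := card_fib (m := m) hxF
        (fun π : X ≃ Y => (run ox oy π (f + 1) ((x, r + 1) :: W) Un ∅).1 = false)
      rw [hcf, Nat.cast_sum]
      refine (Finset.sum_le_sum hstep).trans ?_
      rw [← Finset.sum_mul]
      have hbl : ∀ y, ((By y).card : ℝ) ≤ (univ.filter fun x => ox x = oy y).card := by
        intro y
        exact_mod_cast Finset.card_le_card (by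
          intro z hz
          rw [hBy] at hz
          exact mem_filter.2 ⟨mem_univ _, (mem_filter.1 hz).2⟩)
      have hbl' : ∀ y, (By y).card ≤ (univ.filter fun x => ox x = oy y).card := by
        intro y
        exact_mod_cast hbl y
      have hpr := hp r
      have hs1 : ∑ y ∈ Lf, (1 - (1 - p r) ^ (By y).card) ≤ Lf.card * p (r + 1) := by
        calc ∑ y ∈ Lf, (1 - (1 - p r) ^ (By y).card)
            ≤ ∑ y ∈ Lf, (1 - (1 - p r) ^ (univ.filter fun x => ox x = oy y).card) := by
              refine Finset.sum_le_sum fun y _ => ?_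
              have := pow_le_pow_of_le_one (by linarith : 0 ≤ 1 - p r) (by linarith) (hbl' y)
              linarith
          _ ≤ ∑ y : Y, (1 - (1 - p r) ^ (univ.filter fun x => ox x = oy y).card) := by
              refine Finset.sum_le_sum_of_subset_of_nonneg (subset_univ _) fun y _ _ => ?_
              have := pow_le_one₀ (n := (univ.filter fun x => ox x = oy y).card)
                (by linarith : 0 ≤ 1 - p r) (by linarith)
              linarith
          _ ≤ D * p (r + 1) := h1 r
          _ ≤ Lf.card * p (r + 1) := mul_le_mul_of_nonneg_right hDLc (hp _).1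
      have hs2 : (∑ y ∈ Lf, ((By y).card : ℝ)) * G r ≤ Lf.card * (G (r + 1) - 1) := by
        have h14 : ∑ y ∈ Lf, ((By y).card : ℝ) ≤
            ∑ y : Y, ((univ.filter fun x => ox x = oy y).card : ℝ) := by
          refine (Finset.sum_le_sum fun y _ => hbl y).trans ?_
          exact Finset.sum_le_sum_of_subset_of_nonneg (subset_univ _) fun y _ _ => by positivity
        exact aux1 hD hDLc (hG r) h14 (Finset.sum_nonneg fun y _ => Nat.cast_nonneg _) (h2 r)
      have hsum : ∑ y ∈ Lf, ((1 - (1 - p r) ^ (By y).card * Q p W) +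
          ((By y).card * G r + g G W) / T + ((T : ℝ) - f) / T) =
          Lf.card * (1 - Q p W) + Q p W * ∑ y ∈ Lf, (1 - (1 - p r) ^ (By y).card) +
          ((∑ y ∈ Lf, ((By y).card : ℝ)) * G r) / T + Lf.card * (g G W / T + ((T : ℝ) - f) / T) := by
        rw [Finset.sum_mul, Finset.mul_sum, Finset.sum_div, ← nsmul_eq_mul, ← nsmul_eq_mul,
          ← Finset.sum_const, ← Finset.sum_const, ← Finset.sum_add_distrib,
          ← Finset.sum_add_distrib, ← Finset.sum_add_distrib]
        refine Finset.sum_congr rfl fun y _ => ?_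
        ring
      have hQc : Q p ((x, r + 1) :: W) = (1 - p (r + 1)) * Q p W := by simp [Q]
      have hgc : g G ((x, r + 1) :: W) = G (r + 1) + g G W := by simp [g]
      have hfin : ∑ y ∈ Lf, ((1 - (1 - p r) ^ (By y).card * Q p W) +
          ((By y).card * G r + g G W) / T + ((T : ℝ) - f) / T) ≤
          Lf.card * ((1 - Q p ((x, r + 1) :: W)) + g G ((x, r + 1) :: W) / T +
            ((T : ℝ) - ((f + 1 : ℕ) : ℝ)) / T) := by
        rw [hsum, hQc, hgc]
        have h19 := mul_le_mul_of_nonneg_left hs1 hQW.1
        have h20 : ((∑ y ∈ Lf, ((By y).card : ℝ)) * G r) / T ≤ Lf.card * (G (r + 1) - 1) / T :=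
          div_le_div_of_nonneg_right hs2 hT0.le
        have h21 := aux2 (L := (Lf.card : ℝ)) (Q := Q p W) (q' := p (r + 1)) (G' := G (r + 1))
          (g := g G W) (f := (f : ℝ)) (gr := 0) hT0.ne'
        rw [mul_zero, add_zero] at h21
        push_cast
        rw [h21]
        linarith
      have hMd : 0 ≤ M / Lf.card := by positivity
      refine (mul_le_mul_of_nonneg_right hfin hMd).trans (le_of_eq ?_)
      field_simp

end

end Run3

/-- **C3** -/
theorem s_run3 : S_RUN3 := by
  intro X Y V _ _ ox oy p G T D F m hT hD hDL hXY hm hp0 hp hG h1 h2 u k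
  classical
  have hT0 : (0 : ℝ) < T := by exact_mod_cast hT
  have hk := Run3.key ox oy p G T D F.card hT hD hDL hXY hp0 hp hG h1 h2 T F m
    ((Finset.univ.filter fun x => ox x = u ∧ x ∉ F).toList.map fun x => (x, k))
    (Finset.univ.filter fun x => ox x ≠ u ∧ x ∉ F) le_rfl le_rfl hm ?_ ?_ ?_
  · set s : Finset X := Finset.univ.filter fun x => ox x = u ∧ x ∉ F with hs
    have hQ := Run3.Q_app p s k ([] : List (X × ℕ))
    have hg := Run3.g_app G s k ([] : List (X × ℕ))
    rw [List.append_nil] at hQ hg
    have hQ0 : Run3.Q p ([] : List (X × ℕ)) = 1 := by simp [Run3.Q]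
    have hg0 : Run3.g G ([] : List (X × ℕ)) = 0 := by simp [Run3.g]
    rw [hQ, hg, hQ0, hg0, sub_self, zero_div, add_zero, add_zero, mul_one] at hk
    refine hk.trans ?_
    refine mul_le_mul_of_nonneg_right ?_ (by positivity)
    have hb : 1 - (1 - p k) ^ s.card ≤ s.card * p k := by
      have h3 := one_add_mul_le_pow (a := -p k) (by linarith [(hp k).2]) s.card
      have h4 : (1 : ℝ) + -p k = 1 - p k := by ring
      rw [h4] at h3
      linarith
    have hc : (s.card : ℝ) ≤ (Finset.univ.filter fun x => ox x = u).card := by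
      have hc' : s ⊆ Finset.univ.filter fun x => ox x = u :=
        fun x hx => mem_filter.2 ⟨mem_univ _, (mem_filter.1 hx).2.1⟩
      exact_mod_cast Finset.card_le_card hc'
    have hnn : 0 ≤ p k + G k / T := add_nonneg (hp k).1 (div_nonneg (hG k) hT0.le)
    calc 1 - (1 - p k) ^ s.card + s.card * G k / T ≤ s.card * p k + s.card * G k / T := by linarith
      _ = s.card * (p k + G k / T) := by ring
      _ ≤ _ := mul_le_mul_of_nonneg_right hc hnn
  · intro a ha
    obtain ⟨x', hx', rfl⟩ := List.mem_map.1 ha
    rw [Finset.mem_toList] at hx'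
    have h12 := mem_filter.1 hx'
    exact ⟨h12.2.2, fun h => (mem_filter.1 h).2.1 h12.2.1⟩
  · rw [List.map_map]
    have h13 : (Prod.fst ∘ fun x' : X => (x', k)) = id := rfl
    rw [h13, List.map_id]
    exact Finset.nodup_toList _
  · rw [Finset.disjoint_left]
    intro z hz h
    exact (mem_filter.1 hz).2.2 h

end Pool.Agent.NH71.DC
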