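import Pool.Agent.NH71.DC.Two

/-!
# Project DC, part B4: the configuration model is simple with probability bounded below
-/

set_option autoImplicit false

open Finset

namespace Pool.Agent.NH71.DC

namespace SimpP

section gen

open Classical

/-- indices of the bad events -/
abbrev Ix (X Y : Type) : Type := (X × Y) ⊕ ((X × Y) × (X × Y))

/-- the partial matching of an index -/
noncomputable def MM {X Y : Type} : Ix X Y → Finset (X × Y)
  | .inl p => {p}
  | .inr r => {r.1, r.2}

/-- bad events -/
def Bad {X Y V : Type} (ox : X → V) (oy : Y → V) : Ix X Y → Prop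
  | .inl p => ox p.1 = oy p.2
  | .inr r => r.1.1 ≠ r.2.1 ∧ r.1.2 ≠ r.2.2 ∧ ox r.1.1 = ox r.2.1 ∧ oy r.1.2 = oy r.2.2

/-- their weights -/
noncomputable def qq {X Y : Type} (L : ℝ) : Ix X Y → ℝ
  | .inl _ => 1 / L
  | .inr _ => 1 / (L * (L - 1))

theorem card_pair {X Y V : Type} [Fintype X] [Fintype Y] [Fintype V] (ox : X → V) (oy : Y → V) :
    (univ.filter fun p : X × Y => ox p.1 = oy p.2).card =
      ∑ v, (univ.filter fun x => ox x = v).card * (univ.filter fun y => oy y = v).card := by
  rw [Finset.card_eq_sum_card_fiberwise (f := fun p => ox p.1) (t := univ)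
    (fun _ _ => Finset.mem_coe.2 (mem_univ _))]
  refine Finset.sum_congr rfl fun v _ => ?_
  rw [← Finset.card_product]
  refine congrArg Finset.card (Finset.ext fun p => ?_)
  simp only [mem_filter, mem_univ, true_and, mem_product]
  constructor
  · rintro ⟨h, h2⟩
    exact ⟨h2, h ▸ h2⟩
  · rintro ⟨h, h2⟩
    exact ⟨h.trans h2.symm, h⟩

theorem card_D {X Y V : Type} [Fintype X] [Fintype Y] [Fintype V] (ox : X → V) (oy : Y → V)
    (x : X) (s : Finset ((X × Y) × (X × Y)))
    (hs : ∀ r ∈ s, (r.1.1 = x ∨ r.2.1 = x) ∧ ox r.1.1 = ox r.2.1 ∧ oy r.1.2 = oy r.2.2) :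
    s.card ≤ 2 * ((univ.filter fun x' => ox x' = ox x).card *
      ∑ v, (univ.filter fun y => oy y = v).card * (univ.filter fun y => oy y = v).card) := by
  have h1 : (s.filter fun r => r.1.1 = x).card ≤ (univ.filter fun x' => ox x' = ox x).card *
      ∑ v, (univ.filter fun y => oy y = v).card * (univ.filter fun y => oy y = v).card := by
    rw [← card_pair oy oy, ← Finset.card_product]
    refine Finset.card_le_card_of_injOn (fun r => (r.2.1, (r.1.2, r.2.2))) ?_ ?_
    · intro r hr
      simp only [coe_filter, Set.mem_ofPred_eq] at hr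
      obtain ⟨hr1, hr2⟩ := hr
      obtain ⟨_, h2, h3⟩ := hs r hr1
      simp only [coe_product, Set.mem_prod, coe_filter, mem_univ, true_and, Set.mem_ofPred_eq]
      exact ⟨by rw [← h2, hr2], h3⟩
    · intro r hr r' hr' h
      simp only [coe_filter, Set.mem_ofPred_eq] at hr hr'
      simp only [Prod.mk.injEq] at h
      exact Prod.ext (Prod.ext (hr.2.trans hr'.2.symm) h.2.1) (Prod.ext h.1 h.2.2)
  have h2 : (s.filter fun r => ¬ r.1.1 = x).card ≤ (univ.filter fun x' => ox x' = ox x).card *
      ∑ v, (univ.filter fun y => oy y = v).card * (univ.filter fun y => oy y = v).card := by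
    rw [← card_pair oy oy, ← Finset.card_product]
    refine Finset.card_le_card_of_injOn (fun r => (r.1.1, (r.1.2, r.2.2))) ?_ ?_
    · intro r hr
      simp only [coe_filter, Set.mem_ofPred_eq] at hr
      obtain ⟨hr1, hr2⟩ := hr
      obtain ⟨h1, h2, h3⟩ := hs r hr1
      have h4 : r.2.1 = x := h1.resolve_left hr2
      simp only [coe_product, Set.mem_prod, coe_filter, mem_univ, true_and, Set.mem_ofPred_eq]
      exact ⟨by rw [h2, h4], h3⟩
    · intro r hr r' hr' h
      simp only [coe_filter, Set.mem_ofPred_eq] at hr hr'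
      simp only [Prod.mk.injEq] at h
      have h4 : r.2.1 = x := (hs r hr.1).1.resolve_left hr.2
      have h5 : r'.2.1 = x := (hs r' hr'.1).1.resolve_left hr'.2
      exact Prod.ext (Prod.ext h.1 h.2.1) (Prod.ext (h4.trans h5.symm) h.2.2)
  have h3 := Finset.card_filter_add_card_filter_not (s := s) (fun r => r.1.1 = x)
  omega

theorem card_D' {X Y V : Type} [Fintype X] [Fintype Y] [Fintype V] (ox : X → V) (oy : Y → V)
    (y : Y) (s : Finset ((X × Y) × (X × Y)))
    (hs : ∀ r ∈ s, (r.1.2 = y ∨ r.2.2 = y) ∧ ox r.1.1 = ox r.2.1 ∧ oy r.1.2 = oy r.2.2) :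
    s.card ≤ 2 * ((univ.filter fun y' => oy y' = oy y).card *
      ∑ v, (univ.filter fun x => ox x = v).card * (univ.filter fun x => ox x = v).card) := by
  have hinj : Function.Injective
      (fun r : (X × Y) × (X × Y) => ((r.1.2, r.1.1), (r.2.2, r.2.1))) := by
    intro r r' h
    simp only [Prod.mk.injEq] at h
    exact Prod.ext (Prod.ext h.1.2 h.1.1) (Prod.ext h.2.2 h.2.1)
  rw [← Finset.card_image_of_injective s hinj]
  refine card_D oy ox y _ fun r hr => ?_
  rw [Finset.mem_image] at hr
  obtain ⟨r', hr', rfl⟩ := hr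
  obtain ⟨h1, h2, h3⟩ := hs r' hr'
  exact ⟨h1, h3, h2⟩

theorem sum_split {X Y : Type} [Fintype X] [Fintype Y] (L : ℝ) (P : Ix X Y → Prop)
    [DecidablePred P] :
    ∑ j ∈ univ.filter P, qq L j = ((univ.filter fun p => P (.inl p)).card : ℝ) / L +
      ((univ.filter fun r => P (.inr r)).card : ℝ) / (L * (L - 1)) := by
  rw [Finset.sum_filter, Fintype.sum_sum_type, ← Finset.sum_filter, ← Finset.sum_filter]
  simp only [qq, Finset.sum_const, nsmul_eq_mul, mul_one_div]

theorem card_MM {X Y V : Type} (ox : X → V) (oy : Y → V) (i : Ix X Y) (hi : Bad ox oy i) :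
    PM (MM i) ∧ ((MM i).image Prod.fst).card ≤ 2 ∧ ((MM i).image Prod.snd).card ≤ 2 := by
  refine ⟨?_, ?_, ?_⟩
  · rcases i with p | r
    · intro a ha b hb
      simp only [MM, mem_singleton] at ha hb
      subst ha
      subst hb
      simp
    · obtain ⟨h1, h2, _⟩ := hi
      intro a ha b hb
      simp only [MM, mem_insert, mem_singleton] at ha hb
      rcases ha with ha | ha <;> rcases hb with hb | hb <;> subst ha <;> subst hb
      · simp
      · exact ⟨fun h => absurd h h1, fun h => absurd h h2⟩
      · exact ⟨fun h => absurd h.symm h1, fun h => absurd h.symm h2⟩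
      · simp
  · refine Finset.card_image_le.trans ?_
    rcases i with p | r
    · simp [MM]
    · exact Finset.card_le_two
  · refine Finset.card_image_le.trans ?_
    rcases i with p | r
    · simp [MM]
    · exact Finset.card_le_two

/-- the generic statement -/
theorem gen (hL : S_LLL) (hP : S_LOP) {X Y V : Type} [Fintype X] [Fintype Y] [Fintype V]
    (ox : X → V) (oy : Y → V) (L : ℕ) (hL5 : 5 ≤ L) (hX : Fintype.card X = L)
    (hY : Fintype.card Y = L) (a b : V → ℕ)
    (ha : ∀ v, (univ.filter fun x => ox x = v).card = a v)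
    (hb : ∀ v, (univ.filter fun y => oy y = v).card = b v)
    (h1 : ∀ v, (b v : ℝ) / L + (2 * ((a v : ℝ) * ∑ w, (b w : ℝ) * b w)) / (L * (L - 1)) ≤ 1 / 16)
    (h2 : ∀ v, (a v : ℝ) / L + (2 * ((b v : ℝ) * ∑ w, (a w : ℝ) * a w)) / (L * (L - 1)) ≤ 1 / 16) :
    Real.exp (-4 * ((∑ v, (a v : ℝ) * b v) / L +
      ((∑ w, (a w : ℝ) * a w) * ∑ w, (b w : ℝ) * b w) / (L * (L - 1)))) * Fintype.card (X ≃ Y) ≤
      (univ.filter fun π : X ≃ Y => (∀ x, oy (π x) ≠ ox x) ∧
        ∀ x y, x ≠ y → ox x = ox y → oy (π x) ≠ oy (π y)).card := by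
  have hLr : (5 : ℝ) ≤ L := by exact_mod_cast hL5
  have hLL : (0 : ℝ) < (L : ℝ) * (L - 1) := mul_pos (by linarith) (by linarith)
  have hq0 : ∀ i : Ix X Y, 0 ≤ qq (L : ℝ) i := by
    intro i
    rcases i with p | r
    · exact div_nonneg zero_le_one (by linarith)
    · exact div_nonneg zero_le_one hLL.le
  have hq4 : ∀ i : Ix X Y, qq (L : ℝ) i ≤ 1 / 4 := by
    intro i
    rcases i with p | r
    · exact one_div_le_one_div_of_le (by norm_num) (by linarith)
    · exact one_div_le_one_div_of_le (by norm_num) (by nlinarith)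
  have : Nonempty (X ≃ Y) := ⟨Fintype.equivOfCardEq (hX.trans hY.symm)⟩
  set I : Finset (Ix X Y) := univ.filter fun i => Bad ox oy i with hI
  have hmem : ∀ i, i ∈ I ↔ Bad ox oy i := fun i => by
    rw [hI, mem_filter]
    simp
  -- the events which contain an out-half-edge
  have hgx : ∀ x : X, ∑ j ∈ I, (if x ∈ (MM j).image Prod.fst then qq (L : ℝ) j else 0) ≤
      1 / 16 := by
    intro x
    rw [← Finset.sum_filter, hI, Finset.filter_filter, sum_split]
    refine le_trans (add_le_add ?_ ?_) (h1 (ox x))
    · refine div_le_div_of_nonneg_right ?_ (by linarith)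
      rw [← hb (ox x)]
      refine Nat.cast_le.2 (Finset.card_le_card_of_injOn (fun p => p.2) ?_ ?_)
      · intro p hp
        simp only [coe_filter, mem_univ, true_and, Set.mem_ofPred_eq, MM, image_singleton,
          mem_singleton, Bad] at hp ⊢
        rw [← hp.1, hp.2]
      · intro p hp p' hp' h
        simp only [coe_filter, mem_univ, true_and, Set.mem_ofPred_eq, MM, image_singleton,
          mem_singleton, Bad] at hp hp'
        exact Prod.ext (hp.2.symm.trans hp'.2) h
    · refine div_le_div_of_nonneg_right ?_ hLL.le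
      have h3 := card_D ox oy x (univ.filter fun r : (X × Y) × (X × Y) =>
        Bad ox oy (Sum.inr r) ∧ x ∈ (MM (Sum.inr r : Ix X Y)).image Prod.fst) (by
          intro r hr
          simp only [mem_filter, mem_univ, true_and, MM, Bad, image_insert, image_singleton,
            mem_insert, mem_singleton] at hr
          exact ⟨hr.2.imp Eq.symm Eq.symm, hr.1.2.2.1, hr.1.2.2.2⟩)
      simp only [ha, hb] at h3
      refine le_trans (Nat.cast_le.2 h3) (le_of_eq ?_)
      push_cast
      ring
  have hgy : ∀ y : Y, ∑ j ∈ I, (if y ∈ (MM j).image Prod.snd then qq (L : ℝ) j else 0) ≤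
      1 / 16 := by
    intro y
    rw [← Finset.sum_filter, hI, Finset.filter_filter, sum_split]
    refine le_trans (add_le_add ?_ ?_) (h2 (oy y))
    · refine div_le_div_of_nonneg_right ?_ (by linarith)
      rw [← ha (oy y)]
      refine Nat.cast_le.2 (Finset.card_le_card_of_injOn (fun p => p.1) ?_ ?_)
      · intro p hp
        simp only [coe_filter, mem_univ, true_and, Set.mem_ofPred_eq, MM, image_singleton,
          mem_singleton, Bad] at hp ⊢
        rw [hp.1, hp.2]
      · intro p hp p' hp' h
        simp only [coe_filter, mem_univ, true_and, Set.mem_ofPred_eq, MM, image_singleton,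
          mem_singleton, Bad] at hp hp'
        exact Prod.ext h (hp.2.symm.trans hp'.2)
    · refine div_le_div_of_nonneg_right ?_ hLL.le
      have h3 := card_D' ox oy y (univ.filter fun r : (X × Y) × (X × Y) =>
        Bad ox oy (Sum.inr r) ∧ y ∈ (MM (Sum.inr r : Ix X Y)).image Prod.snd) (by
          intro r hr
          simp only [mem_filter, mem_univ, true_and, MM, Bad, image_insert, image_singleton,
            mem_insert, mem_singleton] at hr
          exact ⟨hr.2.imp Eq.symm Eq.symm, hr.1.2.2.1, hr.1.2.2.2⟩)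
      simp only [ha, hb] at h3
      refine le_trans (Nat.cast_le.2 h3) (le_of_eq ?_)
      push_cast
      ring
  have key := hL (X ≃ Y) (Ix X Y) (fun i π => Ev (MM i) π) I (fun i j => ¬ PM (MM i ∪ MM j))
    (qq (L : ℝ)) (fun i _ => ⟨hq0 i, hq4 i⟩)
    (by
      intro i hi
      obtain ⟨hPM, hc1, hc2⟩ := card_MM ox oy i ((hmem i).1 hi)
      refine le_trans (le_of_eq (Finset.sum_congr (Finset.ext fun j => ?_) fun _ _ => rfl))
        (?_ : ∑ j ∈ I.filter (fun j => ¬ PM (MM i ∪ MM j)), qq (L : ℝ) j ≤ 1 / 4)
      · simp only [mem_filter]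
      calc ∑ j ∈ I.filter (fun j => ¬ PM (MM i ∪ MM j)), qq (L : ℝ) j
          ≤ ∑ j ∈ I.filter (fun j => ¬ PM (MM i ∪ MM j)),
            (∑ x ∈ (MM i).image Prod.fst,
                (if x ∈ (MM j).image Prod.fst then qq (L : ℝ) j else 0) +
              ∑ y ∈ (MM i).image Prod.snd,
                (if y ∈ (MM j).image Prod.snd then qq (L : ℝ) j else 0)) := by
            refine Finset.sum_le_sum fun j hj => ?_
            rw [mem_filter] at hj
            obtain ⟨hj1, hj2⟩ := hj
            have hPMj := (card_MM ox oy j ((hmem j).1 hj1)).1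
            have hx0 : ∀ x ∈ (MM i).image Prod.fst,
                0 ≤ (if x ∈ (MM j).image Prod.fst then qq (L : ℝ) j else 0) := by
              intro x _
              split_ifs
              · exact hq0 j
              · exact le_rfl
            have hy0 : ∀ y ∈ (MM i).image Prod.snd,
                0 ≤ (if y ∈ (MM j).image Prod.snd then qq (L : ℝ) j else 0) := by
              intro y _
              split_ifs
              · exact hq0 j
              · exact le_rfl
            have hor : (∃ x ∈ (MM i).image Prod.fst, x ∈ (MM j).image Prod.fst) ∨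
                ∃ y ∈ (MM i).image Prod.snd, y ∈ (MM j).image Prod.snd := by
              by_contra hcon
              rw [not_or] at hcon
              obtain ⟨hn1, hn2⟩ := hcon
              have hm1 : ∀ a ∈ MM i, ∀ b ∈ MM j, a.1 ≠ b.1 := fun a ha' b hb' h =>
                hn1 ⟨a.1, Finset.mem_image_of_mem _ ha', by rw [h]; exact mem_image_of_mem _ hb'⟩
              have hm2 : ∀ a ∈ MM i, ∀ b ∈ MM j, a.2 ≠ b.2 := fun a ha' b hb' h =>
                hn2 ⟨a.2, Finset.mem_image_of_mem _ ha', by rw [h]; exact mem_image_of_mem _ hb'⟩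
              refine hj2 fun a ha' b hb' => ?_
              rw [mem_union] at ha' hb'
              rcases ha' with ha' | ha' <;> rcases hb' with hb' | hb'
              · exact hPM a ha' b hb'
              · exact ⟨fun h => absurd h (hm1 a ha' b hb'), fun h => absurd h (hm2 a ha' b hb')⟩
              · exact ⟨fun h => absurd h.symm (hm1 b hb' a ha'),
                  fun h => absurd h.symm (hm2 b hb' a ha')⟩
              · exact hPMj a ha' b hb'
            rcases hor with ⟨x, hx, hx'⟩ | ⟨y, hy, hy'⟩
            · refine le_trans ?_ (le_add_of_nonneg_right (Finset.sum_nonneg hy0))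
              refine le_trans ?_ (Finset.single_le_sum hx0 hx)
              rw [if_pos hx']
            · refine le_trans ?_ (le_add_of_nonneg_left (Finset.sum_nonneg hx0))
              refine le_trans ?_ (Finset.single_le_sum hy0 hy)
              rw [if_pos hy']
        _ ≤ ∑ j ∈ I,
            (∑ x ∈ (MM i).image Prod.fst,
                (if x ∈ (MM j).image Prod.fst then qq (L : ℝ) j else 0) +
              ∑ y ∈ (MM i).image Prod.snd,
                (if y ∈ (MM j).image Prod.snd then qq (L : ℝ) j else 0)) := by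
            refine Finset.sum_le_sum_of_subset_of_nonneg (Finset.filter_subset _ _) ?_
            intro j _ _
            refine add_nonneg (Finset.sum_nonneg fun x _ => ?_) (Finset.sum_nonneg fun y _ => ?_)
            · split_ifs
              · exact hq0 j
              · exact le_rfl
            · split_ifs
              · exact hq0 j
              · exact le_rfl
        _ = ∑ x ∈ (MM i).image Prod.fst, ∑ j ∈ I,
                (if x ∈ (MM j).image Prod.fst then qq (L : ℝ) j else 0) +
              ∑ y ∈ (MM i).image Prod.snd, ∑ j ∈ I,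
                (if y ∈ (MM j).image Prod.snd then qq (L : ℝ) j else 0) := by
            rw [Finset.sum_add_distrib]
            refine congrArg₂ (· + ·) Finset.sum_comm Finset.sum_comm
        _ ≤ ∑ x ∈ (MM i).image Prod.fst, (1 / 16 : ℝ) + ∑ y ∈ (MM i).image Prod.snd, (1 / 16 : ℝ) :=
            add_le_add (Finset.sum_le_sum fun x _ => hgx x) (Finset.sum_le_sum fun y _ => hgy y)
        _ ≤ 1 / 4 := by
            rw [Finset.sum_const, Finset.sum_const, nsmul_eq_mul, nsmul_eq_mul]
            have e1 : (((MM i).image Prod.fst).card : ℝ) ≤ 2 := by exact_mod_cast hc1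
            have e2 : (((MM i).image Prod.snd).card : ℝ) ≤ 2 := by exact_mod_cast hc2
            linarith)
    (by
      intro i hi S hS hiS hnb
      obtain ⟨hPM, hc1, hc2⟩ := card_MM ox oy i ((hmem i).1 hi)
      have h3 := hP X Y (MM i) (S.image MM) (hX.trans hY.symm) hPM (by
        intro N hN
        rw [mem_image] at hN
        obtain ⟨j, hj, rfl⟩ := hN
        exact not_not.1 (hnb j hj))
      have e1 : (univ.filter fun π : X ≃ Y => Ev (MM i) π ∧ ∀ N ∈ S.image MM, ¬ Ev N π) =
          univ.filter fun π : X ≃ Y => Ev (MM i) π ∧ ∀ j ∈ S, ¬ Ev (MM j) π := by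
        refine Finset.filter_congr fun π _ => ?_
        simp only [mem_image, forall_exists_index, and_imp, forall_apply_eq_imp_iff₂]
      have e2 : (univ.filter fun π : X ≃ Y => ∀ N ∈ S.image MM, ¬ Ev N π) =
          univ.filter fun π : X ≃ Y => ∀ j ∈ S, ¬ Ev (MM j) π := by
        refine Finset.filter_congr fun π _ => ?_
        simp only [mem_image, forall_exists_index, and_imp, forall_apply_eq_imp_iff₂]
      rw [e1, e2, hX] at h3
      have hfac : ((L - (MM i).card).factorial : ℝ) ≤ qq (L : ℝ) i * L.factorial := by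
        rcases i with p | r
        · have hc : (MM (Sum.inl p : Ix X Y)).card = 1 := by simp [MM]
          rw [hc]
          obtain ⟨m, rfl⟩ : ∃ m, L = m + 1 := ⟨L - 1, by omega⟩
          rw [Nat.add_sub_cancel, Nat.factorial_succ]
          refine le_of_eq ?_
          show _ = 1 / ((m + 1 : ℕ) : ℝ) * _
          have : ((m + 1 : ℕ) : ℝ) ≠ 0 := by positivity
          rw [Nat.cast_mul]
          field_simp
        · obtain ⟨hne, _, _⟩ := (hmem _).1 hi
          have hc : (MM (Sum.inr r : Ix X Y)).card = 2 := by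
            show ({r.1, r.2} : Finset (X × Y)).card = 2
            exact Finset.card_pair fun h => hne (by rw [h])
          rw [hc]
          obtain ⟨m, rfl⟩ : ∃ m, L = m + 2 := ⟨L - 2, by omega⟩
          rw [Nat.add_sub_cancel, Nat.factorial_succ, Nat.factorial_succ]
          refine le_of_eq ?_
          show _ = 1 / (((m + 2 : ℕ) : ℝ) * (((m + 2 : ℕ) : ℝ) - 1)) * _
          have e3 : ((m + 2 : ℕ) : ℝ) ≠ 0 := by positivity
          have e4 : ((m + 2 : ℕ) : ℝ) - 1 = ((m + 1 : ℕ) : ℝ) := by push_cast; ring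
          have e5 : ((m + 1 : ℕ) : ℝ) ≠ 0 := by positivity
          rw [e4, Nat.cast_mul, Nat.cast_mul]
          field_simp
      have hL0 : (0 : ℝ) < (L.factorial : ℝ) := by exact_mod_cast L.factorial_pos
      have h4 : ((univ.filter fun π : X ≃ Y => Ev (MM i) π ∧ ∀ j ∈ S, ¬ Ev (MM j) π).card : ℝ) *
          L.factorial ≤ (qq (L : ℝ) i *
            (univ.filter fun π : X ≃ Y => ∀ j ∈ S, ¬ Ev (MM j) π).card) * L.factorial := by
        refine h3.trans ?_
        refine (mul_le_mul_of_nonneg_right hfac (Nat.cast_nonneg _)).trans (le_of_eq ?_)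
        ring
      refine le_trans (le_of_eq ?_) ((le_of_mul_le_mul_right h4 hL0).trans (le_of_eq ?_))
      · refine congrArg (fun s : Finset _ => (s.card : ℝ)) (Finset.ext fun π => ?_)
        simp only [mem_filter, mem_univ, true_and]
      · refine congrArg (fun t : ℝ => qq (L : ℝ) i * t) ?_
        refine congrArg (fun s : Finset _ => (s.card : ℝ)) (Finset.ext fun π => ?_)
        simp only [mem_filter, mem_univ, true_and])
  refine le_trans ?_ (key.trans ?_)
  · refine mul_le_mul_of_nonneg_right (Real.exp_le_exp.2 ?_) (Nat.cast_nonneg _)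
    have h5 : ∑ i ∈ I, qq (L : ℝ) i ≤ (∑ v, (a v : ℝ) * b v) / L +
        ((∑ w, (a w : ℝ) * a w) * ∑ w, (b w : ℝ) * b w) / (L * (L - 1)) := by
      rw [hI, sum_split]
      refine add_le_add ?_ ?_
      · refine div_le_div_of_nonneg_right (le_of_eq ?_) (by linarith)
        have := card_pair ox oy
        simp only [ha, hb] at this
        rw [show (univ.filter fun p : X × Y => Bad ox oy (Sum.inl p)) =
          univ.filter fun p : X × Y => ox p.1 = oy p.2 from rfl, this]
        push_cast
        rfl
      · refine div_le_div_of_nonneg_right ?_ hLL.le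
        have e1 := card_pair ox ox
        have e2 := card_pair oy oy
        simp only [ha] at e1
        simp only [hb] at e2
        have e3 : (univ.filter fun r : (X × Y) × (X × Y) => Bad ox oy (Sum.inr r)).card ≤
            ((univ.filter fun p : X × X => ox p.1 = ox p.2) ×ˢ
              (univ.filter fun p : Y × Y => oy p.1 = oy p.2)).card := by
          refine Finset.card_le_card_of_injOn (fun r => ((r.1.1, r.2.1), (r.1.2, r.2.2))) ?_ ?_
          · intro r hr
            simp only [coe_filter, mem_univ, true_and, Set.mem_ofPred_eq, Bad] at hr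
            simp only [coe_product, Set.mem_prod, coe_filter, mem_univ, true_and,
              Set.mem_ofPred_eq]
            exact ⟨hr.2.2.1, hr.2.2.2⟩
          · intro r _ r' _ h
            simp only [Prod.mk.injEq] at h
            exact Prod.ext (Prod.ext h.1.1 h.2.1) (Prod.ext h.1.2 h.2.2)
        rw [Finset.card_product, e1, e2] at e3
        refine (Nat.cast_le.2 e3).trans (le_of_eq ?_)
        push_cast
        rfl
    linarith
  · refine Nat.cast_le.2 (Finset.card_le_card fun π hπ => ?_)
    simp only [mem_filter, mem_univ, true_and] at hπ ⊢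
    constructor
    · intro x hx
      refine hπ (Sum.inl (x, π x)) ((hmem _).2 hx.symm) ?_
      intro p hp
      simp only [MM, mem_singleton] at hp
      subst hp
      rfl
    · intro x y hxy h h'
      refine hπ (Sum.inr ((x, π x), (y, π y))) ((hmem _).2
        ⟨hxy, fun e => hxy (π.injective e), h, h'⟩) ?_
      intro p hp
      simp only [MM, mem_insert, mem_singleton] at hp
      rcases hp with hp | hp <;> subst hp <;> rfl

end gen

end SimpP

/-- B4 -/
theorem s_simp : S_SIMP := by
  intro hL hP A c hA hc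
  classical
  set K : ℝ := Real.sqrt A * (1 / c + 4 * A / c ^ 2) with hK
  have hK0 : 0 < K := by positivity
  refine ⟨Real.exp (-4 * (A / c + 2 * A ^ 2 / c ^ 2)), Real.exp_pos _,
    ⌈(16 * K) ^ 2⌉₊ + ⌈5 / c⌉₊ + 1, fun n hn d hd => ?_⟩
  have hn1 : 1 ≤ n := by omega
  have hn0 : (0 : ℝ) < n := by exact_mod_cast hn1
  have hnK : (16 * K) ^ 2 ≤ n := (Nat.le_ceil _).trans (by exact_mod_cast (by omega))
  have hn5 : 5 / c ≤ n := (Nat.le_ceil _).trans (by exact_mod_cast (by omega))
  have hcn : 5 ≤ c * n := by
    rw [div_le_iff₀ hc] at hn5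
    linarith
  have hsK : 16 * K ≤ Real.sqrt n := Real.le_sqrt_of_sq_le hnK
  have hs0 : 0 < Real.sqrt n := Real.sqrt_pos.2 hn0
  set L : ℕ := ∑ i, (d i).1 with hLdef
  have hLr : (L : ℝ) = ∑ i, ((d i).1 : ℝ) := by rw [hLdef]; push_cast; rfl
  have hlow : c * n ≤ L := by rw [hLr]; exact hd.low
  have hL5 : 5 ≤ L := by exact_mod_cast (hcn.trans hlow)
  have hL5r : (5 : ℝ) ≤ L := by exact_mod_cast hL5
  have hLL : c ^ 2 * n ^ 2 / 2 ≤ (L : ℝ) * (L - 1) := by
    have h1 : c ^ 2 * n ^ 2 ≤ (L : ℝ) ^ 2 := by
      rw [← mul_pow]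
      exact pow_le_pow_left₀ (by positivity) hlow 2
    nlinarith
  have hLL0 : 0 < (L : ℝ) * (L - 1) := lt_of_lt_of_le (by positivity) hLL
  have hin : ∑ i, (((d i).1 : ℝ) * (d i).1) ≤ A * n := by
    refine le_trans (Finset.sum_le_sum fun i _ => ?_) hd.sq
    nlinarith [sq_nonneg ((d i).2 : ℝ)]
  have hout : ∑ i, (((d i).2 : ℝ) * (d i).2) ≤ A * n := by
    refine le_trans (Finset.sum_le_sum fun i _ => ?_) hd.sq
    nlinarith [sq_nonneg ((d i).1 : ℝ)]
  have hprod : ∑ i, (((d i).2 : ℝ) * (d i).1) ≤ A * n := by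
    refine le_trans (Finset.sum_le_sum fun i _ => ?_) hd.sq
    nlinarith [sq_nonneg (((d i).1 : ℝ) - (d i).2), sq_nonneg ((d i).1 : ℝ),
      sq_nonneg ((d i).2 : ℝ)]
  have hin0 : 0 ≤ ∑ i, (((d i).1 : ℝ) * (d i).1) := Finset.sum_nonneg fun i _ => by positivity
  have hout0 : 0 ≤ ∑ i, (((d i).2 : ℝ) * (d i).2) := Finset.sum_nonneg fun i _ => by positivity
  have hi1 : ∀ v, ((d v).1 : ℝ) ≤ Real.sqrt (A * n) := fun v =>
    Real.le_sqrt_of_sq_le (le_trans (by
      have := Finset.single_le_sum (f := fun i => ((d i).1 : ℝ) * (d i).1)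
        (fun i _ => by positivity) (Finset.mem_univ v)
      rw [pow_two]
      exact this) hin)
  have ho1 : ∀ v, ((d v).2 : ℝ) ≤ Real.sqrt (A * n) := fun v =>
    Real.le_sqrt_of_sq_le (le_trans (by
      have := Finset.single_le_sum (f := fun i => ((d i).2 : ℝ) * (d i).2)
        (fun i _ => by positivity) (Finset.mem_univ v)
      rw [pow_two]
      exact this) hout)
  -- the smallness condition
  have hsmall : ∀ a b s : ℝ, 0 ≤ a → 0 ≤ b → 0 ≤ s → a ≤ Real.sqrt (A * n) →
      b ≤ Real.sqrt (A * n) → s ≤ A * n → b / L + (2 * (a * s)) / (L * (L - 1)) ≤ 1 / 16 := by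
    intro a b s ha hb hs ha' hb' hs'
    have e1 : b / L ≤ Real.sqrt (A * n) / (c * n) :=
      div_le_div₀ (Real.sqrt_nonneg _) hb' (by positivity) hlow
    have e2 : (2 * (a * s)) / (L * (L - 1)) ≤
        (2 * (Real.sqrt (A * n) * (A * n))) / (c ^ 2 * n ^ 2 / 2) := by
      refine div_le_div₀ (by positivity) ?_ (by positivity) hLL
      exact mul_le_mul_of_nonneg_left (mul_le_mul ha' hs' hs (Real.sqrt_nonneg _)) (by norm_num)
    have e3 : Real.sqrt (A * n) / (c * n) +
        (2 * (Real.sqrt (A * n) * (A * n))) / (c ^ 2 * n ^ 2 / 2) = K / Real.sqrt n := by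
      rw [Real.sqrt_mul hA.le, hK]
      have hnn : (n : ℝ) = Real.sqrt n * Real.sqrt n := (Real.mul_self_sqrt hn0.le).symm
      rw [hnn, Real.sqrt_mul_self hs0.le]
      field_simp
      ring
    have e4 : K / Real.sqrt n ≤ 1 / 16 := by
      rw [div_le_iff₀ hs0]
      linarith
    linarith
  have hgen := SimpP.gen hL hP (X := HO d) (Y := HI d) (fun x : HO d => x.1) (fun y : HI d => y.1)
    L hL5 (by rw [Two.card_sig]; exact hd.bal.symm) (by rw [Two.card_sig])
    (fun v => (d v).2) (fun v => (d v).1)
    (fun v => by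
      refine Eq.trans (congrArg Finset.card (Finset.ext fun x => ?_))
        (Two.card_own (fun i => (d i).2) v)
      simp only [mem_filter, mem_univ, true_and])
    (fun v => by
      refine Eq.trans (congrArg Finset.card (Finset.ext fun x => ?_))
        (Two.card_own (fun i => (d i).1) v)
      simp only [mem_filter, mem_univ, true_and])
    (fun v => hsmall _ _ _ (Nat.cast_nonneg _) (Nat.cast_nonneg _) hin0 (ho1 v) (hi1 v) hin)
    (fun v => hsmall _ _ _ (Nat.cast_nonneg _) (Nat.cast_nonneg _) hout0 (hi1 v) (ho1 v) hout)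
  refine le_trans ?_ (hgen.trans (le_of_eq ?_))
  · refine mul_le_mul (Real.exp_le_exp.2 ?_)
      (le_of_eq (congrArg (fun inst : Fintype (HO d ≃ HI d) => ((@Fintype.card _ inst : ℕ) : ℝ))
        (Subsingleton.elim _ _))) (Nat.cast_nonneg _)
      (Real.exp_pos _).le
    have e1 : (∑ v, ((d v).2 : ℝ) * (d v).1) / L ≤ A / c := by
      refine le_trans (div_le_div₀ (by positivity) hprod (by positivity) hlow) (le_of_eq ?_)
      field_simp
    have e2 : ((∑ w, ((d w).2 : ℝ) * (d w).2) * ∑ w, ((d w).1 : ℝ) * (d w).1) / (L * (L - 1)) ≤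
        2 * A ^ 2 / c ^ 2 := by
      refine le_trans (div_le_div₀ (by positivity)
        (mul_le_mul hout hin hin0 (by positivity)) (by positivity) hLL) (le_of_eq ?_)
      field_simp
    linarith
  · refine congrArg (fun s : Finset _ => (s.card : ℝ)) (Finset.ext fun π => ?_)
    simp only [mem_filter, mem_univ, true_and, Simp]

end Pool.Agent.NH71.DC
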