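import Pool.Agent.NH71.DC.Base

/-!
# Project DC, D4: vertices with both depths large
-/

set_option autoImplicit false

namespace Pool.Agent.NH71.DC

namespace Split

theorem walk_mono {V : Type} {R R' : V → V → Prop} (h : ∀ i j, R i j → R' i j) {m : ℕ} {u v : V}
    (w : Walk R m u v) : Walk R' m u v := by
  induction w with
  | nil v => exact Walk.nil v
  | cons h1 _ ih => exact Walk.cons (h _ _ h1) ih

theorem walk_rev {V : Type} {R R' : V → V → Prop} (h : ∀ i j, R i j → R' j i) {m : ℕ} {u v : V}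
    (w : Walk R m u v) : Walk R' m v u := by
  induction w with
  | nil v => exact Walk.nil v
  | cons h1 _ ih => exact Base.walk_append ih (Walk.cons (h _ _ h1) (Walk.nil _))

variable {n : ℕ} {d : DS n}

theorem arc_of {π : Cf d} {F : Finset (HO d)} (i j : Fin n)
    (h : ArcF (fun x : HO d => x.1) (fun y : HI d => y.1) π F i j) : Arc π i j := by
  obtain ⟨x, -, h1, h2⟩ := h
  exact ⟨x, h1, h2⟩

theorem to_arc {π : Cf d} (i j : Fin n) (h : Arc π i j) :
    ArcF (fun x : HO d => x.1) (fun y : HI d => y.1) π ∅ i j := by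
  obtain ⟨x, h1, h2⟩ := h
  exact ⟨x, Finset.notMem_empty x, h1, h2⟩

theorem arc_rev {π : Cf d} {F : Finset (HI d)} (i j : Fin n)
    (h : ArcF (fun y : HI d => y.1) (fun x : HO d => x.1) π.symm F i j) : Arc π j i := by
  obtain ⟨y, -, h1, h2⟩ := h
  exact ⟨π.symm y, h2, by rw [Equiv.apply_symm_apply]; exact h1⟩

/-- the path backwards, or a revealed half-edge -/
theorem back (π : Cf d) (R : Finset (HO d)) {m : ℕ} {v u : Fin n} (w : Walk (Arc π) m v u) :
    Walk (ArcF (fun y : HI d => y.1) (fun x : HO d => x.1) π.symm (R.map π.toEmbedding)) m u v ∨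
    ∃ (x : HO d) (l : ℕ), x ∈ R ∧ 1 ≤ l ∧ l ≤ m ∧ Walk (Arc π) l x.1 u := by
  induction w with
  | nil v => exact Or.inl (Walk.nil v)
  | cons h1 h2 ih =>
    rename_i m v b u
    rcases ih with ih | ⟨x, l, hx, hl1, hl2, hw⟩
    · obtain ⟨x, e1, e2⟩ := h1
      by_cases hx : x ∈ R
      · right
        refine ⟨x, m + 1, hx, by omega, le_refl _, ?_⟩
        exact Walk.cons ⟨x, _root_.rfl, e2⟩ h2
      · left
        refine Base.walk_append ih (Walk.cons ⟨π x, ?_, e2, ?_⟩ (Walk.nil _))
        · rw [Finset.mem_map]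
          rintro ⟨x', hx', h3⟩
          have : x' = x := π.injective h3
          exact hx (this ▸ hx')
        · show (π.symm (π x)).1 = v
          rw [Equiv.symm_apply_apply]
          exact e1
    · exact Or.inr ⟨x, l, hx, hl1, by omega, hw⟩

theorem cyc_mono {π : Cf d} {u : Fin n} {K K' : ℕ} (h : K ≤ K') (hc : Cyc π u K) :
    Cyc π u K' := by
  obtain ⟨l, h1, h2, h3⟩ := hc
  exact ⟨l, h1, h2.trans h, h3⟩

end Split

theorem s_split : S_SPLIT := by
  intro h1 h2 h3 n d π k T u ⟨v', hv'⟩ ⟨w', hw'⟩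
  have ho : (oE k T π u).1 = false := by
    by_contra hcon
    have ht : (oE k T π u).1 = true := by
      cases h : (oE k T π u).1
      · exact absurd h hcon
      · rfl
    obtain ⟨m', hm', hw⟩ := h1 (HO d) (HI d) (Fin n) (fun x : HO d => x.1) (fun y : HI d => y.1) π
      k T u ∅ ht (k + 1) w' (Split.walk_mono Split.to_arc hw'.1)
    exact hw'.2 m' (by omega) (Split.walk_mono Split.arc_of hw)
  by_cases hi : (iE k T π u).1 = false
  · exact Or.inl ⟨ho, hi⟩
  · right
    have ht : (iE k T π u).1 = true := by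
      cases h : (iE k T π u).1
      · exact absurd h hi
      · rfl
    rcases Split.back π (oE k T π u).2 hv'.1 with hb | ⟨x, l, hx, hl1, hl2, hw⟩
    · exfalso
      obtain ⟨m', hm', hw⟩ := h1 (HI d) (HO d) (Fin n) (fun y : HI d => y.1)
        (fun x : HO d => x.1) π.symm k T u ((oE k T π u).2.map π.toEmbedding) ht (k + 1) v' hb
      exact hv'.2 m' (by omega) (Split.walk_rev Split.arc_rev hw)
    · obtain ⟨-, hr, -⟩ := h2 (HO d) (HI d) (Fin n) (fun x : HO d => x.1) (fun y : HI d => y.1) π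
        k T u ∅
      obtain ⟨-, m, hm, hwu⟩ := hr x hx
      have h4 : Walk (Arc π) m u x.1 := Split.walk_mono Split.arc_of hwu
      exact Split.cyc_mono (by omega) (h3 n d π u x.1 m l (by omega) h4 hw)

end Pool.Agent.NH71.DC
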