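import Pool.Agent.NH71.DC.Stm

/-!
# Project DC, part A4: Markov and Chebyshev for the conditioned sequence

Proof of `Pool.Agent.NH71.DC.S_SUMS` (helper45).
-/

set_option autoImplicit false

open MeasureTheory ProbabilityTheory Filter Topology
open scoped ENNReal

namespace Pool.Agent.NH71.DC

namespace SumsP

/-- split the sum in two halves -/
theorem half_split (ν : Measure (ℕ × ℕ)) (K : ℝ) (n : ℕ) (h2 : 2 ≤ n)
    (hK : ∀ (H : Finset (Fin n)) (E : Set (DS n)), n ≤ 3 * Hᶜ.card →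
      (∀ d d' : DS n, (∀ i ∈ H, d i = d' i) → (d ∈ E ↔ d' ∈ E)) →
      PB ν n E ≤ ENNReal.ofReal K * PP ν n E)
    (G : Finset (Fin n) → Set (DS n))
    (hG : ∀ H, ∀ d d' : DS n, (∀ i ∈ H, d i = d' i) → (d ∈ G H ↔ d' ∈ G H)) (η : ℝ≥0∞)
    (hη : ∀ H, PP ν n (G H) ≤ η) (E : Set (DS n)) (hE : ∀ H, E ⊆ G H ∪ G Hᶜ) :
    PB ν n E ≤ 2 * (ENNReal.ofReal K * η) := by
  obtain ⟨H, -, hH⟩ : ∃ H ⊆ (Finset.univ : Finset (Fin n)), H.card = n / 2 :=
    Finset.exists_subset_card_eq (by rw [Finset.card_univ, Fintype.card_fin]; omega)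
  have hHc : Hᶜ.card = n - n / 2 := by rw [Finset.card_compl, Fintype.card_fin, hH]
  calc PB ν n E ≤ PB ν n (G H ∪ G Hᶜ) := measure_mono (hE H)
    _ ≤ PB ν n (G H) + PB ν n (G Hᶜ) := measure_union_le _ _
    _ ≤ ENNReal.ofReal K * PP ν n (G H) + ENNReal.ofReal K * PP ν n (G Hᶜ) := by
        apply add_le_add
        · exact hK H _ (by rw [hHc]; omega) (hG H)
        · exact hK Hᶜ _ (by rw [compl_compl, hH]; omega) (hG Hᶜ)
    _ ≤ ENNReal.ofReal K * η + ENNReal.ofReal K * η := by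
        gcongr
        · exact hη H
        · exact hη Hᶜ
    _ = 2 * (ENNReal.ofReal K * η) := (two_mul _).symm

theorem markov (ν : Measure (ℕ × ℕ)) [IsProbabilityMeasure ν] (n : ℕ) (h : ℕ × ℕ → ℝ)
    (h0 : ∀ x, 0 ≤ h x) (hi : Integrable h ν) (H : Finset (Fin n)) (a : ℝ) (ha : 0 < a) :
    PP ν n {d | a < ∑ i ∈ H, h (d i)} ≤ ENNReal.ofReal (n * (∫ x, h x ∂ν) / a) := by
  have : IsProbabilityMeasure (PP ν n) := by unfold PP; infer_instance
  have hmp : ∀ i : Fin n, MeasurePreserving (fun d : DS n => d i) (PP ν n) ν := fun i =>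
    measurePreserving_eval (fun _ : Fin n => ν) i
  have hint : ∀ i : Fin n, Integrable (fun d : DS n => h (d i)) (PP ν n) := fun i =>
    (hmp i).integrable_comp_of_integrable hi
  have hval : ∀ i : Fin n, ∫ d, h (d i) ∂(PP ν n) = ∫ x, h x ∂ν := by
    intro i
    have := integral_map (μ := PP ν n) (hmp i).measurable.aemeasurable (f := h)
      (Measurable.of_discrete (f := h)).aestronglyMeasurable
    rw [(hmp i).map_eq] at this
    exact this.symm
  have h1 := mul_meas_ge_le_integral_of_nonneg (μ := PP ν n)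
    (f := fun d : DS n => ∑ i ∈ H, h (d i))
    (Eventually.of_forall fun d => Finset.sum_nonneg fun i _ => h0 _)
    (integrable_finsetSum _ fun i _ => hint i) a
  rw [integral_finsetSum _ fun i _ => hint i, Finset.sum_congr rfl (fun i _ => hval i),
    Finset.sum_const, nsmul_eq_mul] at h1
  have hM : 0 ≤ ∫ x, h x ∂ν := integral_nonneg h0
  have hcard : (H.card : ℝ) ≤ n := by
    have := Finset.card_le_univ H
    rw [Fintype.card_fin] at this
    exact_mod_cast this
  have h2 : (PP ν n).real {d | a ≤ ∑ i ∈ H, h (d i)} ≤ n * (∫ x, h x ∂ν) / a := by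
    rw [le_div_iff₀ ha, mul_comm]
    exact h1.trans (by gcongr)
  calc PP ν n {d | a < ∑ i ∈ H, h (d i)} ≤ PP ν n {d | a ≤ ∑ i ∈ H, h (d i)} :=
        measure_mono fun d (hd : a < ∑ i ∈ H, h (d i)) => le_of_lt hd
    _ = ENNReal.ofReal ((PP ν n).real {d | a ≤ ∑ i ∈ H, h (d i)}) := by
        rw [measureReal_def, ENNReal.ofReal_toReal (measure_ne_top _ _)]
    _ ≤ _ := ENNReal.ofReal_le_ofReal h2

theorem cheb (ν : Measure (ℕ × ℕ)) [IsProbabilityMeasure ν] (n : ℕ) (h : ℕ × ℕ → ℝ)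
    (hi : MemLp h 2 ν) (H : Finset (Fin n)) (a : ℝ) (ha : 0 < a) :
    PP ν n {d | a < |∑ i ∈ H, (h (d i) - ∫ x, h x ∂ν)|} ≤
      ENNReal.ofReal (n * Var[h; ν] / a ^ 2) := by
  have : IsProbabilityMeasure (PP ν n) := by unfold PP; infer_instance
  have hmp : ∀ i : Fin n, MeasurePreserving (fun d : DS n => d i) (PP ν n) ν := fun i =>
    measurePreserving_eval (fun _ : Fin n => ν) i
  have hmeas : Measurable h := Measurable.of_discrete
  have hL : ∀ i : Fin n, MemLp (fun d : DS n => h (d i)) 2 (PP ν n) := fun i =>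
    hi.comp_measurePreserving (hmp i)
  have hint : ∀ i : Fin n, Integrable (fun d : DS n => h (d i)) (PP ν n) := fun i =>
    (hL i).integrable (by norm_num)
  have hval : ∀ i : Fin n, ∫ d, h (d i) ∂(PP ν n) = ∫ x, h x ∂ν := by
    intro i
    have := integral_map (μ := PP ν n) (hmp i).measurable.aemeasurable (f := h) hmeas.aestronglyMeasurable
    rw [(hmp i).map_eq] at this
    exact this.symm
  have hind : iIndepFun (fun (i : Fin n) (d : DS n) => h (d i)) (PP ν n) :=
    iIndepFun_pi (μ := fun _ : Fin n => ν) (X := fun _ => h) (fun _ => hmeas.aemeasurable)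
  have hvar : Var[∑ i ∈ H, fun d : DS n => h (d i); PP ν n] = H.card * Var[h; ν] := by
    rw [IndepFun.variance_sum (fun i _ => hL i) (fun i _ j _ hij => hind.indepFun hij)]
    rw [Finset.sum_congr rfl (fun i _ => (hmp i).variance_fun_comp hmeas.aemeasurable),
      Finset.sum_const, nsmul_eq_mul]
  have hmean : ∫ d, (∑ i ∈ H, fun d : DS n => h (d i)) d ∂(PP ν n) =
      H.card * ∫ x, h x ∂ν := by
    have : ∀ d : DS n, (∑ i ∈ H, fun d : DS n => h (d i)) d = ∑ i ∈ H, h (d i) := fun d => by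
      rw [Finset.sum_apply]
    simp_rw [this]
    rw [integral_finsetSum _ fun i _ => hint i, Finset.sum_congr rfl (fun i _ => hval i),
      Finset.sum_const, nsmul_eq_mul]
  have h1 := meas_ge_le_variance_div_sq (μ := PP ν n)
    (X := ∑ i ∈ H, fun d : DS n => h (d i)) (memLp_finsetSum' _ fun i _ => hL i) ha
  rw [hvar, hmean] at h1
  have hcard : (H.card : ℝ) ≤ n := by
    have := Finset.card_le_univ H
    rw [Fintype.card_fin] at this
    exact_mod_cast this
  refine le_trans (measure_mono ?_) (h1.trans (ENNReal.ofReal_le_ofReal ?_))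
  · intro d hd
    have hd' : a < |∑ i ∈ H, (h (d i) - ∫ x, h x ∂ν)| := hd
    show a ≤ |(∑ i ∈ H, fun d : DS n => h (d i)) d - H.card * ∫ x, h x ∂ν|
    rw [Finset.sum_apply]
    rw [Finset.sum_sub_distrib, Finset.sum_const, nsmul_eq_mul] at hd'
    exact hd'.le
  · have := variance_nonneg h ν
    gcongr

end SumsP

theorem s_sums : S_SUMS := by
  intro ν hν ⟨K, hK, N, hhalf⟩
  refine ⟨fun h h0 hi ε hε => ?_, fun h hi hi2 ε hε => ?_⟩
  · have hM : 0 ≤ ∫ x, h x ∂ν := integral_nonneg h0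
    set M := ∫ x, h x ∂ν with hMdef
    have hA : 0 < 4 * K * (M + 1) / ε := by positivity
    refine ⟨4 * K * (M + 1) / ε, hA, max N 2, fun n hn => ?_⟩
    have hn2 : 2 ≤ n := (le_max_right _ _).trans hn
    have hnpos : (0 : ℝ) < n := by exact_mod_cast (by omega : 0 < n)
    set A := 4 * K * (M + 1) / ε with hAdef
    have key := SumsP.half_split ν K n hn2 (hhalf n ((le_max_left _ _).trans hn))
      (fun H => {d | A * n / 2 < ∑ i ∈ H, h (d i)}) (fun H d d' hdd => by
        have : ∑ i ∈ H, h (d i) = ∑ i ∈ H, h (d' i) :=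
          Finset.sum_congr rfl fun i hi => by rw [hdd i hi]
        show A * n / 2 < ∑ i ∈ H, h (d i) ↔ A * n / 2 < ∑ i ∈ H, h (d' i)
        rw [this]) (ENNReal.ofReal (n * M / (A * n / 2)))
      (fun H => SumsP.markov ν n h h0 hi H _ (by positivity))
      {d | A * n < ∑ i, h (d i)} (fun H d hd => by
        have hd' : A * n < ∑ i, h (d i) := hd
        have hs := Finset.sum_add_sum_compl H (fun i => h (d i))
        by_contra hcon
        rw [Set.mem_union, not_or] at hcon
        have h1 : ¬ (A * n / 2 < ∑ i ∈ H, h (d i)) := hcon.1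
        have h2 : ¬ (A * n / 2 < ∑ i ∈ Hᶜ, h (d i)) := hcon.2
        push Not at h1 h2
        linarith)
    refine key.trans ?_
    rw [← ENNReal.ofReal_mul hK.le, show (2 : ℝ≥0∞) = ENNReal.ofReal 2 by simp,
      ← ENNReal.ofReal_mul (by norm_num)]
    apply ENNReal.ofReal_le_ofReal
    have e1 : n * M / (A * n / 2) = 2 * M / A := by field_simp
    rw [e1, hAdef]
    have e2 : 2 * (K * (2 * M / (4 * K * (M + 1) / ε))) = ε * (M / (M + 1)) := by
      field_simp
      ring
    rw [e2]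
    have : M / (M + 1) ≤ 1 := by rw [div_le_one (by positivity)]; linarith
    nlinarith
  · have hmeas : Measurable h := Measurable.of_discrete
    have hL : MemLp h 2 ν := (memLp_two_iff_integrable_sq hmeas.aestronglyMeasurable).2 hi2
    set V := Var[h; ν] with hVdef
    have hV : 0 ≤ V := variance_nonneg h ν
    have hA : 0 < Real.sqrt (8 * K * (V + 1) / ε) := Real.sqrt_pos.2 (by positivity)
    refine ⟨Real.sqrt (8 * K * (V + 1) / ε), hA, max N 2, fun n hn => ?_⟩
    have hn2 : 2 ≤ n := (le_max_right _ _).trans hn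
    have hnpos : (0 : ℝ) < n := by exact_mod_cast (by omega : 0 < n)
    set A := Real.sqrt (8 * K * (V + 1) / ε) with hAdef
    have hA2 : A ^ 2 = 8 * K * (V + 1) / ε := Real.sq_sqrt (by positivity)
    have hsn : 0 < Real.sqrt n := Real.sqrt_pos.2 hnpos
    have hsn2 : Real.sqrt n ^ 2 = n := Real.sq_sqrt hnpos.le
    have key := SumsP.half_split ν K n hn2 (hhalf n ((le_max_left _ _).trans hn))
      (fun H => {d | A * Real.sqrt n / 2 < |∑ i ∈ H, (h (d i) - ∫ x, h x ∂ν)|})
      (fun H d d' hdd => by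
        have : ∑ i ∈ H, (h (d i) - ∫ x, h x ∂ν) = ∑ i ∈ H, (h (d' i) - ∫ x, h x ∂ν) :=
          Finset.sum_congr rfl fun i hi => by rw [hdd i hi]
        show A * Real.sqrt n / 2 < |∑ i ∈ H, (h (d i) - ∫ x, h x ∂ν)| ↔
          A * Real.sqrt n / 2 < |∑ i ∈ H, (h (d' i) - ∫ x, h x ∂ν)|
        rw [this]) (ENNReal.ofReal (n * V / (A * Real.sqrt n / 2) ^ 2))
      (fun H => SumsP.cheb ν n h hL H _ (by positivity))
      {d | A * Real.sqrt n < |∑ i, h (d i) - n * ∫ x, h x ∂ν|} (fun H d hd => by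
        have hd' : A * Real.sqrt n < |∑ i, h (d i) - n * ∫ x, h x ∂ν| := hd
        have hs := Finset.sum_add_sum_compl H (fun i => h (d i) - ∫ x, h x ∂ν)
        have hs' : ∑ i, (h (d i) - ∫ x, h x ∂ν) = ∑ i, h (d i) - n * ∫ x, h x ∂ν := by
          rw [Finset.sum_sub_distrib, Finset.sum_const, Finset.card_univ, Fintype.card_fin,
            nsmul_eq_mul]
        by_contra hcon
        rw [Set.mem_union, not_or] at hcon
        have h1 : ¬ (A * Real.sqrt n / 2 < |∑ i ∈ H, (h (d i) - ∫ x, h x ∂ν)|) := hcon.1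
        have h2 : ¬ (A * Real.sqrt n / 2 < |∑ i ∈ Hᶜ, (h (d i) - ∫ x, h x ∂ν)|) := hcon.2
        push Not at h1 h2
        rw [← hs', ← hs] at hd'
        have := abs_add_le (∑ i ∈ H, (h (d i) - ∫ x, h x ∂ν))
          (∑ i ∈ Hᶜ, (h (d i) - ∫ x, h x ∂ν))
        linarith)
    refine key.trans ?_
    rw [← ENNReal.ofReal_mul hK.le, show (2 : ℝ≥0∞) = ENNReal.ofReal 2 by simp,
      ← ENNReal.ofReal_mul (by norm_num)]
    apply ENNReal.ofReal_le_ofReal
    have e1 : n * V / (A * Real.sqrt n / 2) ^ 2 = 4 * V / A ^ 2 := by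
      rw [div_pow, mul_pow, hsn2]
      field_simp
      ring
    rw [e1, hA2]
    have e2 : 2 * (K * (4 * V / (8 * K * (V + 1) / ε))) = ε * (V / (V + 1)) := by
      field_simp
      ring
    rw [e2]
    have : V / (V + 1) ≤ 1 := by rw [div_le_one (by positivity)]; linarith
    nlinarith

end Pool.Agent.NH71.DC
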