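import Pool.Agent.NH71.DC.Stm

/-!
# Project DC, part A5: typical degree sequences

Proof of `Pool.Agent.NH71.DC.S_TYP` (helper45).
-/

set_option autoImplicit false

open MeasureTheory ProbabilityTheory Filter Topology
open scoped ENNReal

namespace Pool.Agent.NH71.DC

namespace TypP

/-- the second part of `S_SUMS` for one measure -/
def Che (ν : Measure (ℕ × ℕ)) : Prop :=
  ∀ h : ℕ × ℕ → ℝ, Integrable h ν → Integrable (fun x => h x ^ 2) ν → ∀ ε : ℝ, 0 < ε →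
    ∃ A : ℝ, 0 < A ∧ ∃ N : ℕ, ∀ n ≥ N,
      PB ν n {d | A * Real.sqrt n < |∑ i, h (d i) - n * ∫ x, h x ∂ν|} ≤ ENNReal.ofReal ε

theorem lower (ν : Measure (ℕ × ℕ)) (hc : Che ν) (h : ℕ × ℕ → ℝ) (h1 : Integrable h ν)
    (h2 : Integrable (fun x => h x ^ 2) ν) (M : ℝ) (hM : ∫ x, h x ∂ν = M) (hpos : 0 < M) (ε : ℝ)
    (hε : 0 < ε) :
    ∃ N : ℕ, ∀ n ≥ N, PB ν n {d | ¬ M / 2 * n ≤ ∑ i, h (d i)} ≤ ENNReal.ofReal ε := by
  obtain ⟨A, hA, N, hN⟩ := hc h h1 h2 ε hε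
  refine ⟨max N (⌈(2 * A / M) ^ 2⌉₊ + 1), fun n hn => ?_⟩
  refine le_trans (measure_mono ?_) (hN n ((le_max_left _ _).trans hn))
  intro d hd
  have hd' : ¬ M / 2 * n ≤ ∑ i, h (d i) := hd
  push Not at hd'
  have hn1 : ⌈(2 * A / M) ^ 2⌉₊ + 1 ≤ n := (le_max_right _ _).trans hn
  have hn2 : (2 * A / M) ^ 2 ≤ n := by
    calc (2 * A / M) ^ 2 ≤ (⌈(2 * A / M) ^ 2⌉₊ : ℝ) := Nat.le_ceil _
      _ ≤ n := by exact_mod_cast (by omega : ⌈(2 * A / M) ^ 2⌉₊ ≤ n)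
  have hs : 2 * A / M ≤ Real.sqrt n := Real.le_sqrt_of_sq_le hn2
  have hs2 : Real.sqrt n * Real.sqrt n = n := Real.mul_self_sqrt (Nat.cast_nonneg n)
  have h3 : A * Real.sqrt n ≤ M / 2 * n := by
    rw [div_le_iff₀ hpos] at hs
    have : 0 ≤ Real.sqrt n := Real.sqrt_nonneg _
    calc A * Real.sqrt n = (2 * A) * Real.sqrt n / 2 := by ring
      _ ≤ (Real.sqrt n * M) * Real.sqrt n / 2 := by gcongr
      _ = M / 2 * (Real.sqrt n * Real.sqrt n) := by ring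
      _ = M / 2 * n := by rw [hs2]
  show A * Real.sqrt n < |∑ i, h (d i) - n * ∫ x, h x ∂ν|
  rw [hM]
  have h4 := neg_abs_le (∑ i, h (d i) - n * M)
  linarith

theorem pb_bal (ν : Measure (ℕ × ℕ)) (n : ℕ) : PB ν n {d | ¬ Bal d} = 0 := by
  have hms : MeasurableSet {d : DS n | Bal d} := (Set.to_countable _).measurableSet
  rw [PB, cond_apply hms]
  have : {d : DS n | Bal d} ∩ {d | ¬ Bal d} = ∅ := by
    ext d
    simp only [Set.mem_inter_iff, Set.mem_empty_iff_false, iff_false, not_and]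
    intro h1 h2
    exact h2 h1
  rw [this, measure_empty, mul_zero]

theorem mean_pos (ν : Measure (ℕ × ℕ)) (hν : Hyp ν) : 0 < ∫ x, (x.1 : ℝ) ∂ν := by
  have := hν.prob
  have hi1 : Integrable (fun x : ℕ × ℕ => (x.1 : ℝ)) ν := by
    simpa using hν.mom 1 0 (Or.inl ⟨by norm_num, by norm_num⟩)
  have hi2 : Integrable (fun x : ℕ × ℕ => (x.2 : ℝ)) ν := by
    simpa using hν.mom 0 1 (Or.inl ⟨by norm_num, by norm_num⟩)
  have h0 : 0 ≤ ∫ x, (x.1 : ℝ) ∂ν := integral_nonneg fun x => Nat.cast_nonneg _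
  rcases h0.lt_or_eq with h | h
  · exact h
  exfalso
  have e1 : (fun x : ℕ × ℕ => (x.1 : ℝ)) =ᵐ[ν] 0 :=
    (integral_eq_zero_iff_of_nonneg (fun x => Nat.cast_nonneg _) hi1).1 h.symm
  have e2 : (fun x : ℕ × ℕ => (x.2 : ℝ)) =ᵐ[ν] 0 :=
    (integral_eq_zero_iff_of_nonneg (fun x => Nat.cast_nonneg _) hi2).1
      (hν.mean.symm.trans h.symm)
  refine hν.aper 2 (by norm_num) 0 ?_
  filter_upwards [e1, e2] with x hx1 hx2
  refine ⟨0, ?_⟩
  have hx1' : (x.1 : ℝ) = 0 := hx1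
  have hx2' : (x.2 : ℝ) = 0 := hx2
  rw [hx1', hx2']
  simp

theorem ind_mean (ν : Measure (ℕ × ℕ)) (h : ℕ × ℕ → ℝ) (h0 : ∀ x, 0 ≤ h x)
    (hi : Integrable h ν) (S : Set (ℕ × ℕ)) (hS : ν S ≠ 0) (hpos : ∀ x ∈ S, 0 < h x) :
    0 < ∫ x, h x ∂ν := by
  rcases (integral_nonneg h0 : 0 ≤ ∫ x, h x ∂ν).lt_or_eq with h' | h'
  · exact h'
  exfalso
  have e1 : h =ᵐ[ν] 0 := (integral_eq_zero_iff_of_nonneg h0 hi).1 h'.symm
  apply hS
  refine measure_mono_null ?_ (ae_iff.1 e1)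
  intro x hx hx0
  have := hpos x hx
  rw [hx0] at this
  exact lt_irrefl _ this

end TypP

open TypP in
theorem s_typ : S_TYP := by
  intro hsum ν hν hhalf ε hε
  have := hν.prob
  obtain ⟨hmar, hche⟩ := hsum ν hν.prob hhalf
  have hche' : Che ν := hche
  have hi1 : Integrable (fun x : ℕ × ℕ => (x.1 : ℝ)) ν := by
    simpa using hν.mom 1 0 (Or.inl ⟨by norm_num, by norm_num⟩)
  have hi2 : Integrable (fun x : ℕ × ℕ => (x.2 : ℝ)) ν := by
    simpa using hν.mom 0 1 (Or.inl ⟨by norm_num, by norm_num⟩)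
  have hi11 : Integrable (fun x : ℕ × ℕ => (x.1 : ℝ) ^ 2) ν := by
    simpa using hν.mom 2 0 (Or.inl ⟨by norm_num, by norm_num⟩)
  have hi22 : Integrable (fun x : ℕ × ℕ => (x.2 : ℝ) ^ 2) ν := by
    simpa using hν.mom 0 2 (Or.inl ⟨by norm_num, by norm_num⟩)
  have hi12 : Integrable (fun x : ℕ × ℕ => (x.1 : ℝ) * x.2) ν := by
    simpa using hν.mom 1 1 (Or.inl ⟨by norm_num, by norm_num⟩)
  have hi31 : Integrable (fun x : ℕ × ℕ => (x.1 : ℝ) ^ 3 * x.2) ν := by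
    simpa using hν.mom 3 1 (Or.inr (Or.inr ⟨by norm_num, by norm_num⟩))
  have hi13 : Integrable (fun x : ℕ × ℕ => (x.1 : ℝ) * (x.2 : ℝ) ^ 3) ν := by
    simpa using hν.mom 1 3 (Or.inr (Or.inl ⟨by norm_num, by norm_num⟩))
  have hM1 := mean_pos ν hν
  -- the lower bound
  have hlow : ∀ η : ℝ, 0 < η → ∃ N : ℕ, ∀ n ≥ N,
      PB ν n {d | ¬ (∫ x, (x.1 : ℝ) ∂ν) / 2 * n ≤ ∑ i, ((d i).1 : ℝ)} ≤ ENNReal.ofReal η :=
    fun η hη => lower ν hche' (fun x => (x.1 : ℝ)) hi1 hi11 _ rfl hM1 η hη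
  have hsq : ∀ η : ℝ, 0 < η → ∃ A : ℝ, 0 < A ∧ ∃ N : ℕ, ∀ n ≥ N,
      PB ν n {d | A * n < ∑ i, (((d i).1 : ℝ) ^ 2 + ((d i).2 : ℝ) ^ 2)} ≤ ENNReal.ofReal η :=
    fun η hη => hmar (fun x => (x.1 : ℝ) ^ 2 + (x.2 : ℝ) ^ 2) (fun x => by positivity)
      (hi11.add hi22) η hη
  refine ⟨?_, fun hnd => ?_⟩
  · obtain ⟨N1, hN1⟩ := hlow (ε / 2) (by positivity)
    obtain ⟨A, hA, N2, hN2⟩ := hsq (ε / 2) (by positivity)
    refine ⟨A, (∫ x, (x.1 : ℝ) ∂ν) / 2, hA, by positivity, max N1 N2, fun n hn => ?_⟩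
    have h1 := hN1 n ((le_max_left _ _).trans hn)
    have h2 := hN2 n ((le_max_right _ _).trans hn)
    have hsub : {d : DS n | ¬ Good A ((∫ x, (x.1 : ℝ) ∂ν) / 2) d} ⊆ {d | ¬ Bal d} ∪
        ({d | ¬ (∫ x, (x.1 : ℝ) ∂ν) / 2 * n ≤ ∑ i, ((d i).1 : ℝ)} ∪
          {d | A * n < ∑ i, (((d i).1 : ℝ) ^ 2 + ((d i).2 : ℝ) ^ 2)}) := by
      intro d hd
      by_contra hcon
      simp only [Set.mem_union, not_or] at hcon
      obtain ⟨c1, c2, c3⟩ := hcon
      have c1' : ¬ ¬ Bal d := c1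
      have c2' : ¬ ¬ (∫ x, (x.1 : ℝ) ∂ν) / 2 * n ≤ ∑ i, ((d i).1 : ℝ) := c2
      have c3' : ¬ A * n < ∑ i, (((d i).1 : ℝ) ^ 2 + ((d i).2 : ℝ) ^ 2) := c3
      push Not at c1' c2' c3'
      exact hd ⟨c1', c2', c3'⟩
    calc PB ν n {d : DS n | ¬ Good A ((∫ x, (x.1 : ℝ) ∂ν) / 2) d} ≤ _ := measure_mono hsub
      _ ≤ PB ν n {d | ¬ Bal d} + (PB ν n _ + PB ν n _) :=
          (measure_union_le _ _).trans (add_le_add le_rfl (measure_union_le _ _))
      _ ≤ 0 + (ENNReal.ofReal (ε / 2) + ENNReal.ofReal (ε / 2)) :=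
          add_le_add (pb_bal ν n).le (add_le_add h1 h2)
      _ = ENNReal.ofReal ε := by
          rw [zero_add, ← ENNReal.ofReal_add (by positivity) (by positivity)]
          congr 1
          ring
  · obtain ⟨hndo, hndi⟩ := hnd
    -- the function `D⁻ 1[D⁺ ≥ 2]`
    have hio : Integrable (fun x : ℕ × ℕ => if 2 ≤ x.2 then (x.1 : ℝ) else 0) ν := by
      refine hi1.mono (Measurable.of_discrete).aestronglyMeasurable (Eventually.of_forall fun x => ?_)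
      by_cases h : 2 ≤ x.2
      · rw [if_pos h]
      · rw [if_neg h, norm_zero]; exact norm_nonneg _
    have hio2 : Integrable (fun x : ℕ × ℕ => (if 2 ≤ x.2 then (x.1 : ℝ) else 0) ^ 2) ν := by
      refine hi11.mono (Measurable.of_discrete).aestronglyMeasurable
        (Eventually.of_forall fun x => ?_)
      by_cases h : 2 ≤ x.2
      · rw [if_pos h]
      · rw [if_neg h]; simp
    have hii : Integrable (fun x : ℕ × ℕ => if 2 ≤ x.1 then (x.2 : ℝ) else 0) ν := by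
      refine hi2.mono (Measurable.of_discrete).aestronglyMeasurable (Eventually.of_forall fun x => ?_)
      by_cases h : 2 ≤ x.1
      · rw [if_pos h]
      · rw [if_neg h, norm_zero]; exact norm_nonneg _
    have hii2 : Integrable (fun x : ℕ × ℕ => (if 2 ≤ x.1 then (x.2 : ℝ) else 0) ^ 2) ν := by
      refine hi22.mono (Measurable.of_discrete).aestronglyMeasurable
        (Eventually.of_forall fun x => ?_)
      by_cases h : 2 ≤ x.1
      · rw [if_pos h]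
      · rw [if_neg h]; simp
    have hMo : 0 < ∫ x : ℕ × ℕ, (if 2 ≤ x.2 then (x.1 : ℝ) else 0) ∂ν := by
      refine ind_mean ν _ (fun x => ?_) hio _ hndo (fun x hx => ?_)
      · show 0 ≤ (if 2 ≤ x.2 then (x.1 : ℝ) else 0)
        split_ifs <;> positivity
      · have hx' : 1 ≤ x.1 ∧ 2 ≤ x.2 := hx
        rw [if_pos hx'.2]
        exact_mod_cast hx'.1
    have hMi : 0 < ∫ x : ℕ × ℕ, (if 2 ≤ x.1 then (x.2 : ℝ) else 0) ∂ν := by
      refine ind_mean ν _ (fun x => ?_) hii _ hndi (fun x hx => ?_)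
      · show 0 ≤ (if 2 ≤ x.1 then (x.2 : ℝ) else 0)
        split_ifs <;> positivity
      · have hx' : 2 ≤ x.1 ∧ 1 ≤ x.2 := hx
        rw [if_pos hx'.1]
        exact_mod_cast hx'.2
    -- the function `D⁻ D⁺ - D⁻`
    have hic : Integrable (fun x : ℕ × ℕ => (x.1 : ℝ) * x.2 - x.1) ν := hi12.sub hi1
    have hic2 : Integrable (fun x : ℕ × ℕ => ((x.1 : ℝ) * x.2 - x.1) ^ 2) ν := by
      refine ((hi31.add hi13).add (hi11.const_mul 2)).mono
        (Measurable.of_discrete).aestronglyMeasurable (Eventually.of_forall fun x => ?_)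
      have a1 : (0 : ℝ) ≤ x.1 := Nat.cast_nonneg _
      have a2 : (0 : ℝ) ≤ x.2 := Nat.cast_nonneg _
      have key : ((x.1 : ℝ) * x.2 - x.1) ^ 2 ≤
          (x.1 : ℝ) ^ 3 * x.2 + (x.1 : ℝ) * (x.2 : ℝ) ^ 3 + 2 * (x.1 : ℝ) ^ 2 := by
        have b1 : ((x.1 : ℝ) * x.2) ^ 2 * 2 ≤ (x.1 : ℝ) ^ 3 * x.2 + (x.1 : ℝ) * (x.2 : ℝ) ^ 3 := by
          nlinarith [mul_nonneg (mul_nonneg a1 a2) (sq_nonneg ((x.1 : ℝ) - x.2))]
        nlinarith [sq_nonneg ((x.1 : ℝ) * x.2 + x.1)]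
      rw [Real.norm_of_nonneg (sq_nonneg _)]
      exact key.trans (le_abs_self _)
    have hmc : ∫ x : ℕ × ℕ, ((x.1 : ℝ) * x.2 - x.1) ∂ν = 0 := by
      rw [integral_sub hi12 hi1, hν.crit, sub_self]
    obtain ⟨N1, hN1⟩ := hlow (ε / 5) (by positivity)
    obtain ⟨A1, hA1, N2, hN2⟩ := hsq (ε / 5) (by positivity)
    obtain ⟨A2, hA2, N3, hN3⟩ := hche _ hic hic2 (ε / 5) (by positivity)
    obtain ⟨N4, hN4⟩ := lower ν hche' _ hio hio2 _ rfl hMo (ε / 5) (by positivity)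
    obtain ⟨N5, hN5⟩ := lower ν hche' _ hii hii2 _ rfl hMi (ε / 5) (by positivity)
    rw [hmc] at hN3
    obtain ⟨M1, hM1e⟩ : ∃ M1, M1 = ∫ x : ℕ × ℕ, (x.1 : ℝ) ∂ν := ⟨_, rfl⟩
    obtain ⟨Mo, hMoe⟩ : ∃ Mo, Mo = ∫ x : ℕ × ℕ, (if 2 ≤ x.2 then (x.1 : ℝ) else 0) ∂ν :=
      ⟨_, rfl⟩
    obtain ⟨Mi, hMie⟩ : ∃ Mi, Mi = ∫ x : ℕ × ℕ, (if 2 ≤ x.1 then (x.2 : ℝ) else 0) ∂ν :=
      ⟨_, rfl⟩
    rw [← hM1e] at hN1 hM1
    rw [← hMoe] at hN4 hMo
    rw [← hMie] at hN5 hMi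
    refine ⟨max A1 A2, min (M1 / 2) (min (Mo / 2) (Mi / 2)), lt_of_lt_of_le hA1 (le_max_left _ _),
      lt_min (by positivity) (lt_min (by positivity) (by positivity)),
      max N1 (max N2 (max N3 (max N4 N5))), fun n hn => ?_⟩
    have g1 : N1 ≤ n := (le_max_left _ _).trans hn
    have g2 : N2 ≤ n := (le_max_left _ _).trans ((le_max_right _ _).trans hn)
    have g3 : N3 ≤ n := (le_max_left _ _).trans ((le_max_right _ _).trans
      ((le_max_right _ _).trans hn))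
    have g4 : N4 ≤ n := (le_max_left _ _).trans ((le_max_right _ _).trans
      ((le_max_right _ _).trans ((le_max_right _ _).trans hn)))
    have g5 : N5 ≤ n := (le_max_right _ _).trans ((le_max_right _ _).trans
      ((le_max_right _ _).trans ((le_max_right _ _).trans hn)))
    have h1 := hN1 n g1
    have h2 := hN2 n g2
    have h3 := hN3 n g3
    have h4 := hN4 n g4
    have h5 := hN5 n g5
    have hn0 : (0 : ℝ) ≤ n := Nat.cast_nonneg n
    have hsub : {d : DS n | ¬ Crit (max A1 A2) (min (M1 / 2) (min (Mo / 2) (Mi / 2))) d} ⊆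
        {d | ¬ Bal d} ∪ ({d | ¬ M1 / 2 * n ≤ ∑ i, ((d i).1 : ℝ)} ∪
          ({d | A1 * n < ∑ i, (((d i).1 : ℝ) ^ 2 + ((d i).2 : ℝ) ^ 2)} ∪
          ({d | A2 * Real.sqrt n < |∑ i, (((d i).1 : ℝ) * (d i).2 - (d i).1) - n * 0|} ∪
          ({d | ¬ Mo / 2 * n ≤ ∑ i, (if 2 ≤ (d i).2 then ((d i).1 : ℝ) else 0)} ∪
          {d | ¬ Mi / 2 * n ≤ ∑ i, (if 2 ≤ (d i).1 then ((d i).2 : ℝ) else 0)})))) := by
      intro d hd
      by_contra hcon
      simp only [Set.mem_union, not_or] at hcon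
      obtain ⟨c1, c2, c3, c4, c5, c6⟩ := hcon
      have c1' : ¬ ¬ Bal d := c1
      have c2' : ¬ ¬ M1 / 2 * n ≤ ∑ i, ((d i).1 : ℝ) := c2
      have c3' : ¬ A1 * n < ∑ i, (((d i).1 : ℝ) ^ 2 + ((d i).2 : ℝ) ^ 2) := c3
      have c4' : ¬ A2 * Real.sqrt n <
        |∑ i, (((d i).1 : ℝ) * (d i).2 - (d i).1) - n * 0| := c4
      have c5' : ¬ ¬ Mo / 2 * n ≤ ∑ i, (if 2 ≤ (d i).2 then ((d i).1 : ℝ) else 0) := c5
      have c6' : ¬ ¬ Mi / 2 * n ≤ ∑ i, (if 2 ≤ (d i).1 then ((d i).2 : ℝ) else 0) := c6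
      push Not at c1' c2' c3' c4' c5' c6'
      apply hd
      refine ⟨⟨c1', ?_, ?_⟩, ?_, ?_, ?_⟩
      · refine le_trans ?_ c2'
        gcongr
        exact min_le_left _ _
      · refine c3'.trans ?_
        gcongr
        exact le_max_left _ _
      · rw [mul_zero, sub_zero, Finset.sum_sub_distrib] at c4'
        have e1 := (le_abs_self _).trans c4'
        have e2 : A2 * Real.sqrt n ≤ max A1 A2 * Real.sqrt n := by
          gcongr
          exact le_max_right _ _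
        linarith
      · refine le_trans ?_ c5'
        gcongr
        exact (min_le_right _ _).trans (min_le_left _ _)
      · refine le_trans ?_ c6'
        gcongr
        exact (min_le_right _ _).trans (min_le_right _ _)
    refine (measure_mono hsub).trans ?_
    refine (measure_union_le _ _).trans ?_
    rw [pb_bal, zero_add]
    refine (measure_union_le _ _).trans ((add_le_add h1 ((measure_union_le _ _).trans (add_le_add h2
      ((measure_union_le _ _).trans (add_le_add h3 ((measure_union_le _ _).trans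
        (add_le_add h4 h5))))))).trans ?_)
    rw [← ENNReal.ofReal_add (by positivity) (by positivity),
      ← ENNReal.ofReal_add (by positivity) (by positivity),
      ← ENNReal.ofReal_add (by positivity) (by positivity),
      ← ENNReal.ofReal_add (by positivity) (by positivity)]
    apply ENNReal.ofReal_le_ofReal
    linarith

end Pool.Agent.NH71.DC
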