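import Pool.Agent.NH71.DC.Base

/-!
# Project DC, E2 and F2: from configurations to simple digraphs
-/

set_option autoImplicit false

open MeasureTheory ProbabilityTheory Filter Topology
open scoped ENNReal

namespace Pool.Agent.NH71.DC

namespace Upd

open Classical in
/-- the number of the simple configurations with diameter `> x` -/
noncomputable def N1 {n : ℕ} (d : DS n) (x : ℝ) : ℕ :=
  (Finset.univ.filter fun π : Cf d => Simp π ∧ x < diam (Arc π)).card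

open Classical in
/-- the number of the simple configurations -/
noncomputable def N0 {n : ℕ} (d : DS n) : ℕ := (Finset.univ.filter fun π : Cf d => Simp π).card

theorem pD_cf (h : S_CNT) {n : ℕ} (d : DS n) (x : ℝ) :
    pD d x = (N1 d x : ℝ≥0∞) / (N0 d : ℝ≥0∞) := by
  classical
  have h1 := h n d (fun R => x < diam R)
  have h2 := h n d (fun _ => True)
  have hK : 0 < ∏ i, ((d i).1.factorial * (d i).2.factorial) :=
    Finset.prod_pos fun i _ => Nat.mul_pos (Nat.factorial_pos _) (Nat.factorial_pos _)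
  simp only [and_true] at h2
  have e1 : N1 d x = (∏ i, ((d i).1.factorial * (d i).2.factorial)) *
      (Finset.univ.filter fun A : SD n => HasDeg A d ∧ x < diam A.arc).card := h1
  have e2 : N0 d = (∏ i, ((d i).1.factorial * (d i).2.factorial)) *
      (Finset.univ.filter fun A : SD n => HasDeg A d).card := h2
  rw [e1, e2, Nat.cast_mul, Nat.cast_mul, ENNReal.mul_div_mul_left _ _ (by
    exact_mod_cast hK.ne') (ENNReal.natCast_ne_top _)]
  rfl

theorem cf_pos {n : ℕ} {d : DS n} (hb : Bal d) : 0 < Fintype.card (Cf d) := by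
  have h : Fintype.card (HO d) = Fintype.card (HI d) := by
    unfold HO HI
    rw [Fintype.card_sigma, Fintype.card_sigma]
    simp only [Fintype.card_fin]
    exact hb.symm
  exact Fintype.card_pos_iff.2 ⟨Fintype.equivOfCardEq h⟩

/-- the integer cube root -/
theorem cube_root {n : ℕ} (hn : 1 ≤ n) : ∃ (k : ℕ) (r : ℝ), r = (n : ℝ) ^ (1 / 3 : ℝ) ∧ 1 ≤ r ∧
    (k : ℝ) ≤ r ∧ k ^ 3 ≤ n ∧ n < (k + 1) ^ 3 := by
  have hn' : (1 : ℝ) ≤ n := by exact_mod_cast hn
  have h0 : (0 : ℝ) ≤ n := by linarith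
  set r : ℝ := (n : ℝ) ^ (1 / 3 : ℝ) with hr
  have h1 : 1 ≤ r := Real.one_le_rpow hn' (by norm_num)
  have h3 : r ^ 3 = n := by
    rw [hr, ← Real.rpow_natCast, ← Real.rpow_mul h0]
    norm_num
  have hk : ((⌊r⌋₊ : ℕ) : ℝ) ≤ r := Nat.floor_le (by linarith)
  refine ⟨⌊r⌋₊, r, rfl, h1, hk, ?_, ?_⟩
  · have : ((⌊r⌋₊ : ℕ) : ℝ) ^ 3 ≤ n := by
      rw [← h3]
      exact pow_le_pow_left₀ (by positivity) hk 3
    exact_mod_cast this
  · have h4 : r < (⌊r⌋₊ : ℝ) + 1 := Nat.lt_floor_add_one r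
    have : (n : ℝ) < ((⌊r⌋₊ : ℝ) + 1) ^ 3 := by
      rw [← h3]
      exact pow_lt_pow_left₀ h4 (by linarith) (by norm_num)
    exact_mod_cast this

end Upd

open Upd in
/-- E2 -/
theorem s_upd : S_UPD := by
  classical
  intro hC hS hc hF A c hA hc0
  obtain ⟨δ, hδ, M1, h1⟩ := hS.2.2 hS.1 hS.2.1 A c hA hc0
  obtain ⟨C1, hC1, M2, h2⟩ := hF hc A c hA hc0
  refine ⟨2 * C1 / δ, by positivity, max (max M1 M2) 1, fun n hn d hd x hx => ?_⟩
  have hn1 : M1 ≤ n := (le_max_left _ _).trans ((le_max_left _ _).trans hn)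
  have hn2 : M2 ≤ n := (le_max_right _ _).trans ((le_max_left _ _).trans hn)
  have hn3 : 1 ≤ n := (le_max_right _ _).trans hn
  obtain ⟨k, r, hr, hr1, hkr, hk1, hk2⟩ := cube_root hn3
  rw [← hr] at hx ⊢
  have hx0 : 0 < x := by linarith
  have hsimp : δ * Fintype.card (Cf d) ≤ N0 d := h1 n hn1 d hd.toGood
  have hm : x < ((⌊x⌋₊ + 1 : ℕ) : ℝ) := by
    push_cast
    exact Nat.lt_floor_add_one x
  have hm2 : 2 * (k + 1) ≤ ⌊x⌋₊ + 1 := by
    have : ((2 * (k + 1) : ℕ) : ℝ) < ((⌊x⌋₊ + 1 : ℕ) : ℝ) := by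
      refine lt_of_le_of_lt ?_ hm
      push_cast
      linarith
    exact (by exact_mod_cast this : 2 * (k + 1) < ⌊x⌋₊ + 1).le
  have h3 := h2 n hn2 k hk1 hk2 d hd (⌊x⌋₊ + 1) hm2
  set B : ℕ := (Finset.univ.filter fun π : Cf d => ∃ m' ≥ ⌊x⌋₊ + 1, ∃ v w,
    DistEq (Arc π) m' v w).card with hB
  have h4 : N1 d x ≤ B := by
    refine Finset.card_le_card fun π hπ => ?_
    rw [Finset.mem_filter] at hπ ⊢
    obtain ⟨m, hxm, u, v, huv⟩ := Base.exists_of_lt_diam hx0.le hπ.2.2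
    refine ⟨hπ.1, m, ?_, u, v, huv⟩
    have : ⌊x⌋₊ < m := (Nat.floor_lt hx0.le).2 hxm
    omega
  have h5 : (B : ℝ) * (x / 2) ≤ C1 * r * Fintype.card (Cf d) := by
    have h6 : (B : ℝ) * (x / 2) ≤ (B : ℝ) * ((((⌊x⌋₊ + 1 : ℕ) : ℝ)) + 1 - 2 * (k + 1)) := by
      refine mul_le_mul_of_nonneg_left ?_ (by positivity)
      linarith
    refine h6.trans (h3.trans ?_)
    have h7 : C1 * (k : ℝ) ≤ C1 * r := mul_le_mul_of_nonneg_left hkr hC1.le
    exact mul_le_mul_of_nonneg_right h7 (by positivity)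
  have h8 : (N1 d x : ℝ) ≤ 2 * C1 / δ * r / x * N0 d := by
    have h9 : (N1 d x : ℝ) ≤ B := by exact_mod_cast h4
    have h10 : (B : ℝ) ≤ 2 * C1 * r / x * Fintype.card (Cf d) := by
      rw [div_mul_eq_mul_div, le_div_iff₀ hx0]
      linarith
    have h11 : 2 * C1 * r / x * (Fintype.card (Cf d) : ℝ) =
        2 * C1 / δ * r / x * (δ * Fintype.card (Cf d)) := by
      field_simp
    rw [h11] at h10
    have h12 : 2 * C1 / δ * r / x * (δ * Fintype.card (Cf d)) ≤ 2 * C1 / δ * r / x * N0 d :=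
      mul_le_mul_of_nonneg_left hsimp (by positivity)
    linarith
  rw [pD_cf hC]
  refine ENNReal.div_le_of_le_mul ?_
  have e1 : (N1 d x : ℝ≥0∞) = ENNReal.ofReal (N1 d x : ℝ) := (ENNReal.ofReal_natCast _).symm
  have e2 : (N0 d : ℝ≥0∞) = ENNReal.ofReal (N0 d : ℝ) := (ENNReal.ofReal_natCast _).symm
  rw [e1, e2, ← ENNReal.ofReal_mul (by positivity)]
  exact ENNReal.ofReal_le_ofReal h8

open Upd in
/-- F2 -/
theorem s_lod : S_LOD := by
  classical
  intro hC hS hR A c hA hc0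
  obtain ⟨δ1, hδ1, M1, h1⟩ := hS.2.2 hS.1 hS.2.1 A c hA hc0
  obtain ⟨δ, hδ, M2, h2⟩ := hR A c (δ1 / 2) hA hc0 (by positivity)
  refine ⟨δ, 1 / 2, hδ, by norm_num, max M1 M2, fun n hn d hd hdeg => ?_⟩
  have hn1 : M1 ≤ n := (le_max_left _ _).trans hn
  have hn2 : M2 ≤ n := (le_max_right _ _).trans hn
  have hsimp : δ1 * Fintype.card (Cf d) ≤ N0 d := h1 n hn1 d hd
  have h3 := h2 n hn2 d hd hdeg
  set B : ℕ := (Finset.univ.filter fun π : Cf d => ¬ ∃ m : ℕ, δ * Real.sqrt n < m ∧ ∃ v w,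
    DistEq (Arc π) m v w).card with hB
  have h4 : N0 d ≤ N1 d (δ * Real.sqrt n) + B := by
    have h5 : (Finset.univ.filter fun π : Cf d => Simp π) ⊆
        (Finset.univ.filter fun π : Cf d => Simp π ∧ δ * Real.sqrt n < diam (Arc π)) ∪
        (Finset.univ.filter fun π : Cf d => ¬ ∃ m : ℕ, δ * Real.sqrt n < m ∧ ∃ v w,
          DistEq (Arc π) m v w) := by
      intro π hπ
      rw [Finset.mem_union, Finset.mem_filter, Finset.mem_filter]
      rw [Finset.mem_filter] at hπ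
      by_cases h6 : ∃ m : ℕ, δ * Real.sqrt n < m ∧ ∃ v w, DistEq (Arc π) m v w
      · obtain ⟨m, hm, u, v, huv⟩ := h6
        refine Or.inl ⟨hπ.1, hπ.2, hm.trans_le ?_⟩
        exact_mod_cast Base.le_diam huv
      · exact Or.inr ⟨hπ.1, h6⟩
    exact (Finset.card_le_card h5).trans (Finset.card_union_le _ _)
  have hcf : (0 : ℝ) < Fintype.card (Cf d) := by exact_mod_cast cf_pos hd.bal
  have h5 : (0 : ℝ) < N0 d := lt_of_lt_of_le (by positivity) hsimp
  have h6 : (1 / 2 : ℝ) * N0 d ≤ N1 d (δ * Real.sqrt n) := by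
    have h7 : (N0 d : ℝ) ≤ N1 d (δ * Real.sqrt n) + B := by exact_mod_cast h4
    linarith
  rw [pD_cf hC]
  have hN : (N0 d : ℝ≥0∞) ≠ 0 := by
    have : N0 d ≠ 0 := by
      intro h
      rw [h] at h5
      simp at h5
    exact_mod_cast this
  rw [ENNReal.le_div_iff_mul_le (Or.inl hN) (Or.inl (ENNReal.natCast_ne_top _))]
  have e1 : (N1 d (δ * Real.sqrt n) : ℝ≥0∞) = ENNReal.ofReal (N1 d (δ * Real.sqrt n) : ℝ) :=
    (ENNReal.ofReal_natCast _).symm
  have e2 : (N0 d : ℝ≥0∞) = ENNReal.ofReal (N0 d : ℝ) := (ENNReal.ofReal_natCast _).symm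
  rw [e1, e2, ← ENNReal.ofReal_mul (by norm_num)]
  exact ENNReal.ofReal_le_ofReal h6

end Pool.Agent.NH71.DC
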