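import Pool.Agent.NH71.DC.Cnt
import Pool.Agent.NH71.DC.Cyc
import Pool.Agent.NH71.DC.Exn
import Pool.Agent.NH71.DC.First
import Pool.Agent.NH71.DC.Geo
import Pool.Agent.NH71.DC.Half
import Pool.Agent.NH71.DC.Lll
import Pool.Agent.NH71.DC.Lop
import Pool.Agent.NH71.DC.Num
import Pool.Agent.NH71.DC.Run12
import Pool.Agent.NH71.DC.Run3
import Pool.Agent.NH71.DC.Simp
import Pool.Agent.NH71.DC.Split
import Pool.Agent.NH71.DC.Sums
import Pool.Agent.NH71.DC.Swap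
import Pool.Agent.NH71.DC.Typ
import Pool.Agent.NH71.DC.Upd

/-!
# Project DC: assembly
-/

set_option autoImplicit false

open MeasureTheory ProbabilityTheory Filter Topology
open scoped ENNReal

namespace Pool.Agent.NH71.DC

/-- the main theorem, given the pieces `S_CHF`, `S_LLT`, `S_RHO` -/
theorem main (hchf : S_CHF) (hllt : S_LLT) (hrho : S_RHO) :
    (∀ ν : Measure (ℕ × ℕ), Hyp ν →
      (Tight ν ↔ Nondeg ν) ∧
      (¬ Nondeg ν → ∃ ε : ℝ, 0 < ε ∧ ∀ C : ℝ, ∃ N : ℕ, ∀ n ≥ N,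
        ENNReal.ofReal ε ≤ PG ν n (C * (n : ℝ) ^ (1 / 3 : ℝ))) ∧
      Tendsto (fun n => PB ν n {d | ∃ A : SD n, HasDeg A d}) atTop (𝓝 1)) ∧
    (∃ ν : Measure (ℕ × ℕ), Hyp ν ∧ Nondeg ν) ∧
    ∃ ν : Measure (ℕ × ℕ), Hyp ν ∧ ¬ Nondeg ν := by
  have hA : S_A := ⟨hchf, hllt, s_half, s_sums, s_typ⟩
  have hS : SimpC := ⟨s_lll, s_lop, s_simp⟩
  have hC : S_C := ⟨s_run1, s_run2, s_run3, s_two, s_num, s_cyc, s_cyw, s_geo, s_split⟩
  have hN : ∀ ν : Measure (ℕ × ℕ), Hyp ν → ¬ Nondeg ν → ∃ ε : ℝ, 0 < ε ∧ ∀ C : ℝ, ∃ N : ℕ,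
      ∀ n ≥ N, ENNReal.ofReal ε ≤ PG ν n (C * (n : ℝ) ^ (1 / 3 : ℝ)) := by
    intro ν hν hnd
    by_cases h1 : ν {x | 1 ≤ x.1 ∧ 2 ≤ x.2} = 0
    · exact s_not hA s_cnt hS hrho s_lod ν hν h1
    · have h2 : ν {x | 2 ≤ x.1 ∧ 1 ≤ x.2} = 0 := by
        by_contra h2
        exact hnd ⟨h1, h2⟩
      obtain ⟨hsw, hPG⟩ := s_swap ν hν
      have h3 : (ν.map Prod.swap) {x | 1 ≤ x.1 ∧ 2 ≤ x.2} = 0 := by
        rw [Measure.map_apply measurable_swap MeasurableSet.of_discrete]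
        refine Eq.trans (congrArg ν (Set.ext fun x => ?_)) h2
        simp only [Set.mem_preimage, Set.mem_ofPred_eq, Prod.fst_swap, Prod.snd_swap]
        exact and_comm
      obtain ⟨ε, hε, h4⟩ := s_not hA s_cnt hS hrho s_lod _ hsw h3
      refine ⟨ε, hε, fun C => ?_⟩
      obtain ⟨N, hN⟩ := h4 C
      exact ⟨N, fun n hn => by rw [← hPG]; exact hN n hn⟩
  refine ⟨fun ν hν => ⟨⟨fun hT => ?_, fun hnd => ?_⟩, hN ν hν, s_gra hA s_cnt hS ν hν⟩, exn, ?_⟩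
  · by_contra hnd
    obtain ⟨ε, hε, h1⟩ := hN ν hν hnd
    obtain ⟨C, hC⟩ := hT (ε / 2) (by linarith)
    obtain ⟨N, hN⟩ := h1 C
    have h2 := (hN N le_rfl).trans (hC N)
    rw [ENNReal.ofReal_le_ofReal_iff (by linarith)] at h2
    linarith
  · exact s_tight hA s_cnt hS hC s_first s_upd ν hν hnd
  · obtain ⟨ν, hν, h⟩ := s_ex
    exact ⟨ν, hν, fun hnd => hnd.1 h⟩

end Pool.Agent.NH71.DC
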