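import Pool.Agent.NH71.DC.Tight

/-!
# Project DC, G2-G4: the degenerate case, existence of the digraphs, an example
-/

set_option autoImplicit false

open MeasureTheory ProbabilityTheory Filter Topology
open scoped ENNReal

namespace Pool.Agent.NH71.DC

namespace GNot

lemma deg_ae {ν : Measure (ℕ × ℕ)} (hν : Hyp ν) (h0 : ν {x | 1 ≤ x.1 ∧ 2 ≤ x.2} = 0) :
    ∀ᵐ x ∂ν, 1 ≤ x.1 → x.2 = 1 := by
  have := hν.prob
  have h1 : ∀ᵐ x ∂ν, ¬ (1 ≤ x.1 ∧ 2 ≤ x.2) := by
    rw [ae_iff]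
    simp only [not_not]
    exact h0
  have hle : ∀ᵐ x ∂ν, (x.1 : ℝ) * x.2 ≤ (x.1 : ℝ) := by
    filter_upwards [h1] with x hx
    by_cases h : 1 ≤ x.1
    · have h2 : x.2 ≤ 1 := by
        by_contra hc
        exact hx ⟨h, by omega⟩
      have h3 : (x.2 : ℝ) ≤ 1 := by exact_mod_cast h2
      have h4 : (0 : ℝ) ≤ x.1 := by positivity
      nlinarith
    · have : x.1 = 0 := by omega
      rw [this]; simp
  have i1 : Integrable (fun x : ℕ × ℕ => (x.1 : ℝ) * x.2) ν := by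
    have := hν.mom 1 1 (Or.inl ⟨by norm_num, by norm_num⟩)
    simpa using this
  have i2 : Integrable (fun x : ℕ × ℕ => (x.1 : ℝ)) ν := by
    have := hν.mom 1 0 (Or.inl ⟨by norm_num, by norm_num⟩)
    simpa using this
  have heq := (integral_eq_iff_of_ae_le i1 i2 hle).1 hν.crit
  filter_upwards [heq] with x hx h
  have h5 : (x.1 : ℝ) ≠ 0 := by
    have : (1 : ℝ) ≤ x.1 := by exact_mod_cast h
    linarith
  have h6 : (x.2 : ℝ) = 1 := by
    have := mul_left_cancel₀ h5 (hx.trans (mul_one _).symm)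
    exact this
  exact_mod_cast h6

lemma PB_ac (ν : Measure (ℕ × ℕ)) (n : ℕ) : PB ν n ≪ PP ν n := cond_absolutelyContinuous

lemma PB_prob {ν : Measure (ℕ × ℕ)} (hν : Hyp ν) {n : ℕ} (h : PP ν n {d | Bal d} ≠ 0) :
    IsProbabilityMeasure (PB ν n) := by
  have := hν.prob
  have : IsProbabilityMeasure (PP ν n) := by unfold PP; infer_instance
  exact cond_isProbabilityMeasure h

lemma PP_ae {ν : Measure (ℕ × ℕ)} (hν : Hyp ν) {p : ℕ × ℕ → Prop} (h : ∀ᵐ x ∂ν, p x) (n : ℕ) :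
    ∀ᵐ d ∂(PP ν n), ∀ i, p (d i) := by
  have := hν.prob
  rw [ae_all_iff]
  intro i
  exact (measurePreserving_eval (fun _ : Fin n => ν) i).quasiMeasurePreserving.ae h

end GNot

open GNot in
theorem s_not : S_NOT := by
  intro hA hCnt hSimp hRho hLod ν hν h0
  obtain ⟨hchf, hllt, hhalf, hsums, htyp⟩ := hA
  have hH : HalfC ν := hhalf hchf hllt ν hν
  obtain ⟨-, c1, hc1, N0, hN0⟩ := hllt hchf ν hν
  obtain ⟨A, c, hA0, hc0, N1, hN1⟩ := (htyp hsums ν hν hH (1 / 2) (by norm_num)).1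
  obtain ⟨δ, ε, hδ, hε, N2, hN2⟩ := hLod hCnt hSimp hRho A c hA0 hc0
  refine ⟨ε / 2, by positivity, fun C => ?_⟩
  -- for large `n`, `C n^(1/3) ≤ δ √n`
  obtain ⟨N3, hN3⟩ : ∃ N3 : ℕ, ∀ n ≥ N3, C * (n : ℝ) ^ (1 / 3 : ℝ) ≤ δ * Real.sqrt n := by
    have ht : Tendsto (fun n : ℕ => (n : ℝ) ^ (1 / 6 : ℝ)) atTop atTop :=
      (tendsto_rpow_atTop (by norm_num)).comp tendsto_natCast_atTop_atTop
    obtain ⟨N3, hN3⟩ := Filter.eventually_atTop.1 (ht.eventually_ge_atTop (C / δ))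
    refine ⟨max N3 1, fun n hn => ?_⟩
    have h1 := hN3 n ((le_max_left _ _).trans hn)
    have hn1 : 0 < n := lt_of_lt_of_le one_pos ((le_max_right _ _).trans hn)
    have hn0 : (0 : ℝ) < n := by exact_mod_cast hn1
    have e1 : Real.sqrt n = (n : ℝ) ^ (1 / 3 : ℝ) * (n : ℝ) ^ (1 / 6 : ℝ) := by
      rw [Real.sqrt_eq_rpow, ← Real.rpow_add hn0]
      norm_num
    rw [e1]
    rw [div_le_iff₀ hδ] at h1
    have h3 : (0 : ℝ) ≤ (n : ℝ) ^ (1 / 3 : ℝ) := by positivity
    nlinarith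
  refine ⟨max (max N0 N1) (max (max N2 N3) 1), fun n hn => ?_⟩
  have hnN0 : N0 ≤ n := ((le_max_left _ _).trans (le_max_left _ _)).trans hn
  have hnN1 : N1 ≤ n := ((le_max_right _ _).trans (le_max_left _ _)).trans hn
  have hnN2 : N2 ≤ n :=
    ((le_max_left _ _).trans ((le_max_left _ _).trans (le_max_right _ _))).trans hn
  have hnN3 : N3 ≤ n :=
    ((le_max_right _ _).trans ((le_max_left _ _).trans (le_max_right _ _))).trans hn
  have hn1 : 1 ≤ n := ((le_max_right _ _).trans (le_max_right _ _)).trans hn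
  have hn1' : (0 : ℝ) < n := by exact_mod_cast hn1
  have hbal : PP ν n {d | Bal d} ≠ 0 := by
    have h1 := hN0 n hnN0
    have h2 : 0 < ENNReal.ofReal (c1 / Real.sqrt n) := by
      rw [ENNReal.ofReal_pos]; positivity
    exact (h2.trans_le h1).ne'
  have hprob := PB_prob hν hbal
  have hdeg : ∀ᵐ d ∂(PB ν n), ∀ i, 1 ≤ (d i).1 → (d i).2 = 1 :=
    (PB_ac ν n) (PP_ae hν (deg_ae hν h0) n)
  -- the set of good sequences has measure at least 1/2
  have hgood : (1 / 2 : ℝ≥0∞) ≤ PB ν n {d | Good A c d} := by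
    have h1 : PB ν n {d | Good A c d} + PB ν n {d | ¬ Good A c d} = 1 := by
      have := measure_add_measure_compl (μ := PB ν n) (Base.meas_set {d | Good A c d})
      rw [measure_univ] at this
      exact this
    have h2 : PB ν n {d | ¬ Good A c d} ≤ 1 / 2 := by
      refine (hN1 n hnN1).trans (le_of_eq ?_)
      rw [ENNReal.ofReal_div_of_pos (by norm_num)]
      simp
    have h3 : (1 : ℝ≥0∞) ≤ PB ν n {d | Good A c d} + 1 / 2 :=
      h1.symm.le.trans (add_le_add le_rfl h2)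
    have h4 : (1 : ℝ≥0∞) - 1 / 2 ≤ PB ν n {d | Good A c d} := tsub_le_iff_right.2 h3
    have h5 : (1 : ℝ≥0∞) - 1 / 2 = 1 / 2 := by
      rw [one_div]; exact ENNReal.one_sub_inv_two
    rwa [h5] at h4
  have hlow : ∀ᵐ d ∂(PB ν n), Set.indicator {d | Good A c d} (fun _ => ENNReal.ofReal ε) d ≤
      pD d (C * (n : ℝ) ^ (1 / 3 : ℝ)) := by
    filter_upwards [hdeg] with d hd
    by_cases hg : Good A c d
    · rw [Set.indicator_of_mem (show d ∈ {d | Good A c d} from hg)]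
      exact (hN2 n hnN2 d hg hd).trans (Base.pD_anti d (hN3 n hnN3))
    · rw [Set.indicator_of_notMem (show d ∉ {d | Good A c d} from hg)]
      exact zero_le
  calc ENNReal.ofReal (ε / 2) = ENNReal.ofReal ε * (1 / 2) := by
        rw [ENNReal.ofReal_div_of_pos (by norm_num), div_eq_mul_inv, one_div]
        simp
    _ ≤ ENNReal.ofReal ε * PB ν n {d | Good A c d} := mul_le_mul_right hgood _
    _ = ∫⁻ d, Set.indicator {d | Good A c d} (fun _ => ENNReal.ofReal ε) d ∂(PB ν n) := by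
        rw [lintegral_indicator (Base.meas_set _), lintegral_const, Measure.restrict_apply_univ]
    _ ≤ ∫⁻ d, pD d (C * (n : ℝ) ^ (1 / 3 : ℝ)) ∂(PB ν n) := lintegral_mono_ae hlow

/-- G3 -/
theorem s_gra : S_GRA := by
  classical
  intro hA hCnt hSimp ν hν
  obtain ⟨hchf, hllt, hhalf, hsums, htyp⟩ := hA
  obtain ⟨hlll, hlop, hsimp⟩ := hSimp
  have hH : HalfC ν := hhalf hchf hllt ν hν
  obtain ⟨-, c1, hc1, N0, hN0⟩ := hllt hchf ν hν
  have key : ∀ ε : ℝ, 0 < ε → ∃ N : ℕ, ∀ n ≥ N,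
      IsProbabilityMeasure (PB ν n) ∧
      PB ν n {d | ∃ A : SD n, HasDeg A d}ᶜ ≤ ENNReal.ofReal ε := by
    intro ε hε
    obtain ⟨A, c, hA0, hc0, N1, hN1⟩ := (htyp hsums ν hν hH ε hε).1
    obtain ⟨δ, hδ, N2, hN2⟩ := hsimp hlll hlop A c hA0 hc0
    refine ⟨max (max N0 N1) (max N2 1), fun n hn => ?_⟩
    have hnN0 : N0 ≤ n := ((le_max_left _ _).trans (le_max_left _ _)).trans hn
    have hnN1 : N1 ≤ n := ((le_max_right _ _).trans (le_max_left _ _)).trans hn
    have hnN2 : N2 ≤ n := ((le_max_left _ _).trans (le_max_right _ _)).trans hn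
    have hn1 : 1 ≤ n := ((le_max_right _ _).trans (le_max_right _ _)).trans hn
    have hn1' : (0 : ℝ) < n := by exact_mod_cast hn1
    have hbal : PP ν n {d | Bal d} ≠ 0 := by
      have h1 := hN0 n hnN0
      have h2 : 0 < ENNReal.ofReal (c1 / Real.sqrt n) := by
        rw [ENNReal.ofReal_pos]; positivity
      exact (h2.trans_le h1).ne'
    refine ⟨GNot.PB_prob hν hbal, ?_⟩
    refine (measure_mono ?_).trans (hN1 n hnN1)
    intro d hd hg
    apply hd
    have h1 := hN2 n hnN2 d hg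
    have hne : Nonempty (Cf d) := by
      have hb := hg.bal
      have : Fintype.card (HO d) = Fintype.card (HI d) := by
        rw [Fintype.card_sigma, Fintype.card_sigma]
        simp only [Fintype.card_fin]
        exact hb.symm
      exact ⟨Fintype.equivOfCardEq this⟩
    have h2 : (0 : ℝ) < δ * Fintype.card (Cf d) := by
      have : 0 < Fintype.card (Cf d) := Fintype.card_pos
      have : (0 : ℝ) < Fintype.card (Cf d) := by exact_mod_cast this
      positivity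
    have h3 : (0 : ℝ) < ((Finset.univ.filter fun π : Cf d => Simp π).card : ℝ) :=
      h2.trans_le h1
    have h4 := hCnt n d (fun _ => True)
    simp only [and_true] at h4
    have h5 : 0 < (Finset.univ.filter fun π : Cf d => Simp π).card := by exact_mod_cast h3
    have h6 : (Finset.univ.filter fun A : SD n => HasDeg A d).card ≠ 0 := by
      intro h
      rw [h, mul_zero] at h4
      exact h5.ne' h4
    obtain ⟨A', hA'⟩ := Finset.card_pos.1 (Nat.pos_of_ne_zero h6)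
    rw [Finset.mem_filter] at hA'
    exact ⟨A', hA'.2⟩
  rw [ENNReal.tendsto_atTop (by simp)]
  intro ε hε
  obtain ⟨ε', hε', hle⟩ : ∃ ε' : ℝ, 0 < ε' ∧ ENNReal.ofReal ε' ≤ ε := by
    by_cases ht : ε = ⊤
    · exact ⟨1, one_pos, by rw [ht]; exact le_top⟩
    · exact ⟨ε.toReal, ENNReal.toReal_pos hε.ne' ht, ENNReal.ofReal_toReal_le⟩
  obtain ⟨N, hN⟩ := key ε' hε'
  refine ⟨N, fun n hn => ?_⟩
  obtain ⟨hp, h1⟩ := hN n hn
  rw [Set.mem_Icc]
  constructor
  · rw [tsub_le_iff_right]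
    have h2 : PB ν n {d | ∃ A : SD n, HasDeg A d} + PB ν n {d | ∃ A : SD n, HasDeg A d}ᶜ = 1 := by
      have := measure_add_measure_compl (μ := PB ν n) (Base.meas_set {d | ∃ A : SD n, HasDeg A d})
      rw [measure_univ] at this
      exact this
    exact h2.symm.le.trans (add_le_add le_rfl (h1.trans hle))
  · exact (prob_le_one).trans le_self_add

/-- G4 -/
theorem s_ex : S_EX := by
  classical
  set ν : Measure (ℕ × ℕ) := (3 : ℝ≥0∞)⁻¹ • (Measure.dirac ((0, 1) : ℕ × ℕ) +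
    Measure.dirac ((1, 1) : ℕ × ℕ) + Measure.dirac ((2, 1) : ℕ × ℕ)) with hν
  have h3 : (3 : ℝ≥0∞)⁻¹ ≠ ⊤ := by simp
  have hint : ∀ f : ℕ × ℕ → ℝ, Integrable f ν := by
    intro f
    have hd : ∀ a : ℕ × ℕ, Integrable f (Measure.dirac a) := fun a => integrable_dirac (by simp)
    exact (((hd _).add_measure (hd _)).add_measure (hd _)).smul_measure h3
  have hI : ∀ f : ℕ × ℕ → ℝ, ∫ x, f x ∂ν = (f (0, 1) + f (1, 1) + f (2, 1)) / 3 := by
    intro f
    have hd : ∀ a : ℕ × ℕ, Integrable f (Measure.dirac a) := fun a => integrable_dirac (by simp)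
    rw [hν, integral_smul_measure, integral_add_measure ((hd _).add_measure (hd _)) (hd _),
      integral_add_measure (hd _) (hd _), integral_dirac, integral_dirac, integral_dirac]
    simp only [ENNReal.toReal_inv, ENNReal.toReal_ofNat, smul_eq_mul]
    ring
  have hae : ∀ p : ℕ × ℕ → Prop, (∀ᵐ x ∂ν, p x) → p (0, 1) ∧ p (1, 1) ∧ p (2, 1) := by
    intro p hp
    have h1 : ν {x | ¬ p x} = 0 := hp
    rw [hν, Measure.smul_apply, smul_eq_mul, mul_eq_zero] at h1
    have h2 := h1.resolve_left (by simp)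
    simp only [Measure.coe_add, Pi.add_apply, add_eq_zero] at h2
    obtain ⟨⟨ha, hb⟩, hc⟩ := h2
    have hm : MeasurableSet {x | ¬ p x} := MeasurableSet.of_discrete
    rw [Measure.dirac_apply' _ hm] at ha hb hc
    refine ⟨?_, ?_, ?_⟩
    · by_contra h
      rw [Set.indicator_of_mem (show ((0, 1) : ℕ × ℕ) ∈ {x | ¬ p x} from h)] at ha
      simp at ha
    · by_contra h
      rw [Set.indicator_of_mem (show ((1, 1) : ℕ × ℕ) ∈ {x | ¬ p x} from h)] at hb
      simp at hb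
    · by_contra h
      rw [Set.indicator_of_mem (show ((2, 1) : ℕ × ℕ) ∈ {x | ¬ p x} from h)] at hc
      simp at hc
  refine ⟨ν, ⟨?_, fun i j _ => hint _, ?_, ?_, ?_⟩, ?_⟩
  · constructor
    rw [hν, Measure.smul_apply]
    simp only [Measure.coe_add, Pi.add_apply, measure_univ, smul_eq_mul]
    rw [show (1 : ℝ≥0∞) + 1 + 1 = 3 by norm_num]
    exact ENNReal.inv_mul_cancel (by simp) (by simp)
  · rw [hI, hI]; norm_num
  · intro p hp c h
    obtain ⟨⟨k1, h1⟩, ⟨k2, h2⟩, -⟩ := hae _ h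
    have h4 : (p : ℝ) * ((k2 - k1 : ℤ) : ℝ) = 1 := by
      push_cast
      norm_num at h1 h2
      linarith
    have h5 : (p : ℤ) * (k2 - k1) = 1 := by exact_mod_cast h4
    have h6 : (p : ℤ) ∣ 1 := ⟨_, h5.symm⟩
    have h7 : p ∣ 1 := by exact_mod_cast h6
    have := Nat.dvd_one.1 h7
    omega
  · rw [hI, hI]; norm_num
  · rw [hν, Measure.smul_apply]
    simp only [Measure.coe_add, Pi.add_apply, smul_eq_mul]
    have hm : MeasurableSet {x : ℕ × ℕ | 1 ≤ x.1 ∧ 2 ≤ x.2} := MeasurableSet.of_discrete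
    rw [Measure.dirac_apply' _ hm, Measure.dirac_apply' _ hm, Measure.dirac_apply' _ hm]
    simp

end Pool.Agent.NH71.DC
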