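import Pool.Agent.NH71.DC.Base
import Pool.Agent.NH71.DC.Lop

/-!
# Project DC, F1: a long path in the degenerate case
-/

set_option autoImplicit false

open MeasureTheory ProbabilityTheory Filter Topology
open scoped ENNReal

namespace Pool.Agent.NH71.DC

namespace RhoP

section cnt

variable {X Y : Type} [Fintype X] [Fintype Y]

open Classical in
/-- bijections with given values -/
theorem card_ext (hXY : Fintype.card X = Fintype.card Y) {ι : Type} [Fintype ι] (a : ι → X)
    (b : ι → Y) (ha : Function.Injective a)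
    [DecidablePred fun π : X ≃ Y => ∀ i, π (a i) = b i] :
    (Finset.univ.filter fun π : X ≃ Y => ∀ i, π (a i) = b i).card ≤
      (Fintype.card X - Fintype.card ι).factorial := by
  rcases Finset.eq_empty_or_nonempty (Finset.univ.filter fun π : X ≃ Y => ∀ i, π (a i) = b i) with
    h0 | ⟨π0, h0⟩
  · rw [h0]
    simp
  · rw [Finset.mem_filter] at h0
    have hb : Function.Injective b := by
      intro i j hij
      apply ha
      apply π0.injective
      rw [h0.2 i, h0.2 j, hij]
    have hf : Function.Injective fun i => (a i, b i) := fun i j h => ha (Prod.ext_iff.1 h).1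
    have hM : PM (Finset.univ.image fun i => (a i, b i)) := by
      intro p hp q hq
      rw [Finset.mem_image] at hp hq
      obtain ⟨i, -, rfl⟩ := hp
      obtain ⟨j, -, rfl⟩ := hq
      exact ⟨fun h => congrArg b (ha h), fun h => congrArg a (hb h)⟩
    have h1 := s_lop X Y (Finset.univ.image fun i => (a i, b i)) ∅ hXY hM (by simp)
    rw [Finset.card_image_of_injective _ hf, Finset.card_univ] at h1
    have h2 : (Finset.univ.filter fun π : X ≃ Y => ∀ N ∈ (∅ : Finset (Finset (X × Y))),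
        ¬ Ev N π).card = (Fintype.card X).factorial := by
      rw [Finset.filter_true_of_mem (by simp), Finset.card_univ]
      exact Fintype.card_equiv (Fintype.equivOfCardEq hXY)
    rw [h2] at h1
    have h3 : (Finset.univ.filter fun π : X ≃ Y =>
        Ev (Finset.univ.image fun i => (a i, b i)) π ∧
          ∀ N ∈ (∅ : Finset (Finset (X × Y))), ¬ Ev N π) =
        Finset.univ.filter fun π : X ≃ Y => ∀ i, π (a i) = b i := by
      ext π
      simp only [Finset.mem_filter, Finset.mem_univ, true_and, Finset.notMem_empty,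
        IsEmpty.forall_iff, implies_true, and_true]
      unfold Ev
      constructor
      · intro h i
        exact h (a i, b i) (Finset.mem_image_of_mem _ (Finset.mem_univ i))
      · intro h p hp
        rw [Finset.mem_image] at hp
        obtain ⟨i, -, rfl⟩ := hp
        exact h i
    rw [h3] at h1
    have h4 : (0 : ℝ) < (Fintype.card X).factorial := by exact_mod_cast Nat.factorial_pos _
    have h5 := le_of_mul_le_mul_right h1 h4
    exact_mod_cast h5

/-- the orbit of the half-edges -/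
def xs (σ : Y → X) (x0 : X) (f : X → Y) (i : ℕ) : X := (fun x => σ (f x))^[i] x0

theorem xs_zero (σ : Y → X) (x0 : X) (f : X → Y) : xs σ x0 f 0 = x0 := rfl

theorem xs_succ (σ : Y → X) (x0 : X) (f : X → Y) (i : ℕ) :
    xs σ x0 f (i + 1) = σ (f (xs σ x0 f i)) := Function.iterate_succ_apply' _ _ _

open Classical in
/-- functions with given values on a set of indices -/
theorem card_fix {ι : Type} [Fintype ι] [DecidableEq ι] (J : Finset ι) (z : ι → Y) :
    (Finset.univ.filter fun y : ι → Y => ∀ i ∈ J, y i = z i).card =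
      Fintype.card Y ^ (Fintype.card ι - J.card) := by
  have h1 : (Finset.univ.filter fun y : ι → Y => ∀ i ∈ J, y i = z i) =
      Fintype.piFinset fun i => if i ∈ J then {z i} else Finset.univ := by
    ext y
    simp only [Finset.mem_filter, Finset.mem_univ, true_and, Fintype.mem_piFinset]
    constructor
    · intro h i
      by_cases hi : i ∈ J
      · rw [if_pos hi, Finset.mem_singleton]
        exact h i hi
      · rw [if_neg hi]
        exact Finset.mem_univ _
    · intro h i hi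
      have h2 := h i
      rw [if_pos hi, Finset.mem_singleton] at h2
      exact h2
  rw [h1, Fintype.card_piFinset]
  have h2 : ∀ i, (if i ∈ J then {z i} else (Finset.univ : Finset Y)).card =
      if i ∈ J then 1 else Fintype.card Y := by
    intro i
    split_ifs
    · exact Finset.card_singleton _
    · exact Finset.card_univ
  rw [Finset.prod_congr rfl fun i _ => h2 i, Finset.prod_ite, Finset.prod_const_one, one_mul,
    Finset.prod_const]
  congr 1
  rw [← Finset.card_univ, ← Finset.card_sdiff_of_subset (Finset.subset_univ J)]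
  congr 1
  ext i
  simp

open Classical in
/-- functions with a relation between two values -/
theorem card_two {ι : Type} [Fintype ι] [DecidableEq ι] {a b : ι} (hab : a ≠ b) (R : Y → Y → Prop) :
    (Finset.univ.filter fun y : ι → Y => R (y a) (y b)).card ≤
      Fintype.card Y ^ (Fintype.card ι - 2) *
        (Finset.univ.filter fun p : Y × Y => R p.1 p.2).card := by
  refine Finset.card_le_mul_card_image_of_maps_to (f := fun y => (y a, y b)) ?_ _ ?_
  · intro y hy
    rw [Finset.mem_filter] at hy ⊢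
    exact ⟨Finset.mem_univ _, hy.2⟩
  · intro p _
    have h1 := card_fix ({a, b} : Finset ι) (fun i => if i = a then p.1 else p.2)
    rw [Finset.card_pair hab] at h1
    rw [← h1]
    refine Finset.card_le_card fun y hy => ?_
    rw [Finset.mem_filter] at hy ⊢
    refine ⟨Finset.mem_univ _, fun i hi => ?_⟩
    have h2 := hy.2
    rw [Finset.mem_insert, Finset.mem_singleton] at hi
    rcases hi with rfl | rfl
    · rw [if_pos rfl, ← h2]
    · rw [if_neg hab.symm, ← h2]

open Classical in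
/-- functions with a condition on one value -/
theorem card_one {ι : Type} [Fintype ι] [DecidableEq ι] (a : ι) (R : Y → Prop) :
    (Finset.univ.filter fun y : ι → Y => R (y a)).card ≤
      Fintype.card Y ^ (Fintype.card ι - 1) * (Finset.univ.filter fun p : Y => R p).card := by
  refine Finset.card_le_mul_card_image_of_maps_to (f := fun y => y a) ?_ _ ?_
  · intro y hy
    rw [Finset.mem_filter] at hy ⊢
    exact ⟨Finset.mem_univ _, hy.2⟩
  · intro p _
    have h1 := card_fix ({a} : Finset ι) (fun _ => p)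
    rw [Finset.card_singleton] at h1
    rw [← h1]
    refine Finset.card_le_card fun y hy => ?_
    rw [Finset.mem_filter] at hy ⊢
    refine ⟨Finset.mem_univ _, fun i hi => ?_⟩
    rw [Finset.mem_singleton] at hi
    rw [hi]
    exact hy.2

open Classical in
/-- the bijections whose orbit closes up after `k + 1` steps at the step `s` -/
noncomputable def Bd (σ : Y → X) (x0 : X) (k s : ℕ) : Finset (X ≃ Y) :=
  Finset.univ.filter fun π => (∀ i ≤ k, ∀ j ≤ k, xs σ x0 π i = xs σ x0 π j → i = j) ∧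
    xs σ x0 π (k + 1) = xs σ x0 π s

open Classical in
theorem fibre (hXY : Fintype.card X = Fintype.card Y) (σ : Y → X) (x0 : X) (k s : ℕ)
    (C : Finset (Fin (k + 1) → Y))
    (hC : ∀ π ∈ Bd σ x0 k s, (fun i : Fin (k + 1) => π (xs σ x0 π i)) ∈ C) :
    (Bd σ x0 k s).card ≤ (Fintype.card X - (k + 1)).factorial * C.card := by
  refine Finset.card_le_mul_card_image_of_maps_to
    (f := fun π => fun i : Fin (k + 1) => π (xs σ x0 π i)) hC _ ?_
  intro y _
  rcases Finset.eq_empty_or_nonempty ((Bd σ x0 k s).filter fun π =>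
    (fun i : Fin (k + 1) => π (xs σ x0 π i)) = y) with h0 | ⟨π0, h0⟩
  · rw [h0]
    simp
  · rw [Finset.mem_filter, Bd, Finset.mem_filter] at h0
    obtain ⟨⟨-, hinj, -⟩, hy0⟩ := h0
    have h1 := card_ext hXY (fun i : Fin (k + 1) => xs σ x0 π0 i) y (fun i j h =>
      Fin.ext (hinj i (Nat.lt_succ_iff.1 i.2) j (Nat.lt_succ_iff.1 j.2) h))
    rw [Fintype.card_fin] at h1
    refine le_trans (Finset.card_le_card fun π hπ => ?_) h1
    rw [Finset.mem_filter, Bd, Finset.mem_filter] at hπ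
    obtain ⟨-, hy⟩ := hπ
    rw [Finset.mem_filter]
    refine ⟨Finset.mem_univ _, ?_⟩
    have key : ∀ i : ℕ, i ≤ k → xs σ x0 π i = xs σ x0 π0 i := by
      intro i
      induction i with
      | zero => intro _; rfl
      | succ i ih =>
        intro hi
        have h2 := congrFun hy ⟨i, by omega⟩
        have h3 := congrFun hy0 ⟨i, by omega⟩
        rw [xs_succ, xs_succ]
        exact congrArg σ (h2.trans h3.symm)
    intro i
    rw [← key i (Nat.lt_succ_iff.1 i.2)]
    exact congrFun hy i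

open Classical in
theorem Bd_zero (hXY : Fintype.card X = Fintype.card Y) (σ : Y → X) (x0 : X) (k : ℕ) :
    (Bd σ x0 k 0).card ≤ (Fintype.card X - (k + 1)).factorial *
      (Fintype.card Y ^ k * (Finset.univ.filter fun p : Y => σ p = x0).card) := by
  have h1 := card_one (Y := Y) (Fin.last k) (fun p => σ p = x0)
  rw [Fintype.card_fin, Nat.add_sub_cancel] at h1
  refine le_trans (fibre hXY σ x0 k 0
    (Finset.univ.filter fun y : Fin (k + 1) → Y => σ (y (Fin.last k)) = x0) fun π hπ => ?_)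
    (Nat.mul_le_mul_left _ h1)
  rw [Bd, Finset.mem_filter] at hπ
  rw [Finset.mem_filter]
  refine ⟨Finset.mem_univ _, ?_⟩
  have h2 := hπ.2.2
  rw [xs_succ, xs_zero] at h2
  exact h2

open Classical in
theorem Bd_succ (hXY : Fintype.card X = Fintype.card Y) (σ : Y → X) (x0 : X) (k s : ℕ)
    (hs : s < k) : (Bd σ x0 k (s + 1)).card ≤ (Fintype.card X - (k + 1)).factorial *
      (Fintype.card Y ^ (k - 1) *
        (Finset.univ.filter fun p : Y × Y => σ p.1 = σ p.2).card) := by
  have hne : Fin.last k ≠ (⟨s, by omega⟩ : Fin (k + 1)) := by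
    intro h
    have := congrArg Fin.val h
    simp at this
    omega
  have h1 := card_two (Y := Y) hne (fun p q => σ p = σ q)
  rw [Fintype.card_fin, show k + 1 - 2 = k - 1 by omega] at h1
  refine le_trans (fibre hXY σ x0 k (s + 1)
    (Finset.univ.filter fun y : Fin (k + 1) → Y => σ (y (Fin.last k)) = σ (y ⟨s, by omega⟩))
    fun π hπ => ?_) (Nat.mul_le_mul_left _ h1)
  rw [Bd, Finset.mem_filter] at hπ
  rw [Finset.mem_filter]
  refine ⟨Finset.mem_univ _, ?_⟩
  have h2 := hπ.2.2
  rw [xs_succ, xs_succ] at h2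
  exact h2

theorem facb (L t : ℕ) (h : 2 * (t * t) ≤ L) :
    ((L - t).factorial : ℝ) * (L : ℝ) ^ t ≤ 2 * L.factorial := by
  rcases Nat.eq_zero_or_pos t with rfl | ht
  · simp only [Nat.sub_zero, pow_zero, mul_one]
    have : (0 : ℝ) ≤ (L.factorial : ℝ) := Nat.cast_nonneg _
    linarith
  have htL : t ≤ L := by nlinarith
  have hL : (0 : ℝ) < L := by
    have : 0 < L := by omega
    exact_mod_cast this
  have h1 := Nat.factorial_mul_descFactorial htL
  have h2 := Nat.pow_sub_le_descFactorial L t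
  have h3 : (((L + 1 - t : ℕ) : ℝ)) ^ t ≤ (L.descFactorial t : ℝ) := by exact_mod_cast h2
  have h4 : (L : ℝ) * (1 - t / L) ≤ ((L + 1 - t : ℕ) : ℝ) := by
    rw [Nat.cast_sub (by omega)]
    push_cast
    have : (L : ℝ) * (1 - t / L) = L - t := by field_simp
    rw [this]
    linarith
  have h5 : (0 : ℝ) ≤ 1 - t / L := by
    rw [sub_nonneg, div_le_one hL]
    exact_mod_cast htL
  have h6 : ((L : ℝ) * (1 - t / L)) ^ t ≤ (L.descFactorial t : ℝ) :=
    (pow_le_pow_left₀ (mul_nonneg hL.le h5) h4 t).trans h3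
  have h7 : (1 : ℝ) / 2 ≤ (1 - t / L) ^ t := by
    have h8 := one_add_mul_le_pow (show (-2 : ℝ) ≤ -(t / L) by
      have : (t : ℝ) / L ≤ 1 := by linarith
      linarith) t
    have h9 : (t : ℝ) * (t / L) ≤ 1 / 2 := by
      rw [← mul_div_assoc, div_le_iff₀ hL]
      have : (2 : ℝ) * (t * t) ≤ L := by exact_mod_cast h
      linarith
    have h10 : (1 : ℝ) + -(t / L) = 1 - t / L := by ring
    rw [h10] at h8
    nlinarith
  rw [mul_pow] at h6
  have h11 : ((L - t).factorial : ℝ) * (L.descFactorial t : ℝ) = L.factorial := by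
    exact_mod_cast h1
  have h12 : (0 : ℝ) ≤ ((L - t).factorial : ℝ) := Nat.cast_nonneg _
  have h13 : (0 : ℝ) ≤ (L : ℝ) ^ t := by positivity
  have h14 : (L : ℝ) ^ t ≤ 2 * (L.descFactorial t : ℝ) := by nlinarith
  calc ((L - t).factorial : ℝ) * (L : ℝ) ^ t ≤ (L - t).factorial * (2 * (L.descFactorial t : ℝ)) :=
        mul_le_mul_of_nonneg_left h14 h12
    _ = 2 * L.factorial := by rw [← h11]; ring

open Classical in
/-- the bijections whose orbit is not injective up to `m` -/
noncomputable def Bad (σ : Y → X) (x0 : X) (m : ℕ) : Finset (X ≃ Y) :=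
  Finset.univ.filter fun π => ¬ ∀ i ≤ m, ∀ j ≤ m, xs σ x0 π i = xs σ x0 π j → i = j

open Classical in
theorem Bad_succ (σ : Y → X) (x0 : X) (m : ℕ) :
    Bad σ x0 (m + 1) ⊆ Bad σ x0 m ∪ (Finset.range (m + 1)).biUnion fun s => Bd σ x0 m s := by
  intro π hπ
  rw [Finset.mem_union]
  by_cases h : π ∈ Bad σ x0 m
  · exact Or.inl h
  right
  unfold Bad at h hπ
  rw [Finset.mem_filter] at h hπ
  push Not at h hπ
  have h1 := h (Finset.mem_univ _)
  obtain ⟨-, i, hi, j, hj, hij, hne⟩ := hπ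
  rw [Finset.mem_biUnion]
  have key : ∀ s ≤ m, xs σ x0 π (m + 1) = xs σ x0 π s →
      ∃ a ∈ Finset.range (m + 1), π ∈ Bd σ x0 m a := fun s hs h2 =>
    ⟨s, Finset.mem_range.2 (Nat.lt_succ_of_le hs),
      Finset.mem_filter.2 ⟨Finset.mem_univ _, h1, h2⟩⟩
  by_cases hi' : i ≤ m
  · by_cases hj' : j ≤ m
    · exact absurd (h1 i hi' j hj' hij) hne
    · have : j = m + 1 := by omega
      subst this
      exact key i hi' hij.symm
  · have : i = m + 1 := by omega
    subst this
    exact key j (by omega) hij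

open Classical in
theorem bad_le (hXY : Fintype.card X = Fintype.card Y) (σ : Y → X) (x0 : X)
    (hL : 0 < Fintype.card X) (q0 Q : ℝ) (h0 : 0 ≤ q0) (hQ0 : 0 ≤ Q)
    (hq' : (Nat.card {p : Y // σ p = x0} : ℝ) ≤ q0)
    (hQ' : (Nat.card {p : Y × Y // σ p.1 = σ p.2} : ℝ) ≤ Q) :
    ∀ m : ℕ, 2 * (m * m) ≤ Fintype.card X → ((Bad σ x0 m).card : ℝ) ≤
      2 * (Fintype.card X).factorial *
        (m * q0 / Fintype.card X + m ^ 2 * Q / (Fintype.card X : ℝ) ^ 2) := by
  have hq : ((Finset.univ.filter fun p : Y => σ p = x0).card : ℝ) ≤ q0 := by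
    rwa [← Nat.subtype_card (p := fun p => σ p = x0) _ (fun p => by simp)]
  have hQ : ((Finset.univ.filter fun p : Y × Y => σ p.1 = σ p.2).card : ℝ) ≤ Q := by
    rwa [← Nat.subtype_card (p := fun p : Y × Y => σ p.1 = σ p.2) _ (fun p => by simp)]
  intro m
  induction m with
  | zero =>
    intro _
    have h1 : Bad σ x0 0 = ∅ := by
      unfold Bad
      rw [Finset.filter_eq_empty_iff]
      intro π _ h
      apply h
      intro i hi j hj _
      omega
    rw [h1]
    simp
  | succ m ih =>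
    intro hm
    have ih' := ih (by nlinarith)
    obtain ⟨L, hLd⟩ : ∃ L, L = Fintype.card X := ⟨_, rfl⟩
    have hY : Fintype.card Y = L := by rw [hLd, hXY]
    rw [← hLd] at hL hm ih' ⊢
    have hLr : (0 : ℝ) < L := by exact_mod_cast hL
    have hF := facb L (m + 1) hm
    have hf0 : (0 : ℝ) ≤ ((L - (m + 1)).factorial : ℝ) := Nat.cast_nonneg _
    have hb0 : ((Bd σ x0 m 0).card : ℝ) ≤ 2 * L.factorial * (q0 / L) := by
      have h1 := Bd_zero hXY σ x0 m
      rw [hY, ← hLd] at h1
      have h2 : ((Bd σ x0 m 0).card : ℝ) ≤ ((L - (m + 1)).factorial : ℝ) *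
          ((L : ℝ) ^ m * (Finset.univ.filter fun p : Y => σ p = x0).card) := by exact_mod_cast h1
      refine h2.trans ?_
      rw [← mul_div_assoc, le_div_iff₀ hLr]
      calc ((L - (m + 1)).factorial : ℝ) *
          ((L : ℝ) ^ m * (Finset.univ.filter fun p : Y => σ p = x0).card) * L
          = (((L - (m + 1)).factorial : ℝ) * (L : ℝ) ^ (m + 1)) *
            (Finset.univ.filter fun p : Y => σ p = x0).card := by rw [pow_succ]; ring
        _ ≤ (2 * L.factorial) * q0 := mul_le_mul hF hq (Nat.cast_nonneg _) (by positivity)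
    have hbs : ∀ s ∈ Finset.range (m + 1), s ≠ 0 →
        ((Bd σ x0 m s).card : ℝ) ≤ 2 * L.factorial * (Q / (L : ℝ) ^ 2) := by
      intro s hs hs0
      obtain ⟨s', rfl⟩ := Nat.exists_eq_succ_of_ne_zero hs0
      rw [Finset.mem_range] at hs
      have hsm : s' < m := by omega
      have h1 := Bd_succ hXY σ x0 m s' hsm
      rw [hY, ← hLd] at h1
      have h2 : ((Bd σ x0 m (s' + 1)).card : ℝ) ≤ ((L - (m + 1)).factorial : ℝ) *
          ((L : ℝ) ^ (m - 1) * (Finset.univ.filter fun p : Y × Y => σ p.1 = σ p.2).card) := by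
        exact_mod_cast h1
      refine h2.trans ?_
      have h3 : (L : ℝ) ^ (m + 1) = (L : ℝ) ^ (m - 1) * (L : ℝ) ^ 2 := by
        rw [← pow_add]
        congr 1
        omega
      rw [← mul_div_assoc, le_div_iff₀ (by positivity)]
      calc ((L - (m + 1)).factorial : ℝ) *
          ((L : ℝ) ^ (m - 1) * (Finset.univ.filter fun p : Y × Y => σ p.1 = σ p.2).card) *
            (L : ℝ) ^ 2
          = (((L - (m + 1)).factorial : ℝ) * (L : ℝ) ^ (m + 1)) *
            (Finset.univ.filter fun p : Y × Y => σ p.1 = σ p.2).card := by rw [h3]; ring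
        _ ≤ (2 * L.factorial) * Q := mul_le_mul hF hQ (Nat.cast_nonneg _) (by positivity)
    have hsum : ∑ s ∈ Finset.range (m + 1), ((Bd σ x0 m s).card : ℝ) ≤
        2 * L.factorial * (q0 / L) + m * (2 * L.factorial * (Q / (L : ℝ) ^ 2)) := by
      rw [Finset.sum_range_succ']
      rw [add_comm]
      refine add_le_add hb0 ?_
      refine (Finset.sum_le_sum fun s hs => hbs (s + 1) ?_ (Nat.succ_ne_zero s)).trans ?_
      · rw [Finset.mem_range] at hs ⊢
        omega
      · rw [Finset.sum_const, Finset.card_range, nsmul_eq_mul]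
    have hc : ((Bad σ x0 (m + 1)).card : ℝ) ≤ (Bad σ x0 m).card +
        ∑ s ∈ Finset.range (m + 1), ((Bd σ x0 m s).card : ℝ) := by
      have h1 := (Finset.card_le_card (Bad_succ σ x0 m)).trans (Finset.card_union_le _ _)
      have h2 := h1.trans (Nat.add_le_add_left Finset.card_biUnion_le _)
      exact_mod_cast h2
    refine hc.trans ((add_le_add ih' hsum).trans ?_)
    have hfac : (0 : ℝ) ≤ (L.factorial : ℝ) := Nat.cast_nonneg _
    have h5 : 0 ≤ Q / (L : ℝ) ^ 2 := by positivity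
    push_cast
    have h6 : (2 * (L.factorial : ℝ) * ((m + 1 : ℝ) * q0 / L + (m + 1 : ℝ) ^ 2 * Q / (L : ℝ) ^ 2)) =
        2 * (L.factorial : ℝ) * (m * q0 / L + m ^ 2 * Q / (L : ℝ) ^ 2) +
          (2 * (L.factorial : ℝ) * (q0 / L) + m * (2 * L.factorial * (Q / (L : ℝ) ^ 2))) +
          (m + 1) * (2 * L.factorial * (Q / (L : ℝ) ^ 2)) := by
      ring
    rw [h6]
    have h7 : 0 ≤ ((m : ℝ) + 1) * (2 * L.factorial * (Q / (L : ℝ) ^ 2)) := by positivity
    linarith

theorem bad_le' (hXY : Fintype.card X = Fintype.card Y) (σ : Y → X) (x0 : X)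
    (hL : 0 < Fintype.card X) (q0 Q : ℝ) (h0 : 0 ≤ q0) (hQ0 : 0 ≤ Q)
    (hq' : (Nat.card {p : Y // σ p = x0} : ℝ) ≤ q0)
    (hQ' : (Nat.card {p : Y × Y // σ p.1 = σ p.2} : ℝ) ≤ Q) (m : ℕ)
    (hm : 2 * (m * m) ≤ Fintype.card X) :
    (Nat.card {π : X ≃ Y // ¬ ∀ i ≤ m, ∀ j ≤ m, xs σ x0 π i = xs σ x0 π j → i = j} : ℝ) ≤
      2 * (Fintype.card X).factorial *
        (m * q0 / Fintype.card X + m ^ 2 * Q / (Fintype.card X : ℝ) ^ 2) := by
  classical
  rw [Nat.subtype_card (p := fun π : X ≃ Y =>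
    ¬ ∀ i ≤ m, ∀ j ≤ m, xs σ x0 π i = xs σ x0 π j → i = j) (Bad σ x0 m)
    (fun π => by unfold Bad; rw [Finset.mem_filter]; simp)]
  exact bad_le hXY σ x0 hL q0 Q h0 hQ0 hq' hQ' m hm

end cnt

section app

variable {n : ℕ} {d : DS n}

/-- the out-half-edge of the vertex of an in-half-edge -/
def sg (hd : ∀ i, 1 ≤ (d i).1 → (d i).2 = 1) (y : HI d) : HO d :=
  ⟨y.1, ⟨0, by
    have h1 : 1 ≤ (d y.1).1 := by
      have := y.2.2
      omega
    rw [hd y.1 h1]
    norm_num⟩⟩

theorem ho_unique (hd : ∀ i, 1 ≤ (d i).1 → (d i).2 = 1) {x x' : HO d} (h : 1 ≤ (d x.1).1)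
    (hx : x.1 = x'.1) : x = x' := by
  obtain ⟨i, a⟩ := x
  obtain ⟨j, b⟩ := x'
  change i = j at hx
  subst hx
  have h1 := hd i h
  have ha := a.2
  have hb := b.2
  have : a = b := Fin.ext (by omega)
  rw [this]

theorem ind_pos (hd : ∀ i, 1 ≤ (d i).1 → (d i).2 = 1) (x0 : HO d) (h0 : 1 ≤ (d x0.1).1)
    (π : Cf d) (i : ℕ) : 1 ≤ (d (xs (sg hd) x0 π i).1).1 := by
  cases i with
  | zero => exact h0
  | succ i =>
    rw [xs_succ]
    have := (π (xs (sg hd) x0 π i)).2.2
    change 1 ≤ (d (π (xs (sg hd) x0 π i)).1).1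
    omega

theorem arc_iff (hd : ∀ i, 1 ≤ (d i).1 → (d i).2 = 1) (x0 : HO d) (h0 : 1 ≤ (d x0.1).1)
    (π : Cf d) (i : ℕ) (w : Fin n) :
    Arc π (xs (sg hd) x0 π i).1 w ↔ w = (xs (sg hd) x0 π (i + 1)).1 := by
  rw [xs_succ]
  constructor
  · rintro ⟨x, hx, hw⟩
    have h1 := ho_unique hd (ind_pos hd x0 h0 π i) hx.symm
    rw [← hw, ← h1]
    rfl
  · rintro rfl
    exact ⟨_, rfl, rfl⟩

theorem walk_iff (hd : ∀ i, 1 ≤ (d i).1 → (d i).2 = 1) (x0 : HO d) (h0 : 1 ≤ (d x0.1).1)
    (π : Cf d) (m : ℕ) : ∀ (i : ℕ) (w : Fin n),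
    Walk (Arc π) m (xs (sg hd) x0 π i).1 w ↔ w = (xs (sg hd) x0 π (i + m)).1 := by
  induction m with
  | zero =>
    intro i w
    constructor
    · intro h
      cases h
      rfl
    · rintro rfl
      exact Walk.nil _
  | succ m ih =>
    intro i w
    have e : i + (m + 1) = (i + 1) + m := by ring
    rw [e]
    constructor
    · intro h
      cases h with
      | cons h1 h2 =>
        rw [arc_iff hd x0 h0 π i] at h1
        rw [h1] at h2
        exact (ih (i + 1) w).1 h2
    · rintro rfl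
      exact Walk.cons ((arc_iff hd x0 h0 π i _).2 rfl) ((ih (i + 1) _).2 rfl)

theorem dist_of (hd : ∀ i, 1 ≤ (d i).1 → (d i).2 = 1) (x0 : HO d) (h0 : 1 ≤ (d x0.1).1)
    (π : Cf d) (m : ℕ)
    (h : ∀ i ≤ m, ∀ j ≤ m, xs (sg hd) x0 π i = xs (sg hd) x0 π j → i = j) :
    DistEq (Arc π) m x0.1 (xs (sg hd) x0 π m).1 := by
  have h1 := fun k => walk_iff hd x0 h0 π k 0
  simp only [zero_add] at h1
  refine ⟨(h1 m _).2 rfl, fun m' hm' hw => ?_⟩
  have h2 := (h1 m' _).1 hw
  have h3 := ho_unique hd (ind_pos hd x0 h0 π m) h2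
  have := h m le_rfl m' hm'.le h3
  omega

open Classical in
theorem card_at (u : Fin n) : (Finset.univ.filter fun p : HI d => p.1 = u).card = (d u).1 := by
  rw [Finset.card_filter, Fintype.sum_sigma]
  have h1 : ∀ i, (∑ _a : Fin (d i).1, if i = u then 1 else 0) = if i = u then (d i).1 else 0 := by
    intro i
    split_ifs <;> simp
  exact (Finset.sum_congr rfl fun i _ => h1 i).trans (by simp)

open Classical in
theorem card_pair : ((Finset.univ.filter fun p : HI d × HI d => p.1.1 = p.2.1).card : ℝ) =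
    ∑ i, ((d i).1 : ℝ) ^ 2 := by
  have h1 : (Finset.univ.filter fun p : HI d × HI d => p.1.1 = p.2.1).card =
      ∑ i, (d i).1 * (d i).1 := by
    rw [Finset.card_filter, Fintype.sum_prod_type]
    have h2 : ∀ p : HI d, (∑ q : HI d, if p.1 = q.1 then 1 else 0) = (d p.1).1 := by
      intro p
      rw [← card_at (d := d) p.1, Finset.card_filter]
      refine Finset.sum_congr rfl fun q _ => ?_
      by_cases h : p.1 = q.1
      · rw [if_pos h, if_pos h.symm]
      · rw [if_neg h, if_neg (fun h' => h h'.symm)]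
    rw [Finset.sum_congr rfl fun p _ => h2 p, Fintype.sum_sigma]
    simp
  rw [h1]
  push_cast
  exact Finset.sum_congr rfl fun i _ => by ring

end app

end RhoP

open RhoP Classical in
/-- F1. -/
theorem s_rho : S_RHO := by
  intro A c ε hA hc hε
  have hK : 0 < 4 * Real.sqrt A / c + 8 * A / c ^ 2 := by positivity
  obtain ⟨δ, hδ0, hδ1, hδc, hδε⟩ : ∃ δ : ℝ, 0 < δ ∧ δ ≤ 1 ∧ 8 * δ ≤ c ∧
      δ * (4 * Real.sqrt A / c + 8 * A / c ^ 2) ≤ ε := by
    refine ⟨min (min 1 (c / 8)) (ε / (4 * Real.sqrt A / c + 8 * A / c ^ 2)), by positivity, ?_, ?_,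
      ?_⟩
    · exact (min_le_left _ _).trans (min_le_left _ _)
    · have := (min_le_left (min 1 (c / 8)) (ε / (4 * Real.sqrt A / c + 8 * A / c ^ 2))).trans
        (min_le_right _ _)
      linarith
    · rw [← le_div_iff₀ hK]
      exact min_le_right _ _
  refine ⟨δ, hδ0, ⌈1 / δ ^ 2⌉₊ + 1, fun n hn d hg hd => ?_⟩
  have hn1 : (1 : ℝ) / δ ^ 2 ≤ n := (Nat.le_ceil _).trans (by exact_mod_cast (by omega))
  have hnpos : (0 : ℝ) < n := lt_of_lt_of_le (by positivity) hn1
  have hs1 : 1 ≤ δ * Real.sqrt n := by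
    have h1 : 1 ≤ δ ^ 2 * n := by
      rw [div_le_iff₀ (by positivity)] at hn1
      linarith
    have h2 := Real.sqrt_le_sqrt h1
    rw [Real.sqrt_one, Real.sqrt_mul (by positivity), Real.sqrt_sq hδ0.le] at h2
    exact h2
  obtain ⟨L, hLd⟩ : ∃ L, L = Fintype.card (HO d) := ⟨_, rfl⟩
  have hHO : Fintype.card (HO d) = ∑ i, (d i).2 := by simp
  have hHI : Fintype.card (HI d) = ∑ i, (d i).1 := by simp
  have hXY : Fintype.card (HO d) = Fintype.card (HI d) := by
    rw [hHO, hHI]
    exact hg.bal.symm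
  have hLlow : c * n ≤ (L : ℝ) := by
    rw [hLd, hXY, hHI]
    push_cast
    exact hg.low
  have hLr : (0 : ℝ) < L := lt_of_lt_of_le (by positivity) hLlow
  have hLpos : 0 < Fintype.card (HO d) := by
    rw [← hLd]
    exact_mod_cast hLr
  -- a vertex with positive in-degree
  obtain ⟨u, hu⟩ : ∃ u, 1 ≤ (d u).1 := by
    by_contra hcon
    push Not at hcon
    have h1 : ∑ i, (d i).1 = 0 := Finset.sum_eq_zero fun i _ => by
      have := hcon i
      omega
    rw [hXY, hHI, h1] at hLpos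
    omega
  let x0 : HO d := ⟨u, ⟨0, by rw [hd u hu]; norm_num⟩⟩
  have hx0 : 1 ≤ (d x0.1).1 := hu
  have hsq1 : ∑ i, ((d i).1 : ℝ) ^ 2 ≤ A * n := by
    refine le_trans (Finset.sum_le_sum fun i _ => ?_) hg.sq
    nlinarith [sq_nonneg ((d i).2 : ℝ)]
  have hq0 : ((d u).1 : ℝ) ≤ Real.sqrt (A * n) := by
    apply Real.le_sqrt_of_sq_le
    refine le_trans ?_ hsq1
    exact Finset.single_le_sum (f := fun i => ((d i).1 : ℝ) ^ 2) (fun i _ => sq_nonneg _)
      (Finset.mem_univ u)
  -- the length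
  obtain ⟨m, hmd⟩ : ∃ m : ℕ, m = ⌊δ * Real.sqrt n⌋₊ + 1 := ⟨_, rfl⟩
  have hm1 : δ * Real.sqrt n < m := by
    rw [hmd]
    push_cast
    exact Nat.lt_floor_add_one _
  have hm2 : (m : ℝ) ≤ 2 * (δ * Real.sqrt n) := by
    have h1 := Nat.floor_le (a := δ * Real.sqrt n) (by positivity)
    rw [hmd]
    push_cast
    linarith
  have hsn : Real.sqrt n * Real.sqrt n = n := Real.mul_self_sqrt hnpos.le
  have hmm : (m : ℝ) ^ 2 ≤ 4 * δ ^ 2 * n := by
    have h1 : (m : ℝ) ^ 2 ≤ (2 * (δ * Real.sqrt n)) ^ 2 :=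
      pow_le_pow_left₀ (Nat.cast_nonneg m) hm2 2
    refine h1.trans (le_of_eq ?_)
    have h2 : Real.sqrt n ^ 2 = n := Real.sq_sqrt hnpos.le
    rw [mul_pow, mul_pow, h2]
    ring
  have hδ2 : δ ^ 2 ≤ δ := by nlinarith
  have hmL : 2 * (m * m) ≤ Fintype.card (HO d) := by
    rw [← hLd]
    have h1 : (2 : ℝ) * (m * m) ≤ L := by
      have h2 : 8 * δ ^ 2 * n ≤ c * n := by
        refine mul_le_mul_of_nonneg_right ?_ hnpos.le
        linarith
      nlinarith
    exact_mod_cast h1
  have hb := bad_le' hXY (sg hd) x0 hLpos (Real.sqrt (A * n)) (A * n) (Real.sqrt_nonneg _)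
    (by positivity) (le_trans ?_ hq0) (le_trans ?_ hsq1) m hmL
  rotate_left
  · classical
    have h1 := card_at (d := d) u
    rw [← Nat.subtype_card (p := fun p : HI d => p.1 = u) _ (fun p => by simp)] at h1
    rw [← h1]
    refine Nat.cast_le.2 (Nat.card_le_card_of_injective (fun p => ⟨p.1, congrArg Sigma.fst p.2⟩) ?_)
    intro a b hab
    exact Subtype.ext (congrArg (fun z => z.1) hab)
  · classical
    have h1 := card_pair (d := d)
    rw [← Nat.subtype_card (p := fun p : HI d × HI d => p.1.1 = p.2.1) _ (fun p => by simp)] at h1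
    rw [← h1]
    refine Nat.cast_le.2 (Nat.card_le_card_of_injective (fun p => ⟨p.1, by
      have h2 := congrArg Sigma.fst p.2
      exact h2⟩) ?_)
    intro a b hab
    exact Subtype.ext (congrArg (fun z => z.1) hab)
  -- comparison
  have hle : (Finset.univ.filter fun π : Cf d => ¬ ∃ m : ℕ, δ * Real.sqrt n < m ∧ ∃ v w,
      DistEq (Arc π) m v w).card ≤ Nat.card {π : Cf d //
        ¬ ∀ i ≤ m, ∀ j ≤ m, xs (sg hd) x0 π i = xs (sg hd) x0 π j → i = j} := by
    rw [← Nat.subtype_card (p := fun π : Cf d => ¬ ∃ m : ℕ, δ * Real.sqrt n < m ∧ ∃ v w,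
      DistEq (Arc π) m v w) _ (fun π => by rw [Finset.mem_filter]; simp)]
    refine Nat.card_le_card_of_injective (fun π => ⟨π.1, fun hcon => ?_⟩) ?_
    · exact π.2 ⟨m, hm1, _, _, dist_of hd x0 hx0 π.1 m hcon⟩
    · intro a b hab
      exact Subtype.ext (congrArg (fun z => z.1) hab)
  have hcard : Fintype.card (Cf d) = L.factorial := by
    rw [hLd]
    exact Fintype.card_equiv (Fintype.equivOfCardEq hXY)
  have hle' : ((Finset.univ.filter fun π : Cf d => ¬ ∃ m : ℕ, δ * Real.sqrt n < m ∧ ∃ v w,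
      DistEq (Arc π) m v w).card : ℝ) ≤ Nat.card {π : Cf d //
        ¬ ∀ i ≤ m, ∀ j ≤ m, xs (sg hd) x0 π i = xs (sg hd) x0 π j → i = j} := Nat.cast_le.2 hle
  refine hle'.trans (hb.trans ?_)
  rw [← hLd]
  have hfin : 2 * (m * Real.sqrt (A * n) / L + m ^ 2 * (A * n) / (L : ℝ) ^ 2) ≤ ε := by
    refine le_trans ?_ hδε
    have h1 : (m : ℝ) * Real.sqrt (A * n) / L ≤ 2 * δ * Real.sqrt A / c := by
      rw [div_le_div_iff₀ hLr hc, Real.sqrt_mul hA.le]
      have h2 : (m : ℝ) * (Real.sqrt A * Real.sqrt n) ≤ 2 * δ * Real.sqrt A * n := by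
        have h3 : (m : ℝ) * (Real.sqrt A * Real.sqrt n) ≤
            2 * (δ * Real.sqrt n) * (Real.sqrt A * Real.sqrt n) :=
          mul_le_mul_of_nonneg_right hm2 (by positivity)
        refine h3.trans (le_of_eq ?_)
        have : 2 * (δ * Real.sqrt n) * (Real.sqrt A * Real.sqrt n) =
          2 * δ * Real.sqrt A * (Real.sqrt n * Real.sqrt n) := by ring
        rw [this, hsn]
      calc (m : ℝ) * (Real.sqrt A * Real.sqrt n) * c ≤ 2 * δ * Real.sqrt A * n * c :=
            mul_le_mul_of_nonneg_right h2 hc.le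
        _ = 2 * δ * Real.sqrt A * (c * n) := by ring
        _ ≤ 2 * δ * Real.sqrt A * L := mul_le_mul_of_nonneg_left hLlow (by positivity)
    have h4 : (m : ℝ) ^ 2 * (A * n) / (L : ℝ) ^ 2 ≤ 4 * δ * A / c ^ 2 := by
      rw [div_le_div_iff₀ (by positivity) (by positivity)]
      have h5 : (m : ℝ) ^ 2 ≤ 4 * δ * n := by
        refine hmm.trans ?_
        have : 4 * δ ^ 2 * n ≤ 4 * δ * n := by
          refine mul_le_mul_of_nonneg_right ?_ hnpos.le
          linarith
        exact this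
      have h6 : (c * n) ^ 2 ≤ (L : ℝ) ^ 2 := pow_le_pow_left₀ (by positivity) hLlow 2
      calc (m : ℝ) ^ 2 * (A * n) * c ^ 2 ≤ (4 * δ * n) * (A * n) * c ^ 2 := by gcongr
        _ = 4 * δ * A * (c * n) ^ 2 := by ring
        _ ≤ 4 * δ * A * (L : ℝ) ^ 2 := mul_le_mul_of_nonneg_left h6 (by positivity)
    have h7 : δ * (4 * Real.sqrt A / c + 8 * A / c ^ 2) =
        2 * (2 * δ * Real.sqrt A / c + 4 * δ * A / c ^ 2) := by ring
    rw [h7]
    linarith
  rw [hcard]
  have hfac : (0 : ℝ) ≤ (L.factorial : ℝ) := Nat.cast_nonneg _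
  calc 2 * (L.factorial : ℝ) * (m * Real.sqrt (A * n) / L + m ^ 2 * (A * n) / (L : ℝ) ^ 2)
      = (2 * (m * Real.sqrt (A * n) / L + m ^ 2 * (A * n) / (L : ℝ) ^ 2)) * L.factorial := by ring
    _ ≤ ε * L.factorial := mul_le_mul_of_nonneg_right hfin hfac

end Pool.Agent.NH71.DC
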