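import Mathlib

/-!
# Project DC (MP_269591_pr): diameter of the critical directed configuration model

Definitions and the statements of the pieces. Nothing is proved here.
`(d i).1` is the in-degree, `(d i).2` the out-degree of the vertex `i`.
-/

set_option autoImplicit false

open MeasureTheory ProbabilityTheory Filter Topology
open scoped ENNReal

namespace Pool.Agent.NH71.DC

/-! ## digraphs -/

/-- There is a walk of length `m` from `u` to `v`. -/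
inductive Walk {V : Type} (R : V → V → Prop) : ℕ → V → V → Prop
  | nil (v : V) : Walk R 0 v v
  | cons {m : ℕ} {u v w : V} : R u v → Walk R m v w → Walk R (m + 1) u w

/-- `v` can be reached from `u`, and the shortest directed path has length `m`. -/
def DistEq {V : Type} (R : V → V → Prop) (m : ℕ) (u v : V) : Prop :=
  Walk R m u v ∧ ∀ m' < m, ¬ Walk R m' u v

/-- The diameter: the largest distance between two vertices `u → v`. -/
noncomputable def diam {V : Type} (R : V → V → Prop) : ℕ := sSup {m | ∃ u v, DistEq R m u v}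

/-- Simple digraphs with the vertices `Fin n`: no loops, no multiple arcs. -/
abbrev SD (n : ℕ) : Type := {A : Fin n → Fin n → Bool // ∀ i, A i i = false}

/-- The arcs. -/
def SD.arc {n : ℕ} (A : SD n) (i j : Fin n) : Prop := A.1 i j = true

/-- degree sequences: `(in-degree, out-degree)` for each vertex -/
abbrev DS (n : ℕ) : Type := Fin n → ℕ × ℕ

/-- equal total in- and out-degree -/
def Bal {n : ℕ} (d : DS n) : Prop := ∑ i, (d i).1 = ∑ i, (d i).2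

/-- `A` has the degree sequence `d`. -/
def HasDeg {n : ℕ} (A : SD n) (d : DS n) : Prop :=
  ∀ i, (Finset.univ.filter fun j => A.1 j i = true).card = (d i).1 ∧
    (Finset.univ.filter fun j => A.1 i j = true).card = (d i).2

open Classical in
/-- The probability that the uniform simple digraph with degree sequence `d` has diameter `> x`. -/
noncomputable def pD {n : ℕ} (d : DS n) (x : ℝ) : ℝ≥0∞ :=
  ((Finset.univ.filter fun A : SD n => HasDeg A d ∧ x < diam A.arc).card : ℝ≥0∞) /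
    ((Finset.univ.filter fun A : SD n => HasDeg A d).card : ℝ≥0∞)

/-- `n` independent pairs with law `ν` -/
noncomputable def PP (ν : Measure (ℕ × ℕ)) (n : ℕ) : Measure (DS n) := Measure.pi fun _ => ν

/-- ... conditioned on equal total in- and out-degree -/
noncomputable def PB (ν : Measure (ℕ × ℕ)) (n : ℕ) : Measure (DS n) := cond (PP ν n) {d | Bal d}

/-- The probability that the random digraph has diameter `> x`. -/
noncomputable def PG (ν : Measure (ℕ × ℕ)) (n : ℕ) (x : ℝ) : ℝ≥0∞ := ∫⁻ d, pD d x ∂(PB ν n)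

/-- The assumptions 1-4 of the problem. -/
structure Hyp (ν : Measure (ℕ × ℕ)) : Prop where
  prob : IsProbabilityMeasure ν
  mom : ∀ i j : ℕ, (1 ≤ i + j ∧ i + j ≤ 3) ∨ (i = 1 ∧ j = 3) ∨ (i = 3 ∧ j = 1) →
    Integrable (fun x : ℕ × ℕ => (x.1 : ℝ) ^ i * (x.2 : ℝ) ^ j) ν
  mean : ∫ x, (x.1 : ℝ) ∂ν = ∫ x, (x.2 : ℝ) ∂ν
  aper : ∀ p : ℕ, 1 < p → ∀ c : ℝ, ¬ ∀ᵐ x ∂ν, ∃ k : ℤ, (x.1 : ℝ) - x.2 = c + p * k
  crit : ∫ x, (x.1 : ℝ) * x.2 ∂ν = ∫ x, (x.1 : ℝ) ∂ν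

/-- Tightness of `n ^ (-1/3) Diam`. -/
def Tight (ν : Measure (ℕ × ℕ)) : Prop := ∀ ε : ℝ, 0 < ε → ∃ C : ℝ, ∀ n : ℕ,
  PG ν n (C * (n : ℝ) ^ (1 / 3 : ℝ)) ≤ ENNReal.ofReal ε

/-- The nondegeneracy condition. -/
def Nondeg (ν : Measure (ℕ × ℕ)) : Prop :=
  ν {x | 1 ≤ x.1 ∧ 2 ≤ x.2} ≠ 0 ∧ ν {x | 2 ≤ x.1 ∧ 1 ≤ x.2} ≠ 0

/-! ## A. The local limit theorem and the conditioning -/

/-- characteristic function of `D⁻ - D⁺` -/
noncomputable def ph (ν : Measure (ℕ × ℕ)) (t : ℝ) : ℂ :=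
  ∫ x, Complex.exp (Complex.I * t * ((x.1 : ℂ) - x.2)) ∂ν

/-- A1. `|φ(t)| ≤ exp (-c t²)` on `[-π, π]` (`|φ(t)| < 1` for `0 < |t| ≤ π` by strong aperiodicity,
continuity and compactness, and second order Taylor expansion at `0`), and
`φ(u/√n)^n → exp (-σ² u² / 2)` with `σ² = ∫ (D⁻ - D⁺)² > 0`. -/
def S_CHF : Prop := ∀ ν : Measure (ℕ × ℕ), Hyp ν →
  (∃ c : ℝ, 0 < c ∧ ∀ t : ℝ, |t| ≤ Real.pi → ‖ph ν t‖ ≤ Real.exp (-c * t ^ 2)) ∧
  ∃ σ2 : ℝ, 0 < σ2 ∧ ∀ u : ℝ, Tendsto (fun n : ℕ => (ph ν (u / Real.sqrt n)) ^ n) atTop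
    (𝓝 ((Real.exp (-σ2 * u ^ 2 / 2) : ℝ) : ℂ))

/-- A2. Local limit theorem, upper and lower bound. Fourier inversion:
`P(S_m = x) = (2π)⁻¹ ∫_{-π}^{π} exp(-itx) φ(t)^m dt`. Upper bound: `|φ(t)|^m ≤ exp(-cmt²)`.
Lower bound: `√n P(S_n = 0) = (2π)⁻¹ ∫_{|u| ≤ π√n} φ(u/√n)^n du → (2π)⁻¹ ∫ exp(-σ²u²/2) > 0` by
dominated convergence. -/
def S_LLT : Prop := S_CHF → ∀ ν : Measure (ℕ × ℕ), Hyp ν →
  (∃ C : ℝ, 0 < C ∧ ∀ m : ℕ, 1 ≤ m → ∀ x : ℤ,
    PP ν m {d | ∑ i, (((d i).1 : ℤ) - (d i).2) = x} ≤ ENNReal.ofReal (C / Real.sqrt m)) ∧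
  ∃ c : ℝ, 0 < c ∧ ∃ N : ℕ, ∀ n ≥ N, ENNReal.ofReal (c / Real.sqrt n) ≤ PP ν n {d | Bal d}

/-- For events which depend on the coordinates in `H` only, with `#Hᶜ ≥ n/3`, conditioning on `Bal`
costs a constant factor. -/
def HalfC (ν : Measure (ℕ × ℕ)) : Prop := ∃ K : ℝ, 0 < K ∧ ∃ N : ℕ, ∀ n ≥ N,
  ∀ (H : Finset (Fin n)) (E : Set (DS n)), n ≤ 3 * Hᶜ.card →
    (∀ d d' : DS n, (∀ i ∈ H, d i = d' i) → (d ∈ E ↔ d' ∈ E)) →
    PB ν n E ≤ ENNReal.ofReal K * PP ν n E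

/-- A3. `P(E, Bal) = ∑_{d_H ∈ E} P(d_H) P(S_{Hᶜ} = -S_H) ≤ P(E) C/√(n/3)` and
`P(Bal) ≥ c/√n` (`MeasureTheory.measurePreserving_piEquivPiSubtypeProd`, Fubini; all sets are
measurable, the spaces are countable). -/
def S_HALF : Prop := S_CHF → S_LLT → ∀ ν : Measure (ℕ × ℕ), Hyp ν → HalfC ν

/-- A4. Markov and Chebyshev for the conditioned sequence: split the sum in the two halves
`i < n/2`, `i ≥ n/2` and use `HalfC` for each half. -/
def S_SUMS : Prop := ∀ ν : Measure (ℕ × ℕ), IsProbabilityMeasure ν → HalfC ν →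
  (∀ h : ℕ × ℕ → ℝ, (∀ x, 0 ≤ h x) → Integrable h ν → ∀ ε : ℝ, 0 < ε → ∃ A : ℝ, 0 < A ∧
    ∃ N : ℕ, ∀ n ≥ N, PB ν n {d | A * n < ∑ i, h (d i)} ≤ ENNReal.ofReal ε) ∧
  (∀ h : ℕ × ℕ → ℝ, Integrable h ν → Integrable (fun x => h x ^ 2) ν → ∀ ε : ℝ, 0 < ε →
    ∃ A : ℝ, 0 < A ∧ ∃ N : ℕ, ∀ n ≥ N,
      PB ν n {d | A * Real.sqrt n < |∑ i, h (d i) - n * ∫ x, h x ∂ν|} ≤ ENNReal.ofReal ε)

/-- good degree sequences -/
structure Good (A c : ℝ) {n : ℕ} (d : DS n) : Prop where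
  bal : Bal d
  low : c * n ≤ ∑ i, ((d i).1 : ℝ)
  sq : ∑ i, (((d i).1 : ℝ) ^ 2 + ((d i).2 : ℝ) ^ 2) ≤ A * n

/-- critical nondegenerate degree sequences -/
structure Crit (A c : ℝ) {n : ℕ} (d : DS n) : Prop extends Good A c d where
  crit : ∑ i, ((d i).1 : ℝ) * (d i).2 ≤ ∑ i, ((d i).1 : ℝ) + A * Real.sqrt n
  out2 : c * n ≤ ∑ i, (if 2 ≤ (d i).2 then ((d i).1 : ℝ) else 0)
  in2 : c * n ≤ ∑ i, (if 2 ≤ (d i).1 then ((d i).2 : ℝ) else 0)

/-- A5. Typical degree sequences. `low`, `out2`, `in2`, `crit` by Chebyshev for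
`h = D⁻`, `D⁻ 1[D⁺ ≥ 2]`, `D⁺ 1[D⁻ ≥ 2]`, `D⁻ D⁺ - D⁻` (mean `0` by `Hyp.crit`; the second moment is
finite since `D⁻² D⁺² ≤ (D⁻³ D⁺ + D⁻ D⁺³)/2`), `sq` by Markov for `h = D⁻² + D⁺²`. -/
def S_TYP : Prop := S_SUMS → ∀ ν : Measure (ℕ × ℕ), Hyp ν → HalfC ν → ∀ ε : ℝ, 0 < ε →
  (∃ A c : ℝ, 0 < A ∧ 0 < c ∧ ∃ N : ℕ, ∀ n ≥ N,
    PB ν n {d | ¬ Good A c d} ≤ ENNReal.ofReal ε) ∧
  (Nondeg ν → ∃ A c : ℝ, 0 < A ∧ 0 < c ∧ ∃ N : ℕ, ∀ n ≥ N,
    PB ν n {d | ¬ Crit A c d} ≤ ENNReal.ofReal ε)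

/-! ## B. The configuration model -/

/-- out-half-edges -/
abbrev HO {n : ℕ} (d : DS n) : Type := Σ i : Fin n, Fin (d i).2
/-- in-half-edges -/
abbrev HI {n : ℕ} (d : DS n) : Type := Σ i : Fin n, Fin (d i).1
/-- configurations: bijections between the out-half-edges and the in-half-edges -/
abbrev Cf {n : ℕ} (d : DS n) : Type := HO d ≃ HI d

/-- arcs of a configuration, without the out-half-edges in `F` -/
def ArcF {X Y V : Type} (ox : X → V) (oy : Y → V) (π : X ≃ Y) (F : Finset X) (i j : V) : Prop :=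
  ∃ x, x ∉ F ∧ ox x = i ∧ oy (π x) = j

/-- arcs of a configuration -/
def Arc {n : ℕ} {d : DS n} (π : Cf d) (i j : Fin n) : Prop := ∃ x : HO d, x.1 = i ∧ (π x).1 = j

/-- simple configurations -/
def Simp {n : ℕ} {d : DS n} (π : Cf d) : Prop :=
  (∀ x : HO d, (π x).1 ≠ x.1) ∧ ∀ x y : HO d, x ≠ y → x.1 = y.1 → (π x).1 ≠ (π y).1

open Classical in
/-- B1. Each simple digraph with degree sequence `d` comes from `∏ (d i).1! (d i).2!` simple
configurations. (`{π simple with graph A} ≃ ∏_i (Fin (d i).2 ≃ N⁺(i)) × ∏_j (Fin (d j).1 ≃ N⁻(j))`.)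
-/
def S_CNT : Prop := ∀ (n : ℕ) (d : DS n) (Q : (Fin n → Fin n → Prop) → Prop),
  (Finset.univ.filter fun π : Cf d => Simp π ∧ Q (Arc π)).card =
    (∏ i, ((d i).1.factorial * (d i).2.factorial)) *
      (Finset.univ.filter fun A : SD n => HasDeg A d ∧ Q A.arc).card

open Classical in
/-- B2. Lopsided local lemma, counting form. By induction on `#S`:
`#(A i ∧ avoid S) ≤ 2 q i #(avoid S)` for `i ∉ S`; then `#avoid I ≥ ∏ (1 - 2 q i) #Ω` and
`1 - 2q ≥ exp(-4q)` for `0 ≤ q ≤ 1/4`. -/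
def S_LLL : Prop := ∀ (Ω ι : Type) [Fintype Ω] [Nonempty Ω] (E : ι → Ω → Prop) (I : Finset ι)
  (nb : ι → ι → Prop) (q : ι → ℝ), (∀ i ∈ I, 0 ≤ q i ∧ q i ≤ 1 / 4) →
  (∀ i ∈ I, ∑ j ∈ I.filter (nb i), q j ≤ 1 / 4) →
  (∀ i ∈ I, ∀ S ⊆ I, i ∉ S → (∀ j ∈ S, ¬ nb i j) →
    ((Finset.univ.filter fun ω => E i ω ∧ ∀ j ∈ S, ¬ E j ω).card : ℝ) ≤
      q i * (Finset.univ.filter fun ω => ∀ j ∈ S, ¬ E j ω).card) →
  Real.exp (-4 * ∑ i ∈ I, q i) * Fintype.card Ω ≤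
    (Finset.univ.filter fun ω => ∀ j ∈ I, ¬ E j ω).card

/-- partial matchings -/
def PM {X Y : Type} (M : Finset (X × Y)) : Prop := ∀ a ∈ M, ∀ b ∈ M, (a.1 = b.1 ↔ a.2 = b.2)

/-- `π` contains `M` -/
def Ev {X Y : Type} (M : Finset (X × Y)) (π : X ≃ Y) : Prop := ∀ a ∈ M, π a.1 = a.2

open Classical in
/-- B3. Negative dependence for uniform bijections. For every partial matching `M'` with the same
domain as `M` there is an injection `{π ⊇ M, avoiding S} → {π ⊇ M', avoiding S}`, `π ↦ τ ∘ π`, where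
`τ` is a permutation of `Y` with `τ (M x) = M' x`, equal to the identity outside `im M ∪ im M'`
(`Equiv.Perm` extension of the partial bijection). If `τ ∘ π ⊇ N`, `N ∈ S`, then `π ⊇ N`: a pair
`(a, b) ∈ N` with `a ∈ dom M` has `b = M a = π a` (compatibility); if `a ∉ dom M`, then `b ∉ im M`
(compatibility), `b ∉ im M'` (injectivity of `τ ∘ π`), so `b = π a`. There are `L!/(L - #M)!`
matchings `M'`, their sets are disjoint. -/
def S_LOP : Prop := ∀ (X Y : Type) [Fintype X] [Fintype Y] (M : Finset (X × Y))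
  (S : Finset (Finset (X × Y))), Fintype.card X = Fintype.card Y → PM M →
  (∀ N ∈ S, PM (M ∪ N)) →
  ((Finset.univ.filter fun π : X ≃ Y => Ev M π ∧ ∀ N ∈ S, ¬ Ev N π).card : ℝ) *
      (Fintype.card X).factorial ≤
    ((Fintype.card X - M.card).factorial : ℝ) *
      (Finset.univ.filter fun π : X ≃ Y => ∀ N ∈ S, ¬ Ev N π).card

open Classical in
/-- B4. The configuration model is simple with probability bounded below. The bad events: loops
`{(x, y)}`, `x.1 = y.1`, and double arcs `{(x, y), (x', y')}`, `x.1 = x'.1`, `y.1 = y'.1`, `x ≠ x'`,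
`y ≠ y'`; `nb M N` iff `M ∪ N` is not a partial matching (then they share a half-edge);
`q M = (L - #M)!/L!`; `∑ q ≤ A/c + A² n² /(L (L-1))`, and the sum over the events which contain a
given half-edge is `≤ √(A n)/L + √(A n) A n/(L(L-1)) → 0` as all degrees are `≤ √(A n)`. -/
def S_SIMP : Prop := S_LLL → S_LOP → ∀ A c : ℝ, 0 < A → 0 < c → ∃ δ : ℝ, 0 < δ ∧ ∃ N : ℕ,
  ∀ n ≥ N, ∀ d : DS n, Good A c d →
    δ * Fintype.card (Cf d) ≤ (Finset.univ.filter fun π : Cf d => Simp π).card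

/-! ## C. Exploration -/

open Classical in
/-- The exploration. State: fuel, list of active half-edges with the remaining depth, half-edges
which are not yet activated, revealed half-edges. Output: `true` = the exploration died out;
and the set of revealed half-edges. It stops (`false`) if a half-edge of remaining depth `0` is at
the head of the list, or if there is no fuel. -/
noncomputable def run {X Y V : Type} (ox : X → V) (oy : Y → V) (π : X ≃ Y) :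
    ℕ → List (X × ℕ) → Finset X → Finset X → Bool × Finset X
  | _, [], _, R => (true, R)
  | 0, _ :: _, _, R => (false, R)
  | _ + 1, (_, 0) :: _, _, R => (false, R)
  | f + 1, (x, r + 1) :: W, Un, R =>
    run ox oy π f
      ((Un.filter fun x' => ox x' = oy (π x)).toList.map (fun x' => (x', r)) ++ W)
      (Un.filter fun x' => ox x' ≠ oy (π x)) (insert x R)

open Classical in
/-- The exploration from the vertex `u` with depth `k`, fuel `T`, without the half-edges in `F`. -/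
noncomputable def expl {X Y V : Type} [Fintype X] (ox : X → V) (oy : Y → V) (π : X ≃ Y)
    (k T : ℕ) (u : V) (F : Finset X) : Bool × Finset X :=
  run ox oy π T ((Finset.univ.filter fun x => ox x = u ∧ x ∉ F).toList.map fun x => (x, k))
    (Finset.univ.filter fun x => ox x ≠ u ∧ x ∉ F) ∅

/-- C1. If the exploration dies out, then every vertex which can be reached from `u` can be reached
in at most `k` steps (arcs with out-half-edge in `F` removed). -/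
def S_RUN1 : Prop := ∀ (X Y V : Type) [Fintype X] (ox : X → V) (oy : Y → V) (π : X ≃ Y)
  (k T : ℕ) (u : V) (F : Finset X), (expl ox oy π k T u F).1 = true →
  ∀ (m : ℕ) (v : V), Walk (ArcF ox oy π F) m u v →
    ∃ m' ≤ k, Walk (ArcF ox oy π F) m' u v

/-- C2. The revealed half-edges: at most `T`, not in `F`, their owners are reached within `k` steps,
and the exploration depends on the revealed part of `π` only. -/
def S_RUN2 : Prop := ∀ (X Y V : Type) [Fintype X] (ox : X → V) (oy : Y → V) (π : X ≃ Y)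
  (k T : ℕ) (u : V) (F : Finset X),
  (expl ox oy π k T u F).2.card ≤ T ∧
  (∀ x ∈ (expl ox oy π k T u F).2, x ∉ F ∧ ∃ m ≤ k, Walk (ArcF ox oy π F) m u (ox x)) ∧
  ∀ π' : X ≃ Y, (∀ x ∈ (expl ox oy π k T u F).2, π' x = π x) →
    expl ox oy π' k T u F = expl ox oy π k T u F

open Classical in
/-- C3. The probability that the exploration does not die out, given the values of `π` on `F`.
Prove for all fuels `f ≤ T`, all revealed sets `F'` with `#F' + f ≤ #F + T`, all active lists `W`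
without repetition and `Un`, disjoint from each other and from `F'`: the number of `π` with
`π = m` on `F'` for which `run f W Un _` does not die is at most
`((1 - ∏_{(x,r) ∈ W} (1 - p r)) + (∑_{(x,r) ∈ W} G r)/T + (T - f)/T) (L - #F')!`; induction on `f`,
condition on the value of `π` at the head of `W` (`L - #F' ≥ D` possible values). -/
def S_RUN3 : Prop := ∀ (X Y V : Type) [Fintype X] [Fintype Y] (ox : X → V) (oy : Y → V)
  (p G : ℕ → ℝ) (T : ℕ) (D : ℝ) (F : Finset X) (m : X → Y), 1 ≤ T → 0 < D →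
  D ≤ (Fintype.card X : ℝ) - F.card - T → Fintype.card X = Fintype.card Y → Set.InjOn m F →
  p 0 = 1 → (∀ r, 0 ≤ p r ∧ p r ≤ 1) → (∀ r, 0 ≤ G r) →
  (∀ r, ∑ y : Y, (1 - (1 - p r) ^ (Finset.univ.filter fun x => ox x = oy y).card) ≤
    D * p (r + 1)) →
  (∀ r, D + (∑ y : Y, ((Finset.univ.filter fun x => ox x = oy y).card : ℝ)) * G r ≤
    D * G (r + 1)) →
  ∀ (u : V) (k : ℕ),
    ((Finset.univ.filter fun π : X ≃ Y => (∀ x ∈ F, π x = m x) ∧
      (expl ox oy π k T u F).1 = false).card : ℝ) ≤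
    ((Finset.univ.filter fun x => ox x = u).card * (p k + G k / T)) *
      (Finset.univ.filter fun π : X ≃ Y => ∀ x ∈ F, π x = m x).card

/-- out-exploration from `u` -/
noncomputable def oE {n : ℕ} {d : DS n} (k T : ℕ) (π : Cf d) (u : Fin n) : Bool × Finset (HO d) :=
  expl (fun x : HO d => x.1) (fun y : HI d => y.1) π k T u ∅

/-- in-exploration from `u`, without the arcs revealed by the out-exploration -/
noncomputable def iE {n : ℕ} {d : DS n} (k T : ℕ) (π : Cf d) (u : Fin n) : Bool × Finset (HI d) :=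
  expl (fun y : HI d => y.1) (fun x : HO d => x.1) π.symm k T u
    ((oE k T π u).2.map π.toEmbedding)

/-- rates for the exploration: `a` = degrees used to enter a vertex, `b` = degrees to leave it -/
def Rates {n : ℕ} (a b : Fin n → ℕ) (D : ℝ) (k T : ℕ) (B : ℝ) : Prop :=
  ∃ p G : ℕ → ℝ, p 0 = 1 ∧ (∀ r, 0 ≤ p r ∧ p r ≤ 1) ∧ (∀ r, 0 ≤ G r) ∧
    (∀ r, ∑ v, (a v : ℝ) * (1 - (1 - p r) ^ (b v)) ≤ D * p (r + 1)) ∧
    (∀ r, D + (∑ v, (a v : ℝ) * b v) * G r ≤ D * G (r + 1)) ∧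
    p k + G k / T ≤ B

open Classical in
/-- C4. Both explorations. Group the `π` with `(oE π u).1 = false` by the restriction of `π` to the
revealed set (`S_RUN2`: all `π'` with the same restriction have the same `oE`), and apply `S_RUN3`
to `π.symm` in each group (`D ≤ L - #F - T` as `#F ≤ T`). -/
def S_TWO : Prop := S_RUN2 → S_RUN3 → ∀ (n : ℕ) (d : DS n) (k T : ℕ) (B B' D : ℝ), 1 ≤ T →
  Bal d → 0 < D → D ≤ ∑ i, ((d i).1 : ℝ) - 2 * T →
  Rates (fun i => (d i).1) (fun i => (d i).2) D k T B →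
  Rates (fun i => (d i).2) (fun i => (d i).1) D k T B' → ∀ u : Fin n,
    ((Finset.univ.filter fun π : Cf d => (oE k T π u).1 = false ∧
      (iE k T π u).1 = false).card : ℝ) ≤
    ((d u).2 * B) * ((d u).1 * B') * Fintype.card (Cf d)

/-- C5. Existence of rates, `T = k²`. With `L = ∑ a`, `D = L - 2k² ≥ cn/2`, `S = ∑ a b`:
`p (r+1) = D⁻¹ ∑ a (1 - (1 - p r)^b)`, `G 0 = 0`, `G (r+1) = 1 + (S/D) G r`.
`p ≤ 1`: `∑_{b=0} a ≥ ∑_{b≥2} a (b-1) - A√n ≥ cn - A√n ≥ 2k²`.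
`1 - (1-p)^b ≤ b p - 1[b ≥ 2] p²`, so `p (r+1) ≤ (1 + C₂/k) p r - c₁ (p r)²`, and `z = 1/p` has
`z (r+1) ≥ (1 - C₂/k) z r + c₁`, `z k ≥ c₁ k exp(-2C₂)`; `G k ≤ k exp(C₂)`. -/
def S_NUM : Prop := ∀ A c : ℝ, 0 < A → 0 < c → ∃ C : ℝ, 0 < C ∧ ∃ N : ℕ, ∀ n ≥ N, ∀ k : ℕ,
  k ^ 3 ≤ n → n < (k + 1) ^ 3 → ∀ d : DS n, Crit A c d →
    0 < ∑ i, ((d i).1 : ℝ) - 2 * (k : ℝ) ^ 2 ∧
    Rates (fun i => (d i).1) (fun i => (d i).2) (∑ i, ((d i).1 : ℝ) - 2 * (k : ℝ) ^ 2) k (k ^ 2)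
      (C / k) ∧
    Rates (fun i => (d i).2) (fun i => (d i).1) (∑ i, ((d i).1 : ℝ) - 2 * (k : ℝ) ^ 2) k (k ^ 2)
      (C / k)

/-! ## D. Cycles and geodesics -/

/-- `u` lies on a cycle of length at most `K` (in terms of distinct half-edges) -/
def Cyc {n : ℕ} {d : DS n} (π : Cf d) (u : Fin n) (K : ℕ) : Prop :=
  ∃ l : ℕ, 1 ≤ l ∧ l ≤ K ∧ ∃ x : ℕ → HO d, Set.InjOn x (Set.Iio l) ∧ (x 0).1 = u ∧
    ∀ i < l, (π (x i)).1 = (x ((i + 1) % l)).1

open Classical in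
/-- D1. The expected number of vertices on short cycles: at most
`∑_{l ≤ K} (∑ d⁻ d⁺)^l (L - l)!/L! ≤ ∑_{l ≤ K} ((L + A√n)/(L - l))^l ≤ C K` for `K ≤ 3 n^(1/3)`. -/
def S_CYC : Prop := ∀ A c : ℝ, 0 < A → 0 < c → ∃ C : ℝ, 0 < C ∧ ∃ N : ℕ, ∀ n ≥ N, ∀ k : ℕ,
  k ^ 3 ≤ n → n < (k + 1) ^ 3 → ∀ d : DS n, Crit A c d →
    ∑ u, ((Finset.univ.filter fun π : Cf d => Cyc π u (2 * k + 1)).card : ℝ) ≤
      C * k * Fintype.card (Cf d)

/-- D2. A closed walk gives a cycle (take a shortest closed walk from `u` of positive length; its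
vertices are distinct, hence its half-edges). -/
def S_CYW : Prop := ∀ (n : ℕ) (d : DS n) (π : Cf d) (u w : Fin n) (a b : ℕ), 1 ≤ a + b →
  Walk (Arc π) a u w → Walk (Arc π) b w u → Cyc π u (a + b)

open Classical in
/-- D3. The middle part of a geodesic. -/
def S_GEO : Prop := ∀ (V : Type) [Fintype V] (R : V → V → Prop) (m K : ℕ) (v w : V),
  DistEq R m v w → 2 * K ≤ m →
  m + 1 ≤ 2 * K + (Finset.univ.filter fun u : V => (∃ v', DistEq R K v' u) ∧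
    ∃ w', DistEq R K u w').card

/-- D4. If `u` has in- and out-depth `≥ k + 1`, then both explorations do not die out, or `u` lies
on a short cycle. (`S_RUN1` with `F = ∅` gives `(oE k T π u).1 = false`. Take a shortest path
`v' = u₀, …, u_{k+1} = u` with half-edges `x₀, …, x_k`. If no `x_j` is revealed, it is a path of
`ArcF`, a shorter one does not exist, so `iE` does not die by `S_RUN1` for `π.symm`. If `x_j` is
revealed, then `u` reaches its owner `u_j` in at most `k` steps by `S_RUN2`, use `S_CYW`.) -/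
def S_SPLIT : Prop := S_RUN1 → S_RUN2 → S_CYW → ∀ (n : ℕ) (d : DS n) (π : Cf d) (k T : ℕ)
  (u : Fin n), (∃ v', DistEq (Arc π) (k + 1) v' u) → (∃ w', DistEq (Arc π) (k + 1) u w') →
  ((oE k T π u).1 = false ∧ (iE k T π u).1 = false) ∨ Cyc π u (2 * k + 1)

/-! ## E. Upper bound for the diameter -/

/-- the conclusions of parts C and D used here -/
def S_C : Prop := S_RUN1 ∧ S_RUN2 ∧ S_RUN3 ∧ S_TWO ∧ S_NUM ∧ S_CYC ∧ S_CYW ∧ S_GEO ∧ S_SPLIT

open Classical in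
/-- E1. First moment and Markov's inequality. `∑_u #{π : u has both depths ≥ k+1} ≤`
`(∑_u d⁻ d⁺ (C/k)² + C k) #Cf ≤ C' k #Cf` (`∑ d⁻ d⁺ ≤ A n`, `n < (k+1)³ ≤ 8 k³`). -/
def S_FIRST : Prop := S_C → ∀ A c : ℝ, 0 < A → 0 < c → ∃ C : ℝ, 0 < C ∧ ∃ N : ℕ,
  ∀ n ≥ N, ∀ k : ℕ, k ^ 3 ≤ n → n < (k + 1) ^ 3 → ∀ d : DS n, Crit A c d →
    ∀ m : ℕ, 2 * (k + 1) ≤ m →
      ((Finset.univ.filter fun π : Cf d => ∃ m' ≥ m, ∃ v w, DistEq (Arc π) m' v w).card : ℝ) *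
        ((m : ℝ) + 1 - 2 * (k + 1)) ≤ C * k * Fintype.card (Cf d)

/-- conclusion of B4 -/
def SimpC : Prop := S_LLL ∧ S_LOP ∧ S_SIMP

/-- E2. Upper bound for fixed critical degree sequences. -/
def S_UPD : Prop := S_CNT → SimpC → S_C → S_FIRST → ∀ A c : ℝ, 0 < A → 0 < c →
  ∃ C : ℝ, 0 < C ∧ ∃ N : ℕ, ∀ n ≥ N, ∀ d : DS n, Crit A c d → ∀ x : ℝ,
    8 * (n : ℝ) ^ (1 / 3 : ℝ) ≤ x → pD d x ≤ ENNReal.ofReal (C * (n : ℝ) ^ (1 / 3 : ℝ) / x)

/-! ## F. The degenerate case -/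

open Classical in
/-- F1. Every vertex which can be entered has exactly one out-half-edge. Start at `u` with
`(d u).1 ≥ 1`; the path from `u` is determined; the number of `π` for which it closes up before
`m = ⌈ε' √n⌉` steps is at most `(C m²/n + C m √(A n)/n) #Cf`. -/
def S_RHO : Prop := ∀ A c ε : ℝ, 0 < A → 0 < c → 0 < ε → ∃ δ : ℝ, 0 < δ ∧ ∃ N : ℕ, ∀ n ≥ N,
  ∀ d : DS n, Good A c d → (∀ i, 1 ≤ (d i).1 → (d i).2 = 1) →
    ((Finset.univ.filter fun π : Cf d => ¬ ∃ m : ℕ, δ * Real.sqrt n < m ∧ ∃ v w,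
      DistEq (Arc π) m v w).card : ℝ) ≤ ε * Fintype.card (Cf d)

/-- F2. Lower bound for fixed degenerate degree sequences. -/
def S_LOD : Prop := S_CNT → SimpC → S_RHO → ∀ A c : ℝ, 0 < A → 0 < c →
  ∃ δ ε : ℝ, 0 < δ ∧ 0 < ε ∧ ∃ N : ℕ, ∀ n ≥ N, ∀ d : DS n, Good A c d →
    (∀ i, 1 ≤ (d i).1 → (d i).2 = 1) → ENNReal.ofReal ε ≤ pD d (δ * Real.sqrt n)

/-- F3. Reversal of all arcs. -/
def S_SWAP : Prop := ∀ ν : Measure (ℕ × ℕ), Hyp ν → Hyp (ν.map Prod.swap) ∧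
  ∀ (n : ℕ) (x : ℝ), PG (ν.map Prod.swap) n x = PG ν n x

/-! ## G. Final statements -/

/-- the statements of part A -/
def S_A : Prop := S_CHF ∧ S_LLT ∧ S_HALF ∧ S_SUMS ∧ S_TYP

/-- G1 -/
def S_TIGHT : Prop := S_A → S_CNT → SimpC → S_C → S_FIRST → S_UPD →
  ∀ ν : Measure (ℕ × ℕ), Hyp ν → Nondeg ν → Tight ν

/-- G2. `D⁻ ≥ 1` implies `D⁺ = 1` a.s. by criticality if `ν {1 ≤ x.1 ∧ 2 ≤ x.2} = 0`. -/
def S_NOT : Prop := S_A → S_CNT → SimpC → S_RHO → S_LOD →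
  ∀ ν : Measure (ℕ × ℕ), Hyp ν → ν {x | 1 ≤ x.1 ∧ 2 ≤ x.2} = 0 →
    ∃ ε : ℝ, 0 < ε ∧ ∀ C : ℝ, ∃ N : ℕ, ∀ n ≥ N,
      ENNReal.ofReal ε ≤ PG ν n (C * (n : ℝ) ^ (1 / 3 : ℝ))

/-- G3. Simple digraphs with the random degree sequence exist with probability `→ 1`. -/
def S_GRA : Prop := S_A → S_CNT → SimpC → ∀ ν : Measure (ℕ × ℕ), Hyp ν →
  Tendsto (fun n => PB ν n {d | ∃ A : SD n, HasDeg A d}) atTop (𝓝 1)

/-- G4. An example of a degenerate law: `D⁺ = 1`, `D⁻` uniform on `{0, 1, 2}`. -/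
def S_EX : Prop := ∃ ν : Measure (ℕ × ℕ), Hyp ν ∧ ν {x | 1 ≤ x.1 ∧ 2 ≤ x.2} = 0

end Pool.Agent.NH71.DC
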