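import Pool.Agent.NH71.DC.Base

/-!
# Project DC, part F3: reversal of all arcs
-/

set_option autoImplicit false

open MeasureTheory ProbabilityTheory Filter Topology
open scoped ENNReal

namespace Pool.Agent.NH71.DC

namespace Swap

theorem walk_rev {V : Type} {R : V → V → Prop} {m : ℕ} {u v : V} (h : Walk R m u v) :
    Walk (fun a b => R b a) m v u := by
  induction h with
  | nil v => exact Walk.nil v
  | cons h _ ih => exact Base.walk_append ih (Walk.cons h (Walk.nil _))

theorem walk_rev_iff {V : Type} {R : V → V → Prop} {m : ℕ} {u v : V} :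
    Walk (fun a b => R b a) m v u ↔ Walk R m u v :=
  ⟨fun h => walk_rev h, fun h => walk_rev h⟩

theorem diam_rev {V : Type} (R : V → V → Prop) : diam (fun a b => R b a) = diam R := by
  unfold diam
  congr 1
  ext m
  constructor
  · rintro ⟨u, v, h1, h2⟩
    exact ⟨v, u, walk_rev_iff.1 h1, fun m' hm' h => h2 m' hm' (walk_rev_iff.2 h)⟩
  · rintro ⟨u, v, h1, h2⟩
    exact ⟨v, u, walk_rev_iff.2 h1, fun m' hm' h => h2 m' hm' (walk_rev_iff.1 h)⟩

/-- the reversed digraph -/
def rev {n : ℕ} (A : SD n) : SD n := ⟨fun i j => A.1 j i, fun i => A.2 i⟩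

theorem rev_rev {n : ℕ} (A : SD n) : rev (rev A) = A := rfl

/-- the swapped degrees -/
def sw {n : ℕ} (d : DS n) : DS n := fun i => (d i).swap

theorem hasDeg_rev {n : ℕ} {A : SD n} {d : DS n} (h : HasDeg A d) : HasDeg (rev A) (sw d) := by
  intro i
  obtain ⟨h1, h2⟩ := h i
  exact ⟨h2, h1⟩

theorem hasDeg_rev_iff {n : ℕ} {A : SD n} {d : DS n} : HasDeg (rev A) (sw d) ↔ HasDeg A d :=
  ⟨fun h => hasDeg_rev h, hasDeg_rev⟩

theorem diam_revA {n : ℕ} (A : SD n) : diam (rev A).arc = diam A.arc :=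
  diam_rev A.arc

theorem pD_sw {n : ℕ} (d : DS n) (x : ℝ) : pD (sw d) x = pD d x := by
  classical
  unfold pD
  have key : ∀ P Q : SD n → Prop, (∀ A, P A → Q (rev A)) → (∀ A, Q A → P (rev A)) →
      ((Finset.univ.filter fun A => P A).card : ℝ≥0∞) =
        ((Finset.univ.filter fun A => Q A).card : ℝ≥0∞) := by
    intro P Q h1 h2
    congr 1
    refine Finset.card_bij' (fun A _ => rev A) (fun A _ => rev A) ?_ ?_ ?_ ?_
    · intro A hA
      exact Finset.mem_filter.2 ⟨Finset.mem_univ _, h1 A (Finset.mem_filter.1 hA).2⟩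
    · intro A hA
      exact Finset.mem_filter.2 ⟨Finset.mem_univ _, h2 A (Finset.mem_filter.1 hA).2⟩
    · intro A _
      exact rev_rev A
    · intro A _
      exact rev_rev A
  have h1 : ∀ A : SD n, HasDeg A (sw d) → HasDeg (rev A) d := fun A h => by
    have := hasDeg_rev (A := A) (d := sw d) h
    exact this
  have h2 : ∀ A : SD n, HasDeg A d → HasDeg (rev A) (sw d) := fun A h => hasDeg_rev h
  have e1 := key (fun A => HasDeg A (sw d) ∧ x < diam A.arc) (fun A => HasDeg A d ∧ x < diam A.arc)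
    (fun A h => ⟨h1 A h.1, by rw [diam_revA]; exact h.2⟩)
    (fun A h => ⟨h2 A h.1, by rw [diam_revA]; exact h.2⟩)
  have e2 := key (fun A => HasDeg A (sw d)) (fun A => HasDeg A d) h1 h2
  refine congrArg₂ (· / ·) ?_ ?_
  · refine le_antisymm (le_of_eq_of_le ?_ (le_of_eq_of_le e1 (le_of_eq ?_)))
      (le_of_eq_of_le ?_ (le_of_eq_of_le e1.symm (le_of_eq ?_)))
    all_goals
      refine congrArg (fun s : Finset (SD n) => (s.card : ℝ≥0∞)) (Finset.ext fun A => ?_)
      simp only [Finset.mem_filter, Finset.mem_univ, true_and]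
  · refine le_antisymm (le_of_eq_of_le ?_ (le_of_eq_of_le e2 (le_of_eq ?_)))
      (le_of_eq_of_le ?_ (le_of_eq_of_le e2.symm (le_of_eq ?_)))
    all_goals
      refine congrArg (fun s : Finset (SD n) => (s.card : ℝ≥0∞)) (Finset.ext fun A => ?_)
      simp only [Finset.mem_filter, Finset.mem_univ, true_and]

theorem meas {n : ℕ} {β : Type} [MeasurableSpace β] (f : DS n → β) : Measurable f :=
  measurable_of_countable f

theorem PP_sw (ν : Measure (ℕ × ℕ)) [IsProbabilityMeasure ν] (n : ℕ) :
    PP (ν.map Prod.swap) n = (PP ν n).map sw := by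
  unfold PP
  have h : IsProbabilityMeasure (ν.map Prod.swap) :=
    Measure.isProbabilityMeasure_map measurable_swap.aemeasurable
  have := Measure.pi_map_pi (μ := fun _ : Fin n => ν) (f := fun (_ : Fin n) => (Prod.swap : ℕ × ℕ → ℕ × ℕ))
    (fun _ => measurable_swap.aemeasurable)
  exact this.symm

theorem bal_sw {n : ℕ} (d : DS n) : Bal (sw d) ↔ Bal d :=
  ⟨fun h => h.symm, fun h => h.symm⟩

theorem PG_sw (ν : Measure (ℕ × ℕ)) [IsProbabilityMeasure ν] (n : ℕ) (x : ℝ) :
    PG (ν.map Prod.swap) n x = PG ν n x := by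
  unfold PG PB ProbabilityTheory.cond
  rw [PP_sw, lintegral_smul_measure, lintegral_smul_measure]
  have hB : MeasurableSet {d : DS n | Bal d} := Set.Countable.measurableSet (Set.to_countable _)
  have hpre : sw ⁻¹' {d : DS n | Bal d} = {d : DS n | Bal d} := by
    ext d
    exact bal_sw d
  rw [Measure.map_apply (meas _) hB, hpre, setLIntegral_map hB (meas _) (meas _), hpre]
  congr 1
  refine lintegral_congr fun d => ?_
  exact pD_sw d x

theorem hyp_sw (ν : Measure (ℕ × ℕ)) (h : Hyp ν) : Hyp (ν.map Prod.swap) := by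
  have hp := h.prob
  have hsm : Measurable (Prod.swap : ℕ × ℕ → ℕ × ℕ) := measurable_swap
  have hsae : AEMeasurable (Prod.swap : ℕ × ℕ → ℕ × ℕ) ν := hsm.aemeasurable
  have hint : ∀ f : ℕ × ℕ → ℝ, ∫ x, f x ∂(ν.map Prod.swap) = ∫ x, f x.swap ∂ν := fun f =>
    integral_map hsae (measurable_of_countable f).aestronglyMeasurable
  have hi : ∀ f : ℕ × ℕ → ℝ, Integrable (fun x => f x.swap) ν → Integrable f (ν.map Prod.swap) :=
    fun f hf => (integrable_map_measure (measurable_of_countable f).aestronglyMeasurable hsae).2 hf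
  refine ⟨Measure.isProbabilityMeasure_map hsae, ?_, ?_, ?_, ?_⟩
  · intro i j hij
    refine hi _ ?_
    have h1 := h.mom j i (by omega)
    refine h1.congr (Filter.Eventually.of_forall fun x => ?_)
    simp only [Prod.fst_swap, Prod.snd_swap]
    ring
  · rw [hint, hint]
    exact h.mean.symm
  · intro p hp1 c hc
    rw [ae_map_iff hsae (Set.Countable.measurableSet (Set.to_countable _))] at hc
    refine h.aper p hp1 (-c) ?_
    filter_upwards [hc] with x hx
    obtain ⟨k, hk⟩ := hx
    refine ⟨-k, ?_⟩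
    simp only [Prod.fst_swap, Prod.snd_swap] at hk
    push_cast
    linarith
  · rw [hint, hint]
    simp only [Prod.fst_swap, Prod.snd_swap]
    rw [← h.mean, ← h.crit]
    refine integral_congr_ae (Filter.Eventually.of_forall fun x => ?_)
    simp only
    ring

end Swap

/-- **F3** -/
theorem s_swap : S_SWAP := by
  intro ν h
  have hp := h.prob
  exact ⟨Swap.hyp_sw ν h, fun n x => Swap.PG_sw ν n x⟩

end Pool.Agent.NH71.DC
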