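import Pool.Agent.NH71.DC.Base

/-!
# Project DC, G1: tightness in the nondegenerate case
-/

set_option autoImplicit false

open MeasureTheory ProbabilityTheory Filter Topology
open scoped ENNReal

namespace Pool.Agent.NH71.DC

namespace GTt

lemma PB_univ_le (ν : Measure (ℕ × ℕ)) (n : ℕ) : PB ν n Set.univ ≤ 1 := by
  unfold PB
  rw [cond_apply (Base.meas_set _), Set.inter_univ]
  exact ENNReal.inv_mul_le_one _

end GTt

open GTt in
theorem s_tight : S_TIGHT := by
  intro hA hCnt hSimp hC hFirst hUpd ν hν hnd ε hε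
  obtain ⟨hchf, hllt, hhalf, hsums, htyp⟩ := hA
  have hH : HalfC ν := hhalf hchf hllt ν hν
  obtain ⟨A, c, hA0, hc0, N1, hN1⟩ := (htyp hsums ν hν hH (ε / 2) (by positivity)).2 hnd
  obtain ⟨C0, hC0, N2, hN2⟩ := hUpd hCnt hSimp hC hFirst A c hA0 hc0
  set N3 : ℕ := max (max N1 N2) 1 with hN3
  set C : ℝ := max (max 8 (2 * C0 / ε)) N3 with hCdef
  have hC8 : (8 : ℝ) ≤ C := (le_max_left _ _).trans (le_max_left _ _)
  have hC2 : 2 * C0 / ε ≤ C := (le_max_right _ _).trans (le_max_left _ _)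
  have hCN : (N3 : ℝ) ≤ C := le_max_right _ _
  have hCpos : 0 < C := by linarith
  refine ⟨C, fun n => ?_⟩
  rcases Nat.eq_zero_or_pos n with hn0 | hn0
  · have : PG ν n (C * (n : ℝ) ^ (1 / 3 : ℝ)) = 0 := by
      unfold PG
      rw [lintegral_congr (g := fun _ => 0)]
      · simp
      · intro d
        refine Base.pD_eq_zero d ?_
        subst hn0
        simp
    rw [this]; exact zero_le
  have hn1 : (1 : ℝ) ≤ n := by exact_mod_cast hn0
  have hcube : (1 : ℝ) ≤ (n : ℝ) ^ (1 / 3 : ℝ) := Real.one_le_rpow hn1 (by norm_num)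
  by_cases hn : N3 ≤ n
  · have hnN1 : N1 ≤ n := ((le_max_left _ _).trans (le_max_left _ _)).trans hn
    have hnN2 : N2 ≤ n := ((le_max_right _ _).trans (le_max_left _ _)).trans hn
    set x : ℝ := C * (n : ℝ) ^ (1 / 3 : ℝ) with hx
    have hx8 : 8 * (n : ℝ) ^ (1 / 3 : ℝ) ≤ x := by
      rw [hx]; exact mul_le_mul_of_nonneg_right hC8 (by linarith)
    have hbound : ∀ d : DS n, pD d x ≤
        ENNReal.ofReal (ε / 2) + Set.indicator {d | ¬ Crit A c d} (fun _ => (1 : ℝ≥0∞)) d := by
      intro d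
      by_cases hd : Crit A c d
      · have h1 := hN2 n hnN2 d hd x hx8
        refine h1.trans ((ENNReal.ofReal_le_ofReal ?_).trans le_self_add)
        rw [hx, mul_div_mul_right _ _ (by linarith : ((n : ℝ) ^ (1 / 3 : ℝ)) ≠ 0)]
        rw [div_le_iff₀ hCpos]
        rw [div_le_iff₀ hε] at hC2
        linarith
      · rw [Set.indicator_of_mem (show d ∈ {d | ¬ Crit A c d} from hd)]
        exact (Base.pD_le_one d x).trans le_add_self
    calc PG ν n x = ∫⁻ d, pD d x ∂(PB ν n) := rfl
      _ ≤ ∫⁻ d, (ENNReal.ofReal (ε / 2) +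
          Set.indicator {d | ¬ Crit A c d} (fun _ => (1 : ℝ≥0∞)) d) ∂(PB ν n) :=
        lintegral_mono hbound
      _ = ENNReal.ofReal (ε / 2) * PB ν n Set.univ + PB ν n {d | ¬ Crit A c d} := by
        rw [lintegral_add_left measurable_const, lintegral_const,
          lintegral_indicator (Base.meas_set _), lintegral_const, one_mul,
          Measure.restrict_apply_univ]
      _ ≤ ENNReal.ofReal (ε / 2) * 1 + ENNReal.ofReal (ε / 2) :=
        add_le_add (mul_le_mul_right (PB_univ_le ν n) _) (hN1 n hnN1)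
      _ = ENNReal.ofReal ε := by
        rw [mul_one, ← ENNReal.ofReal_add (by positivity) (by positivity), add_halves]
  · have hnle : (n : ℝ) ≤ C * (n : ℝ) ^ (1 / 3 : ℝ) := by
      have h1 : (n : ℝ) ≤ N3 := by exact_mod_cast (not_le.1 hn).le
      nlinarith
    have : PG ν n (C * (n : ℝ) ^ (1 / 3 : ℝ)) = 0 := by
      unfold PG
      rw [lintegral_congr (g := fun _ => 0)]
      · simp
      · intro d
        exact Base.pD_eq_zero d hnle
    rw [this]; exact zero_le

end Pool.Agent.NH71.DC
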